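import Pool.Agent.Lib.MP_5bcdfb_an.HM.Spec

/-!
# MP_5bcdfb_an, hive HM: module ADC (additivity)
-/

set_option autoImplicit false

namespace Pool.Agent.Lib.MP5bcdfb.HM

open Set TopologicalSpace Filter Topology
open Pool.Agent.Lib.MP5bcdfb.TS (IsVal ContAt UCB)

namespace ADCM

variable {K : Type} [TopologicalSpace K] [CompactSpace K]

/-- additivity for a strictly positive first function -/
theorem pos (hONE : SpecONE) {V : C(K, ℝ) → ℝ} (hV : IsVal V) (hH : Hom1 V) (h0 : ContAt V 0)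
    (hU : UCB V) (f g : C(K, ℝ)) (hf : ∀ t, 0 < f t) (hg : 0 ≤ g) : V (f + g) = V f + V g := by
  have hf0 : 0 ≤ f := fun t => (hf t).le
  set c : ℝ := ‖f‖ + 1 with hc
  have hcpos : 0 < c := by positivity
  have hmul0 : ∀ u : C(K, ℝ), 0 ≤ u → 0 ≤ f * u := fun u hu t => mul_nonneg (hf0 t) (hu t)
  have hnm : ∀ u : C(K, ℝ), ‖f * u‖ ≤ c * ‖u‖ := fun u =>
    (norm_mul_le f u).trans (mul_le_mul_of_nonneg_right (by rw [hc]; linarith) (norm_nonneg u))
  set W : C(K, ℝ) → ℝ := fun u => V (f * u) with hW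
  have hWV : IsVal W := by
    intro u v hu hv
    have e1 : f * (u ⊔ v) = f * u ⊔ f * v := by
      ext t
      exact mul_max_of_nonneg (u t) (v t) (hf0 t)
    have e2 : f * (u ⊓ v) = f * u ⊓ f * v := by
      ext t
      exact mul_min_of_nonneg (u t) (v t) (hf0 t)
    show V (f * u) + V (f * v) = V (f * (u ⊔ v)) + V (f * (u ⊓ v))
    rw [e1, e2]
    exact hV _ _ (hmul0 u hu) (hmul0 v hv)
  have hWH : Hom1 W := by
    intro r u hr hu
    show V (f * (r • u)) = r * V (f * u)
    rw [mul_smul_comm]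
    exact hH r _ hr (hmul0 u hu)
  have hW0 : ContAt W 0 := by
    intro ε hε
    obtain ⟨r, hr, hr'⟩ := h0 ε hε
    refine ⟨r / c, by positivity, fun u hu hur => ?_⟩
    show |V (f * u) - V (f * 0)| < ε
    rw [mul_zero]
    apply hr' _ (hmul0 u hu)
    rw [sub_zero] at hur ⊢
    calc ‖f * u‖ ≤ c * ‖u‖ := hnm u
      _ < c * (r / c) := mul_lt_mul_of_pos_left hur hcpos
      _ = r := by field_simp
  have hWU : UCB W := by
    intro m ε hm hε
    obtain ⟨δ, hδ, hδ'⟩ := hU (c * m) ε (by positivity) hε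
    refine ⟨δ / c, by positivity, fun u v hu hv hum hvm huv => ?_⟩
    apply hδ' _ _ (hmul0 u hu) (hmul0 v hv)
    · exact (hnm u).trans (mul_le_mul_of_nonneg_left hum hcpos.le)
    · exact (hnm v).trans (mul_le_mul_of_nonneg_left hvm hcpos.le)
    · rw [← mul_sub]
      calc ‖f * (u - v)‖ ≤ c * ‖u - v‖ := hnm _
        _ < c * (δ / c) := mul_lt_mul_of_pos_left huv hcpos
        _ = δ := by field_simp
  let h : C(K, ℝ) := ⟨fun t => g t / f t, g.continuous.div f.continuous (fun t => (hf t).ne')⟩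
  have hh : 0 ≤ h := fun t => div_nonneg (hg t) (hf0 t)
  have hfh : f * h = g := by
    ext t
    show f t * (g t / f t) = g t
    exact mul_div_cancel₀ (g t) (hf t).ne'
  have key := hONE K W hWV hWH hW0 hWU h hh
  have e : V (f * (1 + h)) = V (f * 1) + V (f * h) := key
  rw [mul_add, mul_one, hfh] at e
  exact e

end ADCM

open ADCM in
theorem specADC (hONE : SpecONE) : SpecADC := by
  intro K _ _ V hV hH h0 hU f g hf hg
  have hlim : ∀ ε : ℝ, 0 < ε → |V (f + g) - (V f + V g)| ≤ 2 * ε := by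
    intro ε hε
    obtain ⟨δ, hδ, hδ'⟩ := hU (‖f‖ + ‖g‖ + 1) ε (by positivity) hε
    set s : ℝ := min 1 (δ / 2) with hs
    have hs0 : 0 < s := by rw [hs]; positivity
    have hs1 : s ≤ 1 := min_le_left _ _
    have hsδ : s < δ := (min_le_right _ _).trans_lt (by linarith)
    set k : C(K, ℝ) := ContinuousMap.const K s with hk
    have hk0 : 0 ≤ k := fun t => hs0.le
    have hkn : ‖k‖ ≤ s := by
      rw [ContinuousMap.norm_le _ hs0.le]
      intro t
      show ‖s‖ ≤ s
      rw [Real.norm_eq_abs, abs_of_pos hs0]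
    have hp := pos hONE hV hH h0 hU (f + k) g (fun t => add_pos_of_nonneg_of_pos (hf t) hs0) hg
    have hfk : ‖f + k‖ ≤ ‖f‖ + ‖g‖ + 1 := by
      have := norm_add_le f k
      have := norm_nonneg g
      linarith
    have hfgk : ‖f + k + g‖ ≤ ‖f‖ + ‖g‖ + 1 := by
      have := norm_add_le (f + k) g
      have := norm_add_le f k
      linarith
    have hfg : ‖f + g‖ ≤ ‖f‖ + ‖g‖ + 1 := by
      have := norm_add_le f g
      linarith
    have hf' : ‖f‖ ≤ ‖f‖ + ‖g‖ + 1 := by
      have := norm_nonneg g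
      linarith
    have h1 : |V (f + k) - V f| ≤ ε := by
      apply hδ' _ _ (add_nonneg hf hk0) hf hfk hf'
      rw [add_sub_cancel_left]
      exact hkn.trans_lt hsδ
    have h2 : |V (f + k + g) - V (f + g)| ≤ ε := by
      apply hδ' _ _ (add_nonneg (add_nonneg hf hk0) hg) (add_nonneg hf hg) hfgk hfg
      have : f + k + g - (f + g) = k := by abel
      rw [this]
      exact hkn.trans_lt hsδ
    rw [abs_le] at h1 h2 ⊢
    constructor <;> linarith [h1.1, h1.2, h2.1, h2.2]
  have hz : |V (f + g) - (V f + V g)| ≤ 0 := by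
    refine le_of_forall_pos_le_add fun ε hε => ?_
    have := hlim (ε / 2) (by linarith)
    linarith
  have := abs_nonpos_iff.1 hz
  linarith

end Pool.Agent.Lib.MP5bcdfb.HM
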