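import Pool.Agent.Lib.MP_5bcdfb_an.HM.Spec

/-! CNV: the converse (MP_5bcdfb_an). -/

set_option autoImplicit false

namespace Pool.Agent.Lib.MP5bcdfb.HM

open Set TopologicalSpace Filter Topology
open Pool.Agent.Lib.MP5bcdfb.TS (IsVal ContAt UCB)

theorem specCNV : SpecCNV := by
  intro K _ _ V p hp L hV m ε hm hε
  have hL : 0 < ‖L‖ + 1 := by positivity
  have hε' : 0 < ε / (‖L‖ + 1) := by positivity
  have huc : UniformContinuousOn (fun x : ℝ => x ^ p) (Icc 0 m) :=
    isCompact_Icc.uniformContinuousOn_of_continuous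
      (Real.continuous_rpow_const hp.le).continuousOn
  obtain ⟨δ, hδ, h⟩ := Metric.uniformContinuousOn_iff.1 huc _ hε'
  refine ⟨δ, hδ, ?_⟩
  intro f g hf hg hfm hgm hfg
  let F : C(K, ℝ) → C(K, ℝ) := fun u =>
    ⟨fun t => u t ^ p, (Real.continuous_rpow_const hp.le).comp u.continuous⟩
  rw [hV f (F f) hf (fun t => rfl), hV g (F g) hg (fun t => rfl), ← map_sub]
  have hn : ‖F f - F g‖ ≤ ε / (‖L‖ + 1) := by
    rw [ContinuousMap.norm_le _ hε'.le]
    intro t
    have hft : f t ∈ Icc (0 : ℝ) m := by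
      refine ⟨hf t, ?_⟩
      have h1 := f.norm_coe_le_norm t
      rw [Real.norm_eq_abs] at h1
      linarith [le_abs_self (f t)]
    have hgt : g t ∈ Icc (0 : ℝ) m := by
      refine ⟨hg t, ?_⟩
      have h1 := g.norm_coe_le_norm t
      rw [Real.norm_eq_abs] at h1
      linarith [le_abs_self (g t)]
    have hd : dist (f t) (g t) < δ := by
      have h1 := (f - g).norm_coe_le_norm t
      rw [Real.dist_eq]
      rw [Real.norm_eq_abs, ContinuousMap.sub_apply] at h1
      linarith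
    have h2 := h _ hft _ hgt hd
    rw [Real.dist_eq] at h2
    exact h2.le
  have h3 : |L (F f - F g)| ≤ ‖L‖ * ‖F f - F g‖ := by
    have := L.le_opNorm (F f - F g)
    rwa [Real.norm_eq_abs] at this
  calc |L (F f - F g)| ≤ ‖L‖ * ‖F f - F g‖ := h3
    _ ≤ (‖L‖ + 1) * (ε / (‖L‖ + 1)) := by
        apply mul_le_mul _ hn (norm_nonneg _) hL.le
        linarith
    _ = ε := by field_simp

end Pool.Agent.Lib.MP5bcdfb.HM
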