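import Pool.Agent.Lib.MP_5bcdfb_an.HM.Spec

/-!
# DIS: sums of local increments
-/

set_option autoImplicit false

namespace Pool.Agent.Lib.MP5bcdfb.HM

open Set TopologicalSpace Filter Topology
open Pool.Agent.Lib.MP5bcdfb.TS (IsVal ContAt UCB)

namespace DISM

variable {K : Type} [TopologicalSpace K] {V : C(K, ℝ) → ℝ}

theorem half (hV : IsVal V) (u m D : C(K, ℝ)) (hm : 0 ≤ m) (hD : 0 ≤ D) (hmu : m ≤ u)
    (h : ∀ t, m t = u t ∨ u t ≤ D t) : V u - V m = V (u ⊓ D) - V (m ⊓ D) := by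
  refine TS.specLOC K V hV m u (m ⊓ D) (u ⊓ D) hm (le_inf hm hD) hmu (inf_le_inf_right D hmu) ?_
  intro t
  have h1 : m t ≤ u t := hmu t
  simp only [ContinuousMap.inf_apply]
  rcases h t with h2 | h2
  · right
    rw [h2]
    exact ⟨rfl, rfl⟩
  · left
    rw [inf_eq_left.2 h2, inf_eq_left.2 (h1.trans h2)]
    exact ⟨rfl, rfl⟩

theorem loc (hV : IsVal V) (b u v D : C(K, ℝ)) (hb : 0 ≤ b) (hu : b ≤ u) (hv : b ≤ v) (hD : b ≤ D)
    (h : ∀ t, u t = v t ∨ (u t ≤ D t ∧ v t ≤ D t)) : V u - V v = V (u ⊓ D) - V (v ⊓ D) := by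
  have hm : 0 ≤ u ⊓ v := hb.trans (le_inf hu hv)
  have h1 := half hV u (u ⊓ v) D hm (hb.trans hD) inf_le_left (fun t => by
    rcases h t with e | e
    · left
      rw [ContinuousMap.inf_apply, e, inf_idem]
    · exact Or.inr e.1)
  have h2 := half hV v (u ⊓ v) D hm (hb.trans hD) inf_le_right (fun t => by
    rcases h t with e | e
    · left
      rw [ContinuousMap.inf_apply, e, inf_idem]
    · exact Or.inr e.2)
  linarith

/-- the supremum of functions with disjoint supports over `b` -/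
theorem sup_fin (hV : IsVal V) {b : C(K, ℝ)} (hb : 0 ≤ b) (w : ℕ → C(K, ℝ)) (T : ℝ)
    (hbT : ∀ t, b t ≤ T) (E : Finset ℕ) : (∀ i ∈ E, b ≤ w i) → (∀ i ∈ E, ∀ t, w i t ≤ T) →
    (∀ i ∈ E, ∀ j ∈ E, i ≠ j → ∀ t, w i t ≤ b t ∨ w j t ≤ b t) →
    ∃ x : C(K, ℝ), b ≤ x ∧ (∀ t, x t ≤ T) ∧ (∀ t, (∀ i ∈ E, w i t ≤ b t) → x t ≤ b t) ∧
      V x - V b = ∑ i ∈ E, (V (w i) - V b) := by
  classical
  induction E using Finset.induction_on with
  | empty =>
    intro _ _ _
    exact ⟨b, le_rfl, hbT, fun t _ => le_rfl, by rw [Finset.sum_empty, sub_self]⟩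
  | insert a E ha ih =>
    intro h1 h2 h3
    obtain ⟨x, x1, x2, x3, x4⟩ := ih (fun i hi => h1 i (Finset.mem_insert_of_mem hi))
      (fun i hi => h2 i (Finset.mem_insert_of_mem hi))
      (fun i hi j hj => h3 i (Finset.mem_insert_of_mem hi) j (Finset.mem_insert_of_mem hj))
    have hba := h1 a (Finset.mem_insert_self a E)
    have hinf : x ⊓ w a = b := by
      apply le_antisymm
      · intro t
        show x t ⊓ w a t ≤ b t
        by_cases hw : w a t ≤ b t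
        · exact inf_le_right.trans hw
        · refine inf_le_left.trans (x3 t fun i hi => ?_)
          have hne : a ≠ i := fun h => ha (h ▸ hi)
          exact (h3 a (Finset.mem_insert_self a E) i (Finset.mem_insert_of_mem hi) hne t).resolve_left hw
      · exact le_inf x1 hba
    have hval := hV x (w a) (hb.trans x1) (hb.trans hba)
    rw [hinf] at hval
    refine ⟨x ⊔ w a, x1.trans le_sup_left, fun t => ?_, fun t ht => ?_, ?_⟩
    · rw [ContinuousMap.sup_apply]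
      exact sup_le (x2 t) (h2 a (Finset.mem_insert_self a E) t)
    · rw [ContinuousMap.sup_apply]
      exact sup_le (x3 t fun i hi => ht i (Finset.mem_insert_of_mem hi))
        (ht a (Finset.mem_insert_self a E))
    · rw [Finset.sum_insert ha, ← x4]
      linarith

theorem part (hV : IsVal V) {b : C(K, ℝ)} {T η : ℝ} {s : Finset ℕ} {u v D : ℕ → C(K, ℝ)}
    (hb : 0 ≤ b) (hbT : ∀ t, b t ≤ T) (h1 : ∀ i ∈ s, b ≤ u i ∧ b ≤ v i ∧ b ≤ D i)
    (h2 : ∀ i ∈ s, ∀ t, u i t ≤ T ∧ v i t ≤ T)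
    (h3 : ∀ i ∈ s, ∀ t, u i t = v i t ∨ (u i t ≤ D i t ∧ v i t ≤ D i t))
    (h4 : ∀ i ∈ s, ∀ j ∈ s, i ≠ j → ∀ t, (min (u i t) (D i t) ≤ b t ∧ min (v i t) (D i t) ≤ b t) ∨
      (min (u j t) (D j t) ≤ b t ∧ min (v j t) (D j t) ≤ b t))
    (h5 : ∀ x : C(K, ℝ), b ≤ x → (∀ t, x t ≤ T) → |V x - V b| ≤ η) (E : Finset ℕ) (hE : E ⊆ s) :
    |∑ i ∈ E, (V (u i) - V (v i))| ≤ 2 * η := by
  obtain ⟨x, x1, x2, _, x4⟩ := sup_fin hV hb (fun i => u i ⊓ D i) T hbT E
    (fun i hi => le_inf (h1 i (hE hi)).1 (h1 i (hE hi)).2.2)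
    (fun i hi t => by
      rw [ContinuousMap.inf_apply]
      exact inf_le_left.trans (h2 i (hE hi) t).1)
    (fun i hi j hj hij t => by
      rw [ContinuousMap.inf_apply, ContinuousMap.inf_apply]
      rcases h4 i (hE hi) j (hE hj) hij t with h | h
      · exact Or.inl h.1
      · exact Or.inr h.1)
  obtain ⟨z, z1, z2, _, z4⟩ := sup_fin hV hb (fun i => v i ⊓ D i) T hbT E
    (fun i hi => le_inf (h1 i (hE hi)).2.1 (h1 i (hE hi)).2.2)
    (fun i hi t => by
      rw [ContinuousMap.inf_apply]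
      exact inf_le_left.trans (h2 i (hE hi) t).2)
    (fun i hi j hj hij t => by
      rw [ContinuousMap.inf_apply, ContinuousMap.inf_apply]
      rcases h4 i (hE hi) j (hE hj) hij t with h | h
      · exact Or.inl h.2
      · exact Or.inr h.2)
  have hsum : ∑ i ∈ E, (V (u i) - V (v i)) = (V x - V b) - (V z - V b) := by
    rw [x4, z4, ← Finset.sum_sub_distrib]
    refine Finset.sum_congr rfl fun i hi => ?_
    have := loc hV b (u i) (v i) (D i) hb (h1 i (hE hi)).1 (h1 i (hE hi)).2.1 (h1 i (hE hi)).2.2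
      (h3 i (hE hi))
    linarith
  rw [hsum]
  have e1 := h5 x x1 x2
  have e2 := h5 z z1 z2
  rw [abs_le] at e1 e2 ⊢
  constructor <;> linarith [e1.1, e1.2, e2.1, e2.2]

end DISM

theorem specDIS : SpecDIS := by
  intro K _ V hV b T η s u v D hb hbT h1 h2 h3 h4 h5
  have key := DISM.part hV hb hbT h1 h2 h3 h4 h5
  have e1 := key (s.filter fun i => 0 ≤ V (u i) - V (v i)) (Finset.filter_subset _ _)
  have e2 := key (s.filter fun i => ¬ 0 ≤ V (u i) - V (v i)) (Finset.filter_subset _ _)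
  rw [← Finset.sum_filter_add_sum_filter_not s (fun i => 0 ≤ V (u i) - V (v i))]
  have f1 : ∑ i ∈ s.filter (fun i => 0 ≤ V (u i) - V (v i)), |V (u i) - V (v i)|
      = ∑ i ∈ s.filter (fun i => 0 ≤ V (u i) - V (v i)), (V (u i) - V (v i)) :=
    Finset.sum_congr rfl fun i hi => abs_of_nonneg (Finset.mem_filter.1 hi).2
  have f2 : ∑ i ∈ s.filter (fun i => ¬ 0 ≤ V (u i) - V (v i)), |V (u i) - V (v i)|
      = -∑ i ∈ s.filter (fun i => ¬ 0 ≤ V (u i) - V (v i)), (V (u i) - V (v i)) := by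
    rw [← Finset.sum_neg_distrib]
    exact Finset.sum_congr rfl fun i hi => abs_of_neg (not_le.1 (Finset.mem_filter.1 hi).2)
  rw [f1, f2]
  rw [abs_le] at e1 e2
  linarith [e1.1, e1.2, e2.1, e2.2]

end Pool.Agent.Lib.MP5bcdfb.HM
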