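import Mathlib

/-!
# MP_5bcdfb: definitions for the theorem on homogeneous valuations

`C(K)^+` are the nonnegative continuous functions on a compact space `K` (for the sphere: the radial functions of the star bodies).
-/

set_option autoImplicit false

namespace Pool.Agent.Lib.MP5bcdfb.HV

open MeasureTheory

/-- `V` is a valuation on `C(K)^+` -/
def Val {K : Type} [TopologicalSpace K] {X : Type} [NormedAddCommGroup X] (V : C(K, ℝ) → X) : Prop :=
  ∀ f g : C(K, ℝ), 0 ≤ f → 0 ≤ g → V f + V g = V (f ⊔ g) + V (f ⊓ g)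

/-- `V` is homogeneous of degree `p` on `C(K)^+` -/
def Hom {K : Type} [TopologicalSpace K] {X : Type} [NormedAddCommGroup X] [NormedSpace ℝ X] (p : ℝ) (V : C(K, ℝ) → X) : Prop :=
  ∀ (r : ℝ) (f : C(K, ℝ)), 0 < r → 0 ≤ f → V (r • f) = (r ^ p : ℝ) • V f

/-- `V` is continuous at `f`, as a function on `C(K)^+` with the sup norm -/
def ContAt {K : Type} [TopologicalSpace K] [CompactSpace K] {X : Type} [NormedAddCommGroup X] (V : C(K, ℝ) → X)
    (f : C(K, ℝ)) : Prop :=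
  ∀ ε : ℝ, 0 < ε → ∃ r : ℝ, 0 < r ∧ ∀ g : C(K, ℝ), 0 ≤ g → ‖g - f‖ < r → ‖V g - V f‖ < ε

/-- `V` is uniformly continuous on bounded sets of `C(K)^+` -/
def UCB {K : Type} [TopologicalSpace K] [CompactSpace K] {X : Type} [NormedAddCommGroup X] (V : C(K, ℝ) → X) : Prop :=
  ∀ m ε : ℝ, 0 < m → 0 < ε → ∃ δ : ℝ, 0 < δ ∧ ∀ f g : C(K, ℝ), 0 ≤ f → 0 ≤ g → ‖f‖ ≤ m → ‖g‖ ≤ m →
    ‖f - g‖ < δ → ‖V f - V g‖ ≤ ε

/-- `V` is continuous at `0` and at some strictly positive function `a` -/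
def TwoPoint {K : Type} [TopologicalSpace K] [CompactSpace K] {X : Type} [NormedAddCommGroup X] (V : C(K, ℝ) → X) : Prop :=
  ContAt V 0 ∧ ∃ a : C(K, ℝ), (∀ t, 0 < a t) ∧ ContAt V a

/-- `V f = L (f ^ p)` for `f ≥ 0`, with a bounded linear map `L` on `C(K)` -/
def PowLin {K : Type} [TopologicalSpace K] [CompactSpace K] {X : Type} [NormedAddCommGroup X] [NormedSpace ℝ X] (p : ℝ)
    (V : C(K, ℝ) → X) : Prop :=
  ∃ L : C(K, ℝ) →L[ℝ] X, ∀ f g : C(K, ℝ), 0 ≤ f → (∀ t, g t = f t ^ p) → V f = L g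

/-- `V` is continuous at `0`, but at no strictly positive function -/
def OnlyZero {K : Type} [TopologicalSpace K] [CompactSpace K] (V : C(K, ℝ) → ℝ) : Prop :=
  ContAt V 0 ∧ ∀ a : C(K, ℝ), (∀ t, 0 < a t) → ¬ ContAt V a

/-- `V` is continuous at every strictly positive function, but not at `0` -/
def NotZero {K : Type} [TopologicalSpace K] [CompactSpace K] (V : C(K, ℝ) → ℝ) : Prop :=
  (∀ a : C(K, ℝ), (∀ t, 0 < a t) → ContAt V a) ∧ ¬ ContAt V 0

/-- the unit sphere `S^(n-1)` of `ℝ^n` -/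
def Sph (n : ℕ) : Type := Metric.sphere (0 : EuclideanSpace ℝ (Fin n)) 1

/-- with its usual topology -/
instance sphTop (n : ℕ) : TopologicalSpace (Sph n) :=
  instTopologicalSpaceSubtype (p := fun x : EuclideanSpace ℝ (Fin n) => x ∈ Metric.sphere (0 : EuclideanSpace ℝ (Fin n)) 1)

instance sphCompact (n : ℕ) : CompactSpace (Sph n) :=
  Metric.sphere.compactSpace (0 : EuclideanSpace ℝ (Fin n)) 1

/-- `V` is invariant under the orthogonal group: `V (f ∘ R) = V f` -/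
def RotInv {n : ℕ} {X : Type} (V : C(Sph n, ℝ) → X) : Prop :=
  ∀ (R : EuclideanSpace ℝ (Fin n) ≃ₗᵢ[ℝ] EuclideanSpace ℝ (Fin n)) (f h : C(Sph n, ℝ)), 0 ≤ f →
    (∀ x y : Sph n, y.1 = R x.1 → h x = f y) → V h = V f

/-- the integral over `S^(n-1)` with respect to the surface measure -/
noncomputable def mean {n : ℕ} (f : C(Sph n, ℝ)) : ℝ :=
  ∫ x : Metric.sphere (0 : EuclideanSpace ℝ (Fin n)) 1, f x ∂((volume : Measure (EuclideanSpace ℝ (Fin n))).toSphere)

/-- `V f` is a constant `c ∈ X` times the integral of `f ^ p`, for `f ≥ 0` -/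
def PowMean {n : ℕ} {X : Type} [NormedAddCommGroup X] [NormedSpace ℝ X] (p : ℝ) (V : C(Sph n, ℝ) → X) : Prop :=
  ∃ c : X, ∀ f g : C(Sph n, ℝ), 0 ≤ f → (∀ t, g t = f t ^ p) → V f = mean g • c

end Pool.Agent.Lib.MP5bcdfb.HV
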