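import Pool.Agent.Lib.MP_5bcdfb_an.HM.Spec

/-!
# MP_5bcdfb, HM: module EX1 (homogeneous, continuous at 0, not continuous at 1)
-/

set_option autoImplicit false

namespace Pool.Agent.Lib.MP5bcdfb.HM

open Set TopologicalSpace Filter Topology
open Pool.Agent.Lib.MP5bcdfb.TS (IsVal ContAt UCB)

noncomputable section

namespace EX1M

variable {K : Type} [MetricSpace K]

/-- the condition -/
def Cd (U : Ultrafilter K) (t₀ : K) (f : C(K, ℝ)) : Prop :=
  ∀ᶠ x in (U : Filter K), (1 + dist x t₀) * f t₀ ≤ f x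

open Classical in
/-- the valuation -/
def W (U : Ultrafilter K) (t₀ : K) (p : ℝ) (f : C(K, ℝ)) : ℝ :=
  if Cd U t₀ f then (f t₀) ^ p else 0

theorem W_congr (U : Ultrafilter K) (t₀ : K) (p : ℝ) (f g : C(K, ℝ)) (h0 : f t₀ = g t₀)
    (h : Cd U t₀ f ↔ Cd U t₀ g) : W U t₀ p f = W U t₀ p g := by
  unfold W
  by_cases hc : Cd U t₀ g
  · rw [if_pos (h.2 hc), if_pos hc, h0]
  · rw [if_neg (fun hf => hc (h.1 hf)), if_neg hc]

theorem lt_case (U : Ultrafilter K) (t₀ : K) (hU : (U : Filter K) ≤ 𝓝[≠] t₀) (p : ℝ)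
    (f g : C(K, ℝ)) (h : f t₀ < g t₀) :
    W U t₀ p f + W U t₀ p g = W U t₀ p (f ⊔ g) + W U t₀ p (f ⊓ g) := by
  have hlt : ∀ᶠ x in 𝓝 t₀, f x < g x :=
    f.continuous.continuousAt.eventually_lt g.continuous.continuousAt h
  have hlt' : ∀ᶠ x in (U : Filter K), f x < g x :=
    hlt.filter_mono (hU.trans nhdsWithin_le_nhds)
  have e1 : W U t₀ p (f ⊔ g) = W U t₀ p g := by
    have h0 : (f ⊔ g) t₀ = g t₀ := by
      rw [ContinuousMap.sup_apply]
      exact max_eq_right h.le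
    refine W_congr U t₀ p _ _ h0 ?_
    unfold Cd
    apply Filter.eventually_congr
    filter_upwards [hlt'] with x hx
    rw [h0, ContinuousMap.sup_apply, max_eq_right hx.le]
  have e2 : W U t₀ p (f ⊓ g) = W U t₀ p f := by
    have h0 : (f ⊓ g) t₀ = f t₀ := by
      rw [ContinuousMap.inf_apply]
      exact min_eq_left h.le
    refine W_congr U t₀ p _ _ h0 ?_
    unfold Cd
    apply Filter.eventually_congr
    filter_upwards [hlt'] with x hx
    rw [h0, ContinuousMap.inf_apply, min_eq_left hx.le]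
  rw [e1, e2, add_comm]

theorem eq_case (U : Ultrafilter K) (t₀ : K) (p : ℝ) (f g : C(K, ℝ)) (h : f t₀ = g t₀) :
    W U t₀ p f + W U t₀ p g = W U t₀ p (f ⊔ g) + W U t₀ p (f ⊓ g) := by
  have h1 : (f ⊔ g) t₀ = g t₀ := by
    rw [ContinuousMap.sup_apply, h]
    exact max_self _
  have h2 : (f ⊓ g) t₀ = g t₀ := by
    rw [ContinuousMap.inf_apply, h]
    exact min_self _
  have c1 : Cd U t₀ (f ⊔ g) ↔ (Cd U t₀ f ∨ Cd U t₀ g) := by
    unfold Cd
    rw [← Ultrafilter.eventually_or]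
    apply Filter.eventually_congr
    filter_upwards with x
    rw [h1, h, ContinuousMap.sup_apply]
    exact le_max_iff
  have c2 : Cd U t₀ (f ⊓ g) ↔ (Cd U t₀ f ∧ Cd U t₀ g) := by
    unfold Cd
    rw [← Filter.eventually_and]
    apply Filter.eventually_congr
    filter_upwards with x
    rw [h2, h, ContinuousMap.inf_apply]
    exact le_min_iff
  unfold W
  rw [h1, h2, h]
  by_cases hf : Cd U t₀ f <;> by_cases hg : Cd U t₀ g
  · rw [if_pos hf, if_pos hg, if_pos (c1.2 (Or.inl hf)), if_pos (c2.2 ⟨hf, hg⟩)]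
  · rw [if_pos hf, if_neg hg, if_pos (c1.2 (Or.inl hf)), if_neg (fun hh => hg (c2.1 hh).2)]
  · rw [if_neg hf, if_pos hg, if_pos (c1.2 (Or.inr hg)), if_neg (fun hh => hf (c2.1 hh).1),
      add_comm]
  · rw [if_neg hf, if_neg hg, if_neg (fun hh => (c1.1 hh).elim hf hg),
      if_neg (fun hh => hf (c2.1 hh).1)]

theorem isVal (U : Ultrafilter K) (t₀ : K) (hU : (U : Filter K) ≤ 𝓝[≠] t₀) (p : ℝ) :
    IsVal (W U t₀ p) := by
  intro f g _ _
  rcases lt_trichotomy (f t₀) (g t₀) with h | h | h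
  · exact lt_case U t₀ hU p f g h
  · exact eq_case U t₀ p f g h
  · have := lt_case U t₀ hU p g f h
    rw [add_comm, this, sup_comm, inf_comm]

theorem hom (U : Ultrafilter K) (t₀ : K) (p : ℝ) : Hom p (W U t₀ p) := by
  intro r f hr hf
  have h0 : (r • f) t₀ = r * f t₀ := rfl
  have hc : Cd U t₀ (r • f) ↔ Cd U t₀ f := by
    unfold Cd
    apply Filter.eventually_congr
    filter_upwards with x
    have h1 : (r • f) x = r * f x := rfl
    rw [h0, h1, mul_left_comm]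
    exact mul_le_mul_iff_right₀ hr
  unfold W
  by_cases hh : Cd U t₀ f
  · have h3 : (0 : ℝ) ≤ f t₀ := hf t₀
    rw [if_pos (hc.2 hh), if_pos hh, h0, Real.mul_rpow hr.le h3]
  · rw [if_neg (fun h => hh (hc.1 h)), if_neg hh, mul_zero]

theorem W_bound [CompactSpace K] (U : Ultrafilter K) (t₀ : K) (p : ℝ) (hp : 0 < p) (f : C(K, ℝ))
    (hf : 0 ≤ f) : |W U t₀ p f| ≤ ‖f‖ ^ p := by
  have h0 : 0 ≤ f t₀ := hf t₀
  unfold W
  split_ifs
  · rw [abs_of_nonneg (Real.rpow_nonneg h0 p)]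
    refine Real.rpow_le_rpow h0 ?_ hp.le
    exact (le_abs_self _).trans (f.norm_coe_le_norm t₀)
  · rw [abs_zero]
    exact Real.rpow_nonneg (norm_nonneg _) p

theorem W_zero (U : Ultrafilter K) (t₀ : K) (p : ℝ) (hp : 0 < p) : W U t₀ p 0 = 0 := by
  unfold W
  split_ifs
  · rw [ContinuousMap.zero_apply, Real.zero_rpow hp.ne']
  · rfl

theorem contAt_zero [CompactSpace K] (U : Ultrafilter K) (t₀ : K) (p : ℝ) (hp : 0 < p) :
    ContAt (W U t₀ p) 0 := by
  intro ε hε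
  refine ⟨ε ^ (1 / p), Real.rpow_pos_of_pos hε _, fun g hg hlt => ?_⟩
  rw [sub_zero] at hlt
  rw [W_zero U t₀ p hp, sub_zero]
  refine lt_of_le_of_lt (W_bound U t₀ p hp g hg) ?_
  have h := Real.rpow_lt_rpow (norm_nonneg g) hlt hp
  rwa [← Real.rpow_mul hε.le, one_div, inv_mul_cancel₀ hp.ne', Real.rpow_one] at h

theorem W_one (U : Ultrafilter K) (t₀ : K) (hU : (U : Filter K) ≤ 𝓝[≠] t₀) (p : ℝ) :
    W U t₀ p 1 = 0 := by
  unfold W
  rw [if_neg]
  intro h
  have hne : ∀ᶠ x in (U : Filter K), x ≠ t₀ := by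
    refine Filter.Eventually.filter_mono hU ?_
    exact self_mem_nhdsWithin
  obtain ⟨x, hx, hx'⟩ := (Filter.Eventually.and h hne).exists
  rw [ContinuousMap.one_apply, ContinuousMap.one_apply, mul_one] at hx
  have : 0 < dist x t₀ := dist_pos.2 hx'
  linarith

/-- the perturbation of 1 -/
def bump (t₀ : K) (s : ℝ) : C(K, ℝ) :=
  ⟨fun x => 1 + min s (dist x t₀), by fun_prop⟩

theorem W_bump (U : Ultrafilter K) (t₀ : K) (hU : (U : Filter K) ≤ 𝓝[≠] t₀) (p s : ℝ)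
    (hs : 0 < s) : W U t₀ p (bump t₀ s) = 1 := by
  have h0 : bump t₀ s t₀ = 1 := by
    show 1 + min s (dist t₀ t₀) = 1
    rw [dist_self, min_eq_right hs.le, add_zero]
  have hc : Cd U t₀ (bump t₀ s) := by
    unfold Cd
    have hb : ∀ᶠ x in 𝓝 t₀, dist x t₀ < s := Metric.ball_mem_nhds t₀ hs
    have hb' : ∀ᶠ x in (U : Filter K), dist x t₀ < s :=
      hb.filter_mono (hU.trans nhdsWithin_le_nhds)
    filter_upwards [hb'] with x hx
    rw [h0, mul_one]
    show 1 + dist x t₀ ≤ 1 + min s (dist x t₀)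
    rw [min_eq_right hx.le]
  unfold W
  rw [if_pos hc, h0, Real.one_rpow]

theorem not_contAt_one [CompactSpace K] (U : Ultrafilter K) (t₀ : K)
    (hU : (U : Filter K) ≤ 𝓝[≠] t₀) (p : ℝ) : ¬ ContAt (W U t₀ p) 1 := by
  intro h
  obtain ⟨r, hr, hh⟩ := h 1 one_pos
  have hs : 0 < r / 2 := half_pos hr
  have hnn : (0 : C(K, ℝ)) ≤ bump t₀ (r / 2) := by
    intro x
    show (0 : ℝ) ≤ 1 + min (r / 2) (dist x t₀)
    have : 0 ≤ min (r / 2) (dist x t₀) := le_min hs.le dist_nonneg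
    linarith
  have hn : ‖bump t₀ (r / 2) - 1‖ < r := by
    refine lt_of_le_of_lt ?_ (half_lt_self hr)
    rw [ContinuousMap.norm_le _ hs.le]
    intro x
    have h1 : (bump t₀ (r / 2) - 1) x = min (r / 2) (dist x t₀) := by
      show (1 + min (r / 2) (dist x t₀)) - 1 = _
      ring
    rw [h1, Real.norm_eq_abs, abs_of_nonneg (le_min hs.le dist_nonneg)]
    exact min_le_left _ _
  have h2 := hh _ hnn hn
  rw [W_bump U t₀ hU p _ hs, W_one U t₀ hU p, sub_zero, abs_one] at h2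
  exact lt_irrefl _ h2

end EX1M

open EX1M in
theorem specEX1 : SpecEX1 := by
  intro K _ _ t₀ hne p hp
  have hU : ((Ultrafilter.of (𝓝[≠] t₀) : Ultrafilter K) : Filter K) ≤ 𝓝[≠] t₀ :=
    Ultrafilter.of_le _
  exact ⟨W (Ultrafilter.of (𝓝[≠] t₀)) t₀ p, isVal _ t₀ hU p, hom _ t₀ p, contAt_zero _ t₀ p hp,
    not_contAt_one _ t₀ hU p⟩

end

end Pool.Agent.Lib.MP5bcdfb.HM
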