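import Pool.Agent.Lib.MP_5bcdfb_an.HM.Spec

/-! # Module EX2: homogeneous, continuous at all positive functions, not continuous at `0` -/

set_option autoImplicit false

namespace Pool.Agent.Lib.MP5bcdfb.HM

open Set TopologicalSpace Filter Topology
open scoped Pointwise
open Pool.Agent.Lib.MP5bcdfb.TS (IsVal ContAt UCB)

namespace EX2M

noncomputable section

variable {K : Type} [MetricSpace K] [CompactSpace K]

/-- the set of slopes -/
def S (U : Ultrafilter K) (t₀ : K) (f : C(K, ℝ)) : Set ℝ :=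
  {c : ℝ | 0 ≤ c ∧ ∀ᶠ x in (U : Filter K), c * dist x t₀ ≤ f x}

/-- the valuation -/
def W (U : Ultrafilter K) (t₀ : K) (p : ℝ) (f : C(K, ℝ)) : ℝ := (sSup (S U t₀ f)) ^ p

omit [CompactSpace K] in
theorem S_sup (U : Ultrafilter K) (t₀ : K) (f g : C(K, ℝ)) :
    S U t₀ (f ⊔ g) = S U t₀ f ∪ S U t₀ g := by
  ext c
  simp only [S, Set.mem_ofPred_eq, mem_union, ContinuousMap.sup_apply, le_sup_iff,
    Ultrafilter.eventually_or]
  tauto

omit [CompactSpace K] in
theorem S_inf (U : Ultrafilter K) (t₀ : K) (f g : C(K, ℝ)) :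
    S U t₀ (f ⊓ g) = S U t₀ f ∩ S U t₀ g := by
  ext c
  simp only [S, Set.mem_ofPred_eq, mem_inter_iff, ContinuousMap.inf_apply, le_inf_iff,
    eventually_and]
  tauto

omit [CompactSpace K] in
theorem S_down (U : Ultrafilter K) (t₀ : K) (f : C(K, ℝ)) {c c' : ℝ} (hc : c ∈ S U t₀ f)
    (h0 : 0 ≤ c') (h1 : c' ≤ c) : c' ∈ S U t₀ f := by
  refine ⟨h0, hc.2.mono fun x hx => le_trans ?_ hx⟩
  exact mul_le_mul_of_nonneg_right h1 dist_nonneg

omit [CompactSpace K] in
theorem S_total (U : Ultrafilter K) (t₀ : K) (f g : C(K, ℝ)) :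
    S U t₀ f ⊆ S U t₀ g ∨ S U t₀ g ⊆ S U t₀ f := by
  by_contra h
  push Not at h
  obtain ⟨h1, h2⟩ := h
  obtain ⟨c, hc, hc'⟩ := not_subset.1 h1
  obtain ⟨d, hd, hd'⟩ := not_subset.1 h2
  rcases le_total c d with h3 | h3
  · exact hc' (S_down U t₀ g hd hc.1 h3)
  · exact hd' (S_down U t₀ f hc hd.1 h3)

omit [CompactSpace K] in
theorem isVal (U : Ultrafilter K) (t₀ : K) (p : ℝ) : IsVal (W U t₀ p) := by
  intro f g _ _
  unfold W
  rw [S_sup, S_inf]
  rcases S_total U t₀ f g with h | h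
  · rw [union_eq_right.2 h, inter_eq_left.2 h, add_comm]
  · rw [union_eq_left.2 h, inter_eq_right.2 h]

omit [CompactSpace K] in
theorem S_smul (U : Ultrafilter K) (t₀ : K) (f : C(K, ℝ)) {r : ℝ} (hr : 0 < r) :
    S U t₀ (r • f) = r • S U t₀ f := by
  ext c
  rw [mem_smul_set_iff_inv_smul_mem₀ hr.ne']
  simp only [S, Set.mem_ofPred_eq, ContinuousMap.smul_apply, smul_eq_mul]
  refine and_congr ?_ (eventually_congr (Eventually.of_forall fun x => ?_))
  · constructor
    · intro h; positivity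
    · intro h
      have := mul_nonneg hr.le h
      rwa [mul_inv_cancel_left₀ hr.ne'] at this
  · rw [mul_assoc, inv_mul_le_iff₀ hr]

omit [CompactSpace K] in
theorem hom (U : Ultrafilter K) (t₀ : K) (p : ℝ) : Hom p (W U t₀ p) := by
  intro r f hr _
  unfold W
  rw [S_smul U t₀ f hr, Real.sSup_smul_of_nonneg hr.le, smul_eq_mul,
    Real.mul_rpow hr.le (Real.sSup_nonneg fun c hc => hc.1)]

omit [CompactSpace K] in
theorem W_pos (U : Ultrafilter K) (t₀ : K) (hU : (U : Filter K) ≤ 𝓝[≠] t₀) {p : ℝ} (hp : 0 < p)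
    (f : C(K, ℝ)) (hf : 0 < f t₀) : W U t₀ p f = 0 := by
  have hS : S U t₀ f = Ici 0 := by
    ext c
    simp only [S, Set.mem_ofPred_eq, mem_Ici, and_iff_left_iff_imp]
    intro _
    refine hU (mem_nhdsWithin_of_mem_nhds ?_)
    have h1 : Tendsto (fun x => f x - c * dist x t₀) (𝓝 t₀) (𝓝 (f t₀ - c * dist t₀ t₀)) :=
      Continuous.tendsto (by fun_prop) t₀
    rw [dist_self, mul_zero, sub_zero] at h1
    have h2 : ∀ᶠ x in 𝓝 t₀, 0 < f x - c * dist x t₀ := h1.eventually (lt_mem_nhds hf)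
    exact h2.mono fun x hx => by linarith
  unfold W
  rw [hS, Real.sSup_of_not_bddAbove (not_bddAbove_Ici 0), Real.zero_rpow hp.ne']

end

end EX2M

open EX2M in
theorem specEX2 : SpecEX2 := by
  intro K _ _ t₀ hne p hp
  obtain ⟨U, hU⟩ : ∃ U : Ultrafilter K, (U : Filter K) ≤ 𝓝[≠] t₀ :=
    ⟨Ultrafilter.of (𝓝[≠] t₀), Ultrafilter.of_le _⟩
  refine ⟨W U t₀ p, isVal U t₀ p, hom U t₀ p, ?_, ?_⟩
  · intro f hf ε hε
    refine ⟨f t₀ / 2, half_pos (hf t₀), fun g _ hgf => ?_⟩
    have h1 : |g t₀ - f t₀| < f t₀ / 2 := by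
      have := ContinuousMap.norm_coe_le_norm (g - f) t₀
      rw [ContinuousMap.sub_apply, Real.norm_eq_abs] at this
      linarith
    have h2 := abs_lt.1 h1
    rw [W_pos U t₀ hU hp f (hf t₀), W_pos U t₀ hU hp g (by linarith [hf t₀])]
    simpa using hε
  · intro h
    obtain ⟨r, hr, h1⟩ := h 1 one_pos
    have hpos : ∀ᶠ x in (U : Filter K), 0 < dist x t₀ := by
      refine hU ?_
      filter_upwards [self_mem_nhdsWithin] with x hx
      exact dist_pos.2 hx
    let f : C(K, ℝ) := ⟨fun x => min (r / 2) (dist x t₀), by fun_prop⟩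
    have hf0 : 0 ≤ f := fun x => le_min (by positivity) dist_nonneg
    have hfn : ‖f - 0‖ < r := by
      rw [sub_zero]
      refine lt_of_le_of_lt ((ContinuousMap.norm_le f (by positivity : (0:ℝ) ≤ r / 2)).2 fun x => ?_)
        (half_lt_self hr)
      have hfx : 0 ≤ f x := hf0 x
      rw [Real.norm_eq_abs, abs_of_nonneg hfx]
      exact min_le_left _ _
    have hS0 : S U t₀ (0 : C(K, ℝ)) = {0} := by
      ext c
      simp only [S, Set.mem_ofPred_eq, mem_singleton_iff, ContinuousMap.zero_apply]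
      constructor
      · rintro ⟨h2, h3⟩
        obtain ⟨x, hx1, hx2⟩ := (h3.and hpos).exists
        refine le_antisymm ?_ h2
        by_contra h4
        push Not at h4
        have := mul_pos h4 hx2
        linarith
      · rintro rfl
        exact ⟨le_rfl, Eventually.of_forall fun x => by simp⟩
    have hSf : S U t₀ f = Icc 0 1 := by
      ext c
      simp only [S, Set.mem_ofPred_eq, mem_Icc]
      constructor
      · rintro ⟨h2, h3⟩
        obtain ⟨x, hx1, hx2⟩ := (h3.and hpos).exists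
        refine ⟨h2, ?_⟩
        have h4 : c * dist x t₀ ≤ 1 * dist x t₀ := by
          rw [one_mul]
          exact hx1.trans (min_le_right _ _)
        exact le_of_mul_le_mul_right h4 hx2
      · rintro ⟨h2, h3⟩
        refine ⟨h2, hU (mem_nhdsWithin_of_mem_nhds ?_)⟩
        have h5 : ∀ᶠ x in 𝓝 t₀, dist x t₀ < r / 2 := Metric.ball_mem_nhds t₀ (half_pos hr)
        filter_upwards [h5] with x hx
        show c * dist x t₀ ≤ min (r / 2) (dist x t₀)
        rw [min_eq_right hx.le]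
        exact mul_le_of_le_one_left dist_nonneg h3
    have h2 := h1 f hf0 hfn
    have h3 : W U t₀ p f = 1 := by
      unfold W
      rw [hSf, csSup_Icc zero_le_one, Real.one_rpow]
    have h4 : W U t₀ p 0 = 0 := by
      unfold W
      rw [hS0, csSup_singleton, Real.zero_rpow hp.ne']
    rw [h3, h4] at h2
    norm_num at h2

end Pool.Agent.Lib.MP5bcdfb.HM
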