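import Pool.Agent.Lib.MP_5bcdfb_an.HM.Spec

/-!
# MP_5bcdfb_an, hive HM: module EXL (extension to a linear functional)
-/

set_option autoImplicit false

namespace Pool.Agent.Lib.MP5bcdfb.HM

open Set TopologicalSpace Filter Topology
open Pool.Agent.Lib.MP5bcdfb.TS (IsVal ContAt UCB)

namespace EXLM

variable {K : Type} [TopologicalSpace K]

theorem key {V : C(K, ℝ) → ℝ} (hadd : ∀ f g : C(K, ℝ), 0 ≤ f → 0 ≤ g → V (f + g) = V f + V g)
    (f a b : C(K, ℝ)) (ha : 0 ≤ a) (hb : 0 ≤ b) (hf : f = a - b) :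
    V (f ⊔ 0) - V (-f ⊔ 0) = V a - V b := by
  have h1 : a + (-f ⊔ 0) = b + (f ⊔ 0) := by
    ext t
    simp only [hf, ContinuousMap.add_apply, ContinuousMap.sup_apply, ContinuousMap.neg_apply,
      ContinuousMap.sub_apply, ContinuousMap.zero_apply]
    rcases le_total (a t - b t) 0 with h | h
    · rw [sup_eq_left.2 (by linarith), sup_eq_right.2 h]; ring
    · rw [sup_eq_right.2 (by linarith), sup_eq_left.2 h]; ring
  have h2 := hadd a (-f ⊔ 0) ha le_sup_right
  have h3 := hadd b (f ⊔ 0) hb le_sup_right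
  rw [h1] at h2
  linarith

theorem dec (f : C(K, ℝ)) : f = (f ⊔ 0) - (-f ⊔ 0) := by
  ext t
  simp only [ContinuousMap.sup_apply, ContinuousMap.neg_apply,
    ContinuousMap.sub_apply, ContinuousMap.zero_apply]
  rcases le_total (f t) 0 with h | h
  · rw [sup_eq_left.2 (by linarith : (0 : ℝ) ≤ -f t), sup_eq_right.2 h]; ring
  · rw [sup_eq_right.2 (by linarith : -f t ≤ (0 : ℝ)), sup_eq_left.2 h]; ring

theorem norm_sup_le [CompactSpace K] (f : C(K, ℝ)) : ‖f ⊔ 0‖ ≤ ‖f‖ := by
  rw [ContinuousMap.norm_le _ (norm_nonneg _)]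
  intro t
  have h := ContinuousMap.norm_coe_le_norm f t
  rw [Real.norm_eq_abs] at h ⊢
  simp only [ContinuousMap.sup_apply, ContinuousMap.zero_apply]
  rcases le_total (f t) 0 with h' | h'
  · rw [sup_eq_right.2 h', abs_zero]; exact norm_nonneg _
  · rw [sup_eq_left.2 h']; exact h

end EXLM

open EXLM in
theorem specEXL : SpecEXL := by
  intro K _ _ V C hH hadd hb
  have hk := @key K _ V hadd
  let L : C(K, ℝ) →ₗ[ℝ] ℝ :=
    { toFun := fun f => V (f ⊔ 0) - V (-f ⊔ 0)
      map_add' := by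
        intro f g
        show V ((f + g) ⊔ 0) - V (-(f + g) ⊔ 0) =
          (V (f ⊔ 0) - V (-f ⊔ 0)) + (V (g ⊔ 0) - V (-g ⊔ 0))
        rw [hk (f + g) ((f ⊔ 0) + (g ⊔ 0)) ((-f ⊔ 0) + (-g ⊔ 0))
          (add_nonneg le_sup_right le_sup_right) (add_nonneg le_sup_right le_sup_right)
          (by
            have e1 := dec f
            have e2 := dec g
            calc f + g = ((f ⊔ 0) - (-f ⊔ 0)) + ((g ⊔ 0) - (-g ⊔ 0)) := by rw [← e1, ← e2]
              _ = _ := by abel),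
          hadd _ _ le_sup_right le_sup_right, hadd _ _ le_sup_right le_sup_right]
        ring
      map_smul' := by
        intro r f
        show V ((r • f) ⊔ 0) - V (-(r • f) ⊔ 0) = r • (V (f ⊔ 0) - V (-f ⊔ 0))
        rcases le_total 0 r with hr | hr
        · rw [hk (r • f) (r • (f ⊔ 0)) (r • (-f ⊔ 0)) (smul_nonneg hr le_sup_right)
            (smul_nonneg hr le_sup_right) (by rw [← smul_sub, ← dec f]),
            hH r _ hr le_sup_right, hH r _ hr le_sup_right, smul_eq_mul]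
          ring
        · have hr' : 0 ≤ -r := by linarith
          rw [hk (r • f) ((-r) • (-f ⊔ 0)) ((-r) • (f ⊔ 0)) (smul_nonneg hr' le_sup_right)
            (smul_nonneg hr' le_sup_right)
            (by rw [← smul_sub, neg_smul, ← smul_neg, neg_sub, ← dec f]),
            hH (-r) _ hr' le_sup_right, hH (-r) _ hr' le_sup_right, smul_eq_mul]
          ring }
  have hLf : ∀ f, L f = V (f ⊔ 0) - V (-f ⊔ 0) := fun f => rfl
  refine ⟨L.mkContinuous (2 * |C|) ?_, ?_⟩
  · intro f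
    rw [hLf, Real.norm_eq_abs]
    have h1 : |V (f ⊔ 0)| ≤ |C| * ‖f‖ := (hb _ le_sup_right).trans
      (mul_le_mul (le_abs_self C) (norm_sup_le f) (norm_nonneg _) (abs_nonneg C))
    have h2 : |V (-f ⊔ 0)| ≤ |C| * ‖f‖ := (hb _ le_sup_right).trans
      (mul_le_mul (le_abs_self C) ((norm_sup_le (-f)).trans_eq (norm_neg f)) (norm_nonneg _)
        (abs_nonneg C))
    calc |V (f ⊔ 0) - V (-f ⊔ 0)| ≤ |V (f ⊔ 0)| + |V (-f ⊔ 0)| := abs_sub _ _
      _ ≤ 2 * |C| * ‖f‖ := by linarith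
  · intro f hf
    have h0 : V 0 = 0 := by
      have := hH 0 0 le_rfl le_rfl
      rw [zero_smul, zero_mul] at this
      exact this
    have h1 := hk f f 0 hf le_rfl (by rw [sub_zero])
    rw [h0, sub_zero] at h1
    show V f = L f
    rw [hLf, h1]

end Pool.Agent.Lib.MP5bcdfb.HM
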