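import Pool.Agent.Lib.MP_5bcdfb_an.HM.SpecX
import Pool.Agent.Lib.MP_5bcdfb_an.HM.Fin

/-!
# MP_5bcdfb, HM: the vector valued theorem from the modules
-/

set_option autoImplicit false

namespace Pool.Agent.Lib.MP5bcdfb.HM

open Set TopologicalSpace Filter Topology
open Pool.Agent.Lib.MP5bcdfb.TS (IsVal ContAt UCB Sph sphere_neBot)
open Pool.Agent.Lib.MP5bcdfb.VV (ValX UCX)

theorem ucx_contAt {K : Type} [TopologicalSpace K] [CompactSpace K] {X : Type} [NormedAddCommGroup X]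
    {V : C(K, ℝ) → X} (h : UCX V) (f : C(K, ℝ)) (hf : 0 ≤ f) : ContAtX V f := by
  intro ε hε
  obtain ⟨δ, hδ, H⟩ := h (‖f‖ + 1) (ε / 2) (by positivity) (by positivity)
  refine ⟨min δ 1, lt_min hδ one_pos, fun g hg hgf => ?_⟩
  have h1 : ‖g - f‖ < δ := lt_of_lt_of_le hgf (min_le_left _ _)
  have h2 : ‖g - f‖ < 1 := lt_of_lt_of_le hgf (min_le_right _ _)
  have h3 : ‖g‖ ≤ ‖f‖ + 1 := by
    have := norm_le_norm_add_norm_sub' g f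
    linarith
  have := H g f hg hf h3 (by linarith) h1
  linarith

section main

variable (hXBD : SpecXBD) (hXUC : SpecXUC) (hXAD : SpecXAD) (hXEX : SpecXEX) (hXPW : SpecXPW) (hXCN : SpecXCN)
include hXBD hXUC hXAD hXEX hXPW

theorem reprX (K : Type) [TopologicalSpace K] [CompactSpace K] (X : Type) [NormedAddCommGroup X] [NormedSpace ℝ X]
    (p : ℝ) (V : C(K, ℝ) → X) (hp : 0 < p) (hV : ValX V) (hom : HomX p V)
    (h0 : ContAtX V 0) (a : C(K, ℝ)) (ha : ∀ t, 0 < a t) (hca : ContAtX V a) :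
    ∃ L : C(K, ℝ) →L[ℝ] X, ∀ f g : C(K, ℝ), 0 ≤ f → (∀ t, g t = f t ^ p) → V f = L g := by
  obtain ⟨W, w1, w2, w3, w4, w5⟩ := hXPW K X V p hp hV hom h0 a ha hca
  have wu : UCX W := hXUC K X W w1 w2 w3 w4
  obtain ⟨C, hC, hC1, -⟩ := hXBD K X W w1 w2 w3
  obtain ⟨L, hL⟩ := hXEX K X W C w2 (hXAD K X W w1 w2 w3 wu) hC1
  let c : C(K, ℝ) := ⟨fun t => (a t ^ p)⁻¹, by
    refine Continuous.inv₀ (Continuous.rpow_const a.continuous fun t => Or.inr hp.le) fun t => ?_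
    exact (Real.rpow_pos_of_pos (ha t) p).ne'⟩
  refine ⟨L.comp (ContinuousLinearMap.mul ℝ C(K, ℝ) c), fun f g hf hg => ?_⟩
  have e : ∀ t, (c * g) t = (f t / a t) ^ p := by
    intro t
    have hft : 0 ≤ f t := hf t
    change (a t ^ p)⁻¹ * g t = _
    rw [hg t, Real.div_rpow hft (ha t).le, div_eq_inv_mul]
  rw [w5 f (c * g) hf e, hL (c * g) ?_]
  · rfl
  · intro t
    have hft : 0 ≤ f t := hf t
    change (0 : ℝ) ≤ (c * g) t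
    rw [e t]
    exact Real.rpow_nonneg (div_nonneg hft (ha t).le) p

include hXCN

theorem mainX (K : Type) [TopologicalSpace K] [CompactSpace K] (X : Type) [NormedAddCommGroup X] [NormedSpace ℝ X]
    (p : ℝ) (V : C(K, ℝ) → X) (hp : 0 < p) (hV : ValX V) (hom : HomX p V) :
    ((ContAtX V 0 ∧ ∃ a : C(K, ℝ), (∀ t, 0 < a t) ∧ ContAtX V a) ↔
      ∃ L : C(K, ℝ) →L[ℝ] X, ∀ f g : C(K, ℝ), 0 ≤ f → (∀ t, g t = f t ^ p) → V f = L g) ∧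
    ((ContAtX V 0 ∧ ∃ a : C(K, ℝ), (∀ t, 0 < a t) ∧ ContAtX V a) → UCX V) := by
  have key : (ContAtX V 0 ∧ ∃ a : C(K, ℝ), (∀ t, 0 < a t) ∧ ContAtX V a) →
      ∃ L : C(K, ℝ) →L[ℝ] X, ∀ f g : C(K, ℝ), 0 ≤ f → (∀ t, g t = f t ^ p) → V f = L g := by
    rintro ⟨h0, a, ha, hca⟩
    exact reprX hXBD hXUC hXAD hXEX hXPW K X p V hp hV hom h0 a ha hca
  refine ⟨⟨key, ?_⟩, ?_⟩
  · rintro ⟨L, hL⟩
    have hu : UCX V := hXCN K X V p hp L hL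
    exact ⟨ucx_contAt hu 0 le_rfl, 1, fun t => one_pos, ucx_contAt hu 1 (fun t => zero_le_one)⟩
  · intro h
    obtain ⟨L, hL⟩ := key h
    exact hXCN K X V p hp L hL

theorem sph_ex1X (hEX1 : SpecEX1) (n : ℕ) (hn : 2 ≤ n) (p : ℝ) (hp : 0 < p) :
    ∃ V : C(Sph n, ℝ) → ℝ, ValX V ∧ HomX p V ∧ ContAtX V 0 ∧ ∀ a : C(Sph n, ℝ), (∀ t, 0 < a t) → ¬ ContAtX V a := by
  have t₀ : Sph n := (⟨EuclideanSpace.single ⟨0, by omega⟩ 1, by simp⟩ : Metric.sphere (0 : EuclideanSpace ℝ (Fin n)) 1)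
  obtain ⟨V, h1, h2, h3, h4⟩ := hEX1 (Sph n) t₀ (sphere_neBot hn t₀) p hp
  refine ⟨V, h1, h2, h3, fun a ha hc => h4 ?_⟩
  exact ucx_contAt ((mainX hXBD hXUC hXAD hXEX hXPW hXCN (Sph n) ℝ p V hp h1 h2).2 ⟨h3, a, ha, hc⟩) 1
    (fun t => zero_le_one)

omit hXBD hXUC hXAD hXEX hXPW hXCN in
theorem sph_ex2X (hEX2 : SpecEX2) (n : ℕ) (hn : 2 ≤ n) (p : ℝ) (hp : 0 < p) :
    ∃ V : C(Sph n, ℝ) → ℝ, ValX V ∧ HomX p V ∧ (∀ a : C(Sph n, ℝ), (∀ t, 0 < a t) → ContAtX V a) ∧ ¬ ContAtX V 0 := by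
  have t₀ : Sph n := (⟨EuclideanSpace.single ⟨0, by omega⟩ 1, by simp⟩ : Metric.sphere (0 : EuclideanSpace ℝ (Fin n)) 1)
  exact hEX2 (Sph n) t₀ (sphere_neBot hn t₀) p hp

end main

end Pool.Agent.Lib.MP5bcdfb.HM
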