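import Pool.Agent.Lib.MP_5bcdfb_an.HM.Rot
import Pool.Agent.Lib.MP_5bcdfb_an.HM.FinX

/-!
# MP_5bcdfb, HM: homogeneous valuations which are invariant under the orthogonal group
-/

set_option autoImplicit false

namespace Pool.Agent.Lib.MP5bcdfb.HM

open Set TopologicalSpace Filter Topology
open Pool.Agent.Lib.MP5bcdfb.TS (Sph)
open Pool.Agent.Lib.MP5bcdfb.VV (ValX UCX)

/-- invariance under the orthogonal group -/
def RotInv {n : ℕ} {X : Type} (V : C(Sph n, ℝ) → X) : Prop :=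
  ∀ (R : Orth n) (f : C(Sph n, ℝ)), 0 ≤ f → V (f.comp (rot R)) = V f

/-- `g ↦ g ^ (1 / p)` -/
noncomputable def rootF {n : ℕ} (p : ℝ) (hp : 0 < p) (g : C(Sph n, ℝ)) : C(Sph n, ℝ) :=
  ⟨fun t => (max (g t) 0) ^ (1 / p), by
    refine Continuous.rpow_const (g.continuous.max continuous_const) fun t => Or.inr ?_
    positivity⟩

theorem inv_of_repr {n : ℕ} {X : Type} [NormedAddCommGroup X] [NormedSpace ℝ X] (p : ℝ) (hp : 0 < p)
    (V : C(Sph n, ℝ) → X) (hI : RotInv V) (L : C(Sph n, ℝ) →L[ℝ] X)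
    (hL : ∀ f g : C(Sph n, ℝ), 0 ≤ f → (∀ t, g t = f t ^ p) → V f = L g) (R : Orth n) (g : C(Sph n, ℝ)) :
    L (g.comp (rot R)) = L g := by
  have pos : ∀ g : C(Sph n, ℝ), 0 ≤ g → L (g.comp (rot R)) = L g := by
    intro g hg
    have hf : 0 ≤ rootF p hp g := by
      intro t
      change (0 : ℝ) ≤ (max (g t) 0) ^ (1 / p)
      exact Real.rpow_nonneg (le_max_right _ _) _
    have hpow : ∀ t, g t = (rootF p hp g) t ^ p := by
      intro t
      have hgt : 0 ≤ g t := hg t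
      change g t = ((max (g t) 0) ^ (1 / p)) ^ p
      rw [max_eq_left hgt, ← Real.rpow_mul hgt, one_div, inv_mul_cancel₀ hp.ne', Real.rpow_one]
    rw [← hL (rootF p hp g) g hf hpow,
      ← hL ((rootF p hp g).comp (rot R)) (g.comp (rot R)) (fun t => hf (rot R t)) (fun t => hpow (rot R t))]
    exact hI R _ hf
  have h1 := pos (g + ‖g‖ • (1 : C(Sph n, ℝ))) (by
    intro t
    change (0 : ℝ) ≤ g t + ‖g‖ * 1
    have := ContinuousMap.neg_norm_le_apply g t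
    linarith)
  have e1 : (g + ‖g‖ • (1 : C(Sph n, ℝ))).comp (rot R) = g.comp (rot R) + ‖g‖ • (1 : C(Sph n, ℝ)) := by
    ext t; rfl
  rw [e1, map_add, map_add] at h1
  exact add_right_cancel h1

theorem prop_rot (hXBD : SpecXBD) (hXUC : SpecXUC) (hXAD : SpecXAD) (hXEX : SpecXEX) (hXPW : SpecXPW)
    (n : ℕ) (p : ℝ) (hp : 0 < p) (X : Type) [NormedAddCommGroup X] [NormedSpace ℝ X]
    (V : C(Sph n, ℝ) → X) (hV : ValX V) (hV1 : HomX p V) (hV2 : ContAtX V 0)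
    (hV3 : ∃ a : C(Sph n, ℝ), (∀ t, 0 < a t) ∧ ContAtX V a) (hV4 : RotInv V)
    (W : C(Sph n, ℝ) → ℝ) (hW : ValX W) (hW1 : HomX p W) (hW2 : ContAtX W 0)
    (hW3 : ∃ a : C(Sph n, ℝ), (∀ t, 0 < a t) ∧ ContAtX W a) (hW4 : RotInv W) (f : C(Sph n, ℝ)) (hf : 0 ≤ f) :
    W 1 • V f = W f • V 1 := by
  obtain ⟨a, ha, hca⟩ := hV3
  obtain ⟨b, hb, hcb⟩ := hW3
  obtain ⟨L, hL⟩ := reprX hXBD hXUC hXAD hXEX hXPW (Sph n) X p V hp hV hV1 hV2 a ha hca
  obtain ⟨M, hM⟩ := reprX hXBD hXUC hXAD hXEX hXPW (Sph n) ℝ p W hp hW hW1 hW2 b hb hcb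
  have e1 : ∀ t : Sph n, (1 : C(Sph n, ℝ)) t = (1 : C(Sph n, ℝ)) t ^ p := fun t => by
    change (1 : ℝ) = 1 ^ p
    rw [Real.one_rpow]
  have h01 : (0 : C(Sph n, ℝ)) ≤ 1 := fun t => zero_le_one
  let g : C(Sph n, ℝ) := ⟨fun t => f t ^ p, Continuous.rpow_const f.continuous fun t => Or.inr hp.le⟩
  have hg : ∀ t, g t = f t ^ p := fun t => rfl
  rw [hL f g hf hg, hM f g hf hg, hL 1 1 h01 e1, hM 1 1 h01 e1]
  have key : ∀ g : C(Sph n, ℝ), ((M 1) • L - M.smulRight (L 1)) g = 0 := by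
    intro g
    refine inv_zero _ (fun R g => ?_) ?_ g
    · change M 1 • L (g.comp (rot R)) - M (g.comp (rot R)) • L 1 = M 1 • L g - M g • L 1
      rw [inv_of_repr p hp V hV4 L hL, inv_of_repr p hp W hW4 M hM]
    · change M 1 • L 1 - M 1 • L 1 = 0
      rw [sub_self]
  have := key g
  change M 1 • L g - M g • L 1 = 0 at this
  exact sub_eq_zero.1 this

end Pool.Agent.Lib.MP5bcdfb.HM
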