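import Pool.Agent.Lib.MP_5bcdfb_an.HM.Spec

/-! # GRD -/

set_option autoImplicit false

namespace Pool.Agent.Lib.MP5bcdfb.HM

namespace GRDM

/-- the grid points -/
noncomputable def y (e : ℝ) (M k i : ℕ) : ℝ := e * ((k : ℝ) / M) + e * i - e

theorem y_succ (e : ℝ) (M k i : ℕ) : y e M k (i + 1) = y e M k i + e := by
  unfold y
  push_cast
  ring

theorem y_mono {e : ℝ} (he : 0 < e) (M k : ℕ) {i j : ℕ} (hij : i ≤ j) : y e M k i ≤ y e M k j := by
  unfold y
  have : (i : ℝ) ≤ j := by exact_mod_cast hij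
  nlinarith

/-- the trapezoid -/
noncomputable def tr (w a b s : ℝ) : ℝ := max 0 (min 1 (min ((s - a) / w) ((b - s) / w)))

/-- the tent -/
noncomputable def te (w a s : ℝ) : ℝ := max 0 (min 1 (2 - |s - a| / w))

theorem tr_nonneg (w a b s : ℝ) : 0 ≤ tr w a b s := le_max_left _ _

theorem tr_le (w a b s : ℝ) : tr w a b s ≤ 1 := max_le zero_le_one (min_le_left _ _)

theorem tr_ne {w a b s : ℝ} (hw : 0 < w) (h : tr w a b s ≠ 0) : a < s ∧ s < b := by
  unfold tr at h
  by_contra hcon
  apply h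
  apply max_eq_left
  by_cases h1 : a < s
  · have h2 : b ≤ s := by
      by_contra h3
      exact hcon ⟨h1, not_le.mp h3⟩
    exact (min_le_right _ _).trans ((min_le_right _ _).trans
      (div_nonpos_of_nonpos_of_nonneg (by linarith) hw.le))
  · exact (min_le_right _ _).trans ((min_le_left _ _).trans
      (div_nonpos_of_nonpos_of_nonneg (by linarith [not_lt.mp h1]) hw.le))

theorem tr_one {w a b s : ℝ} (hw : 0 < w) (h1 : w ≤ s - a) (h2 : w ≤ b - s) : tr w a b s = 1 := by
  unfold tr
  have h3 : 1 ≤ (s - a) / w := by rwa [le_div_iff₀ hw, one_mul]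
  have h4 : 1 ≤ (b - s) / w := by rwa [le_div_iff₀ hw, one_mul]
  rw [min_eq_left (le_min h3 h4), max_eq_right zero_le_one]

theorem te_nonneg (w a s : ℝ) : 0 ≤ te w a s := le_max_left _ _

theorem te_ne {w a s : ℝ} (hw : 0 < w) (h : te w a s ≠ 0) : |s - a| < 2 * w := by
  unfold te at h
  by_contra hcon
  apply h
  apply max_eq_left
  refine (min_le_right _ _).trans ?_
  have : 2 ≤ |s - a| / w := by
    rw [le_div_iff₀ hw]
    exact not_lt.mp hcon
  linarith

theorem te_one {w a s : ℝ} (hw : 0 < w) (h : |s - a| ≤ w) : 1 ≤ te w a s := by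
  unfold te
  have : |s - a| / w ≤ 1 := by rwa [div_le_iff₀ hw, one_mul]
  exact le_max_of_le_right (le_min le_rfl (by linarith))

theorem tr_cont {K : Type} [TopologicalSpace K] (h : C(K, ℝ)) (w a b : ℝ) :
    Continuous fun t => tr w a b (h t) := by
  unfold tr
  fun_prop

theorem te_cont {K : Type} [TopologicalSpace K] (h : C(K, ℝ)) (w a : ℝ) :
    Continuous fun t => te w a (h t) := by
  unfold te
  fun_prop

/-- Different grids are far away. -/
theorem grid {e : ℝ} {M k l i j : ℕ} (he : 0 < e) (hk : k < M) (hl : l < M)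
    (h : |y e M k i - y e M l j| < e / M) : k = l := by
  have hM : (0 : ℝ) < M := by
    have : 0 < M := by omega
    exact_mod_cast this
  have h1 : y e M k i - y e M l j = e / M * ((((k : ℤ) - l + M * ((i : ℤ) - j) : ℤ)) : ℝ) := by
    unfold y
    push_cast
    field_simp
    ring
  have heM : 0 < e / M := div_pos he hM
  rw [h1, abs_mul, abs_of_pos heM] at h
  have h2 : |((((k : ℤ) - l + M * ((i : ℤ) - j) : ℤ)) : ℝ)| < 1 := by
    by_contra hcon
    have := mul_le_mul_of_nonneg_left (not_lt.mp hcon) heM.le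
    linarith
  have h3 : |((k : ℤ) - l + M * ((i : ℤ) - j))| < 1 := by exact_mod_cast h2
  have h4 : (k : ℤ) - l + M * ((i : ℤ) - j) = 0 := Int.abs_lt_one_iff.mp h3
  have h5 : (M : ℤ) ∣ (k : ℤ) - l := ⟨(j : ℤ) - i, by linear_combination h4⟩
  have h6 : (k : ℤ) - l = 0 := by
    apply Int.eq_zero_of_abs_lt_dvd h5
    rw [abs_lt]
    constructor <;> omega
  omega

end GRDM

open GRDM

theorem specGRD : SpecGRD := by
  intro K _ h R e M hh hR he hM
  have hM' : (0 : ℝ) < M := by exact_mod_cast hM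
  obtain ⟨w, hw⟩ : ∃ w : ℝ, w = e / (4 * M) := ⟨_, rfl⟩
  have hw0 : 0 < w := by rw [hw]; positivity
  have h4w : 4 * w = e / M := by rw [hw]; field_simp
  obtain ⟨N, hN⟩ : ∃ N : ℕ, R < e * N - e := by
    refine ⟨⌈R / e⌉₊ + 2, ?_⟩
    have h1 : R / e ≤ (⌈R / e⌉₊ : ℝ) := Nat.le_ceil _
    rw [div_le_iff₀ he] at h1
    push_cast
    nlinarith
  refine ⟨N, fun k i => max (y e M k i) 0,
    fun k i => ⟨fun t => tr w (y e M k i) (y e M k (i + 1)) (h t), tr_cont h _ _ _⟩,
    fun k => ⟨fun t => ∑ i ∈ Finset.range (N + 1), te w (y e M k i) (h t),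
      continuous_finsetSum _ fun i _ => te_cont h _ _⟩,
    fun k i => le_max_right _ _, fun k i t => tr_nonneg _ _ _ _, fun k i t => tr_le _ _ _ _,
    fun k t => (Finset.sum_nonneg fun i _ => te_nonneg _ _ _ :
      (0 : ℝ) ≤ ∑ i ∈ Finset.range (N + 1), te w (y e M k i) (h t)), ?_, ?_, ?_, ?_⟩
  · intro k _ i j hij t
    by_contra hcon
    push Not at hcon
    obtain ⟨h1, h2⟩ := hcon
    obtain ⟨a1, a2⟩ := tr_ne hw0 h1
    obtain ⟨b1, b2⟩ := tr_ne hw0 h2
    rcases lt_or_gt_of_ne hij with h3 | h3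
    · exact absurd (a2.trans_le (y_mono he M k (Nat.succ_le_of_lt h3))) (not_lt.mpr b1.le)
    · exact absurd (b2.trans_le (y_mono he M k (Nat.succ_le_of_lt h3))) (not_lt.mpr a1.le)
  · intro k _ i t hne
    obtain ⟨a1, a2⟩ := tr_ne hw0 hne
    rw [y_succ] at a2
    exact ⟨max_le a1.le (hh t), a2.le.trans (add_le_add_left (le_max_left _ _) _)⟩
  · intro k hk t
    have hk' : (k : ℝ) / M < 1 := by
      rw [div_lt_one hM']
      exact_mod_cast hk
    have hk0 : (0 : ℝ) ≤ (k : ℝ) / M := by positivity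
    have h0 : 0 ≤ h t := hh t
    have h1 : 0 ≤ (h t - y e M k 0) / e := by
      apply div_nonneg _ he.le
      unfold y
      push_cast
      nlinarith
    obtain ⟨i, hi⟩ : ∃ i : ℕ, i = ⌊(h t - y e M k 0) / e⌋₊ := ⟨_, rfl⟩
    have h2 : (i : ℝ) ≤ (h t - y e M k 0) / e := by rw [hi]; exact Nat.floor_le h1
    have h3 : (h t - y e M k 0) / e < i + 1 := by rw [hi]; exact Nat.lt_floor_add_one _
    rw [le_div_iff₀ he] at h2
    rw [div_lt_iff₀ he] at h3
    have h4 : y e M k i = y e M k 0 + e * i := by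
      unfold y
      push_cast
      ring
    have h5 : y e M k i ≤ h t := by rw [h4]; linarith
    have h6 : h t < y e M k (i + 1) := by rw [y_succ, h4]; linarith
    have h7 : i < N := by
      by_contra hcon
      have h8 : y e M k N ≤ y e M k i := y_mono he M k (not_lt.mp hcon)
      have h9 : e * N - e ≤ y e M k N := by
        unfold y
        have := mul_nonneg he.le hk0
        linarith
      linarith [hR t]
    by_cases c1 : w ≤ h t - y e M k i
    · by_cases c2 : w ≤ y e M k (i + 1) - h t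
      · exact Or.inl ⟨i, h7, tr_one hw0 c1 c2⟩
      · right
        refine le_trans (te_one hw0 (a := y e M k (i + 1)) (s := h t) ?_)
          (Finset.single_le_sum (f := fun i => te w (y e M k i) (h t))
            (fun i _ => te_nonneg _ _ _) (Finset.mem_range.mpr (by omega)))
        rw [abs_le]
        constructor <;> linarith [not_le.mp c2]
    · right
      refine le_trans (te_one hw0 (a := y e M k i) (s := h t) ?_)
        (Finset.single_le_sum (f := fun i => te w (y e M k i) (h t))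
          (fun i _ => te_nonneg _ _ _) (Finset.mem_range.mpr (by omega)))
      rw [abs_le]
      constructor <;> linarith [not_le.mp c1]
  · intro k hk l hl hkl t
    by_contra hcon
    push Not at hcon
    obtain ⟨h1, h2⟩ := hcon
    have h1' : ∑ i ∈ Finset.range (N + 1), te w (y e M k i) (h t) ≠ 0 := h1
    have h2' : ∑ i ∈ Finset.range (N + 1), te w (y e M l i) (h t) ≠ 0 := h2
    obtain ⟨i, -, hi⟩ := Finset.exists_ne_zero_of_sum_ne_zero h1'
    obtain ⟨j, -, hj⟩ := Finset.exists_ne_zero_of_sum_ne_zero h2'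
    have h3 := te_ne hw0 hi
    have h4 := te_ne hw0 hj
    apply hkl
    refine grid (i := i) (j := j) he hk hl ?_
    rw [← h4w]
    rw [abs_lt] at h3 h4 ⊢
    constructor <;> linarith [h3.1, h3.2, h4.1, h4.2]

end Pool.Agent.Lib.MP5bcdfb.HM

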