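import Pool.Agent.Lib.MP_5bcdfb_an.HM.SpecX

/-! XAD: additivity, vector valued (MP_5bcdfb_an). -/

set_option autoImplicit false

namespace Pool.Agent.Lib.MP5bcdfb.HM

open Set TopologicalSpace Filter Topology
open Pool.Agent.Lib.MP5bcdfb.TS (IsVal ContAt UCB)
open Pool.Agent.Lib.MP5bcdfb.VV (ValX UCX)

theorem specXAD (hADC : SpecADC) : SpecXAD := by
  intro K _ _ X _ _ V hval hhom hc0 huc f g hf hg
  obtain ⟨φ, hφ1, hφ⟩ := exists_dual_vector'' ℝ (V (f + g) - (V f + V g))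
  have hb : ∀ x : X, |φ x| ≤ ‖x‖ := by
    intro x
    have h1 := φ.le_opNorm x
    rw [Real.norm_eq_abs] at h1
    have h2 : ‖φ‖ * ‖x‖ ≤ 1 * ‖x‖ := mul_le_mul_of_nonneg_right hφ1 (norm_nonneg x)
    linarith
  have key : φ (V (f + g)) = φ (V f) + φ (V g) := by
    refine hADC K (fun u => φ (V u)) ?_ ?_ ?_ ?_ f g hf hg
    · intro u v hu hv
      show φ (V u) + φ (V v) = φ (V (u ⊔ v)) + φ (V (u ⊓ v))
      rw [← map_add, ← map_add, hval u v hu hv]
    · intro r u hr hu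
      show φ (V (r • u)) = r * φ (V u)
      rw [hhom r u hr hu, map_smul, smul_eq_mul]
    · intro ε hε
      obtain ⟨r, hr, h⟩ := hc0 ε hε
      refine ⟨r, hr, fun u hu hur => ?_⟩
      show |φ (V u) - φ (V 0)| < ε
      rw [← map_sub]
      exact (hb _).trans_lt (h u hu hur)
    · intro m ε hm hε
      obtain ⟨δ, hδ, h⟩ := huc m ε hm hε
      refine ⟨δ, hδ, fun u v hu hv hum hvm huv => ?_⟩
      show |φ (V u) - φ (V v)| ≤ ε
      rw [← map_sub]
      exact (hb _).trans (h u v hu hv hum hvm huv)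
  have h0 : ‖V (f + g) - (V f + V g)‖ = 0 := by
    have h1 : φ (V (f + g) - (V f + V g)) = 0 := by
      rw [map_sub, map_add, key, sub_self]
    rw [h1] at hφ
    exact_mod_cast hφ.symm
  exact sub_eq_zero.1 (norm_eq_zero.1 h0)

end Pool.Agent.Lib.MP5bcdfb.HM
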