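import Pool.Agent.Lib.MP_5bcdfb_an.HM.SpecX

/-!
# Module XBD: bounds from the continuity at `0` (values in a normed space; copy of `HM/BDO.lean`)
-/

set_option autoImplicit false

namespace Pool.Agent.Lib.MP5bcdfb.HM

open Set TopologicalSpace Filter Topology
open Pool.Agent.Lib.MP5bcdfb.TS (IsVal ContAt UCB)
open Pool.Agent.Lib.MP5bcdfb.VV (ValX UCX)

theorem specXBD : SpecXBD := by
  intro K _ _ X _ _ V hV hH hc
  have h0 : V 0 = 0 := by
    have := hH 0 0 le_rfl le_rfl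
    rwa [zero_smul, zero_smul] at this
  obtain ⟨r, hr, hrV⟩ := hc 1 one_pos
  have h1 : ∀ f : C(K, ℝ), 0 ≤ f → ‖V f‖ ≤ 2 / r * ‖f‖ := by
    intro f hf
    by_cases hf0 : f = 0
    · rw [hf0, h0, norm_zero, norm_zero, mul_zero]
    · have hn : 0 < ‖f‖ := norm_pos_iff.2 hf0
      have hk : 0 < r / (2 * ‖f‖) := by positivity
      have h2 := hrV ((r / (2 * ‖f‖)) • f) (smul_nonneg hk.le hf) (by
        rw [sub_zero, norm_smul, Real.norm_of_nonneg hk.le]
        have e1 : r / (2 * ‖f‖) * ‖f‖ = r / 2 := by field_simp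
        rw [e1]; linarith)
      rw [h0, sub_zero, hH _ f hk.le hf, norm_smul, Real.norm_of_nonneg hk.le] at h2
      have h3 : ‖V f‖ = 2 / r * ‖f‖ * (r / (2 * ‖f‖) * ‖V f‖) := by field_simp
      rw [h3]
      have h4 : 0 ≤ 2 / r * ‖f‖ := by positivity
      nlinarith
  refine ⟨2 / r, by positivity, h1, ?_⟩
  intro f s hf hs
  have hs0 : (0 : C(K, ℝ)) ≤ ContinuousMap.const K s := fun x => hs
  have h2 := hV f (ContinuousMap.const K s) hf hs0
  have h3 : ‖ContinuousMap.const K s‖ ≤ s := by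
    rw [ContinuousMap.norm_le _ hs]
    intro x
    rw [ContinuousMap.const_apply, Real.norm_of_nonneg hs]
  have h4 : ‖f ⊓ ContinuousMap.const K s‖ ≤ s := by
    rw [ContinuousMap.norm_le _ hs]
    intro x
    have hfx : 0 ≤ f x := hf x
    rw [ContinuousMap.inf_apply, ContinuousMap.const_apply,
      Real.norm_of_nonneg (le_min hfx hs)]
    exact min_le_right _ _
  have h5 := h1 _ hs0
  have h6 := h1 (f ⊓ ContinuousMap.const K s) (le_inf hf hs0)
  have h7 : V f - V (f ⊔ ContinuousMap.const K s)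
      = V (f ⊓ ContinuousMap.const K s) - V (ContinuousMap.const K s) := by
    rw [sub_eq_sub_iff_add_eq_add, h2]
    abel
  rw [h7]
  have hC : 0 ≤ 2 / r := by positivity
  have h8 : 2 / r * ‖ContinuousMap.const K s‖ ≤ 2 / r * s := mul_le_mul_of_nonneg_left h3 hC
  have h9 : 2 / r * ‖f ⊓ ContinuousMap.const K s‖ ≤ 2 / r * s := mul_le_mul_of_nonneg_left h4 hC
  calc ‖V (f ⊓ ContinuousMap.const K s) - V (ContinuousMap.const K s)‖
      ≤ ‖V (f ⊓ ContinuousMap.const K s)‖ + ‖V (ContinuousMap.const K s)‖ := norm_sub_le _ _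
    _ ≤ 2 * (2 / r) * s := by linarith

end Pool.Agent.Lib.MP5bcdfb.HM
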