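import Pool.Agent.Lib.MP_5bcdfb_an.HM.SpecX

/-!
# MP_5bcdfb_an, hive HM: module XEX (extension to a linear operator)
-/

set_option autoImplicit false

namespace Pool.Agent.Lib.MP5bcdfb.HM

open Set TopologicalSpace Filter Topology
open Pool.Agent.Lib.MP5bcdfb.TS (IsVal ContAt UCB)
open Pool.Agent.Lib.MP5bcdfb.VV (ValX UCX)

namespace XEXM

variable {K : Type} [TopologicalSpace K] {X : Type} [NormedAddCommGroup X] [NormedSpace ℝ X]

theorem key {V : C(K, ℝ) → X} (hadd : ∀ f g : C(K, ℝ), 0 ≤ f → 0 ≤ g → V (f + g) = V f + V g)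
    (f a b : C(K, ℝ)) (ha : 0 ≤ a) (hb : 0 ≤ b) (hf : f = a - b) :
    V (f ⊔ 0) - V (-f ⊔ 0) = V a - V b := by
  have h1 : a + (-f ⊔ 0) = b + (f ⊔ 0) := by
    ext t
    simp only [hf, ContinuousMap.add_apply, ContinuousMap.sup_apply, ContinuousMap.neg_apply,
      ContinuousMap.sub_apply, ContinuousMap.zero_apply]
    rcases le_total (a t - b t) 0 with h | h
    · rw [sup_eq_left.2 (by linarith), sup_eq_right.2 h]; ring
    · rw [sup_eq_right.2 (by linarith), sup_eq_left.2 h]; ring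
  have h2 := hadd a (-f ⊔ 0) ha le_sup_right
  have h3 := hadd b (f ⊔ 0) hb le_sup_right
  rw [h1, h3] at h2
  rw [sub_eq_sub_iff_add_eq_add, ← h2]
  abel

theorem dec (f : C(K, ℝ)) : f = (f ⊔ 0) - (-f ⊔ 0) := by
  ext t
  simp only [ContinuousMap.sup_apply, ContinuousMap.neg_apply,
    ContinuousMap.sub_apply, ContinuousMap.zero_apply]
  rcases le_total (f t) 0 with h | h
  · rw [sup_eq_left.2 (by linarith : (0 : ℝ) ≤ -f t), sup_eq_right.2 h]; ring
  · rw [sup_eq_right.2 (by linarith : -f t ≤ (0 : ℝ)), sup_eq_left.2 h]; ring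

theorem norm_sup_le [CompactSpace K] (f : C(K, ℝ)) : ‖f ⊔ 0‖ ≤ ‖f‖ := by
  rw [ContinuousMap.norm_le _ (norm_nonneg _)]
  intro t
  have h := ContinuousMap.norm_coe_le_norm f t
  rw [Real.norm_eq_abs] at h ⊢
  simp only [ContinuousMap.sup_apply, ContinuousMap.zero_apply]
  rcases le_total (f t) 0 with h' | h'
  · rw [sup_eq_right.2 h', abs_zero]; exact norm_nonneg _
  · rw [sup_eq_left.2 h']; exact h

end XEXM

open XEXM in
theorem specXEX : SpecXEX := by
  intro K _ _ X _ _ V C hH hadd hb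
  have hk := @key K _ X _ _ V hadd
  let L : C(K, ℝ) →ₗ[ℝ] X :=
    { toFun := fun f => V (f ⊔ 0) - V (-f ⊔ 0)
      map_add' := by
        intro f g
        show V ((f + g) ⊔ 0) - V (-(f + g) ⊔ 0) =
          (V (f ⊔ 0) - V (-f ⊔ 0)) + (V (g ⊔ 0) - V (-g ⊔ 0))
        rw [hk (f + g) ((f ⊔ 0) + (g ⊔ 0)) ((-f ⊔ 0) + (-g ⊔ 0))
          (add_nonneg le_sup_right le_sup_right) (add_nonneg le_sup_right le_sup_right)
          (by
            have e1 := dec f
            have e2 := dec g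
            calc f + g = ((f ⊔ 0) - (-f ⊔ 0)) + ((g ⊔ 0) - (-g ⊔ 0)) := by rw [← e1, ← e2]
              _ = _ := by abel),
          hadd _ _ le_sup_right le_sup_right, hadd _ _ le_sup_right le_sup_right]
        abel
      map_smul' := by
        intro r f
        show V ((r • f) ⊔ 0) - V (-(r • f) ⊔ 0) = r • (V (f ⊔ 0) - V (-f ⊔ 0))
        rcases le_total 0 r with hr | hr
        · rw [hk (r • f) (r • (f ⊔ 0)) (r • (-f ⊔ 0)) (smul_nonneg hr le_sup_right)
            (smul_nonneg hr le_sup_right) (by rw [← smul_sub, ← dec f]),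
            hH r _ hr le_sup_right, hH r _ hr le_sup_right, smul_sub]
        · have hr' : 0 ≤ -r := by linarith
          rw [hk (r • f) ((-r) • (-f ⊔ 0)) ((-r) • (f ⊔ 0)) (smul_nonneg hr' le_sup_right)
            (smul_nonneg hr' le_sup_right)
            (by rw [← smul_sub, neg_smul, ← smul_neg, neg_sub, ← dec f]),
            hH (-r) _ hr' le_sup_right, hH (-r) _ hr' le_sup_right, neg_smul, neg_smul, smul_sub]
          abel }
  have hLf : ∀ f, L f = V (f ⊔ 0) - V (-f ⊔ 0) := fun f => rfl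
  refine ⟨L.mkContinuous (2 * |C|) ?_, ?_⟩
  · intro f
    rw [hLf]
    have h1 : ‖V (f ⊔ 0)‖ ≤ |C| * ‖f‖ := (hb _ le_sup_right).trans
      (mul_le_mul (le_abs_self C) (norm_sup_le f) (norm_nonneg _) (abs_nonneg C))
    have h2 : ‖V (-f ⊔ 0)‖ ≤ |C| * ‖f‖ := (hb _ le_sup_right).trans
      (mul_le_mul (le_abs_self C) ((norm_sup_le (-f)).trans_eq (norm_neg f)) (norm_nonneg _)
        (abs_nonneg C))
    calc ‖V (f ⊔ 0) - V (-f ⊔ 0)‖ ≤ ‖V (f ⊔ 0)‖ + ‖V (-f ⊔ 0)‖ := norm_sub_le _ _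
      _ ≤ 2 * |C| * ‖f‖ := by linarith
  · intro f hf
    have h0 : V 0 = 0 := by
      have := hH 0 0 le_rfl le_rfl
      rw [zero_smul, zero_smul] at this
      exact this
    have h1 := hk f f 0 hf le_rfl (by rw [sub_zero])
    rw [h0, sub_zero] at h1
    show V f = L f
    rw [hLf, h1]

end Pool.Agent.Lib.MP5bcdfb.HM
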