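import Pool.Agent.Lib.MP_5bcdfb_an.HM.Spec

/-!
# Module PWR of `HM/Spec.lean` (MP_5bcdfb_an): reduction to the degree one
-/

set_option autoImplicit false

namespace Pool.Agent.Lib.MP5bcdfb.HM

open Set TopologicalSpace Filter Topology
open Pool.Agent.Lib.MP5bcdfb.TS (IsVal ContAt UCB)

namespace PWRM

/-- the real function -/
noncomputable def hh (p x : ℝ) : ℝ := (max x 0) ^ (1 / p)

theorem hh_cont {p : ℝ} (hp : 0 < p) : Continuous (hh p) := by
  unfold hh
  exact (continuous_id.max continuous_const).rpow_const (fun x => Or.inr (by positivity))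

theorem hh_nonneg (p x : ℝ) : 0 ≤ hh p x := Real.rpow_nonneg (le_max_right _ _) _

theorem hh_mono {p : ℝ} (hp : 0 < p) : Monotone (hh p) := by
  intro x y hxy
  exact Real.rpow_le_rpow (le_max_right _ _) (max_le_max_right _ hxy) (by positivity)

theorem hh_zero {p : ℝ} (hp : 0 < p) : hh p 0 = 0 := by
  unfold hh
  rw [max_self]
  exact Real.zero_rpow (by positivity)

theorem hh_one (p : ℝ) : hh p 1 = 1 := by
  unfold hh
  rw [max_eq_left zero_le_one, Real.one_rpow]

theorem hh_mul {p r x : ℝ} (hr : 0 ≤ r) : hh p (r * x) = r ^ (1 / p) * hh p x := by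
  unfold hh
  have h1 : max (r * x) 0 = r * max x 0 := by
    rw [mul_max_of_nonneg x 0 hr, mul_zero]
  rw [h1, Real.mul_rpow hr (le_max_right _ _)]

variable {K : Type} [TopologicalSpace K]

/-- `a f^(1/p)` -/
noncomputable def rt {p : ℝ} (hp : 0 < p) (a f : C(K, ℝ)) : C(K, ℝ) :=
  ⟨fun t => a t * hh p (f t), a.continuous.mul ((hh_cont hp).comp f.continuous)⟩

theorem rt_apply {p : ℝ} (hp : 0 < p) (a f : C(K, ℝ)) (t : K) : rt hp a f t = a t * hh p (f t) := rfl

theorem rt_nonneg {p : ℝ} (hp : 0 < p) (a f : C(K, ℝ)) (ha : ∀ t, 0 < a t) : 0 ≤ rt hp a f := by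
  intro t
  exact mul_nonneg (ha t).le (hh_nonneg _ _)

theorem rt_sup {p : ℝ} (hp : 0 < p) (a f g : C(K, ℝ)) (ha : ∀ t, 0 < a t) :
    rt hp a (f ⊔ g) = rt hp a f ⊔ rt hp a g := by
  ext t
  rw [ContinuousMap.sup_apply, rt_apply, rt_apply, rt_apply, ContinuousMap.sup_apply]
  have h1 : hh p (f t ⊔ g t) = max (hh p (f t)) (hh p (g t)) := (hh_mono hp).map_max
  rw [h1, mul_max_of_nonneg _ _ (ha t).le]

theorem rt_inf {p : ℝ} (hp : 0 < p) (a f g : C(K, ℝ)) (ha : ∀ t, 0 < a t) :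
    rt hp a (f ⊓ g) = rt hp a f ⊓ rt hp a g := by
  ext t
  rw [ContinuousMap.inf_apply, rt_apply, rt_apply, rt_apply, ContinuousMap.inf_apply]
  have h1 : hh p (f t ⊓ g t) = min (hh p (f t)) (hh p (g t)) := (hh_mono hp).map_min
  rw [h1, mul_min_of_nonneg _ _ (ha t).le]

theorem cont_aux [CompactSpace K] {p : ℝ} (hp : 0 < p) (V : C(K, ℝ) → ℝ) (a : C(K, ℝ)) (ha : ∀ t, 0 < a t)
    (f₀ : C(K, ℝ)) (c : ℝ) (hf : ∀ t, f₀ t = c) (hV : ContAt V (rt hp a f₀)) :
    ContAt (fun f => V (rt hp a f)) f₀ := by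
  intro ε hε
  obtain ⟨r₀, hr₀, h0⟩ := hV ε hε
  have hA : 0 < ‖a‖ + 1 := by positivity
  have hc : ContinuousAt (hh p) c := (hh_cont hp).continuousAt
  rw [Metric.continuousAt_iff] at hc
  obtain ⟨r, hr, h1⟩ := hc (r₀ / (2 * (‖a‖ + 1))) (by positivity)
  refine ⟨r, hr, fun g _ hg => h0 (rt hp a g) (rt_nonneg hp a g ha) ?_⟩
  have h2 : ‖rt hp a g - rt hp a f₀‖ ≤ r₀ / 2 := by
    rw [ContinuousMap.norm_le _ (by positivity)]
    intro t
    rw [ContinuousMap.sub_apply, rt_apply, rt_apply, hf t, ← mul_sub, norm_mul]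
    have h3 : ‖a t‖ ≤ ‖a‖ := ContinuousMap.norm_coe_le_norm a t
    have h4 : dist (g t) c < r := by
      have h5 : ‖(g - f₀) t‖ ≤ ‖g - f₀‖ := ContinuousMap.norm_coe_le_norm (g - f₀) t
      rw [ContinuousMap.sub_apply, hf t] at h5
      rw [dist_eq_norm]
      linarith
    have h6 := h1 h4
    rw [dist_eq_norm] at h6
    calc ‖a t‖ * ‖hh p (g t) - hh p c‖ ≤ (‖a‖ + 1) * (r₀ / (2 * (‖a‖ + 1))) := by
          apply mul_le_mul (by linarith) h6.le (norm_nonneg _) hA.le
      _ = r₀ / 2 := by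
          field_simp
  linarith

end PWRM

open PWRM in
theorem specPWR : SpecPWR := by
  intro K _ _ V p hp hV hH hV0 a ha hVa
  have hz : V 0 = 0 := by
    have h1 := hH 2 0 (by norm_num) le_rfl
    rw [smul_zero] at h1
    have h2 : (1 : ℝ) < 2 ^ p := Real.one_lt_rpow (by norm_num) hp
    have h3 : ((2 : ℝ) ^ p - 1) * V 0 = 0 := by linear_combination -h1
    rcases mul_eq_zero.1 h3 with h4 | h4
    · linarith
    · exact h4
  have hr0 : rt hp a 0 = 0 := by
    ext t
    rw [rt_apply, ContinuousMap.zero_apply, hh_zero hp, mul_zero]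
  have hr1 : rt hp a 1 = a := by
    ext t
    rw [rt_apply, ContinuousMap.one_apply, hh_one, mul_one]
  refine ⟨fun f => V (rt hp a f), ?_, ?_, ?_, ?_, ?_⟩
  · intro f g _ _
    change V (rt hp a f) + V (rt hp a g) = V (rt hp a (f ⊔ g)) + V (rt hp a (f ⊓ g))
    rw [rt_sup hp a f g ha, rt_inf hp a f g ha]
    exact hV _ _ (rt_nonneg hp a f ha) (rt_nonneg hp a g ha)
  · intro r f hr _
    change V (rt hp a (r • f)) = r * V (rt hp a f)
    rcases hr.eq_or_lt with h0 | h0
    · rw [← h0, zero_smul, hr0, hz, zero_mul]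
    · have h1 : rt hp a (r • f) = (r ^ (1 / p)) • rt hp a f := by
        ext t
        rw [rt_apply, ContinuousMap.smul_apply, ContinuousMap.smul_apply, rt_apply, smul_eq_mul,
          smul_eq_mul, hh_mul hr]
        ring
      rw [h1, hH _ _ (Real.rpow_pos_of_pos h0 _) (rt_nonneg hp a f ha), ← Real.rpow_mul hr,
        one_div_mul_cancel hp.ne', Real.rpow_one]
  · exact cont_aux hp V a ha 0 0 (fun t => rfl) (by rw [hr0]; exact hV0)
  · exact cont_aux hp V a ha 1 1 (fun t => rfl) (by rw [hr1]; exact hVa)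
  · intro f g hf hg
    change V f = V (rt hp a g)
    have h1 : rt hp a g = f := by
      ext t
      have h2 : 0 ≤ f t / a t := div_nonneg (hf t) (ha t).le
      have h3 : hh p (g t) = f t / a t := by
        rw [hg t]
        unfold hh
        rw [max_eq_left (Real.rpow_nonneg h2 p), ← Real.rpow_mul h2, mul_one_div_cancel hp.ne',
          Real.rpow_one]
      rw [rt_apply, h3]
      have h4 := (ha t).ne'
      field_simp
    rw [h1]

end Pool.Agent.Lib.MP5bcdfb.HM
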