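import Pool.Agent.Lib.MP_5bcdfb_an.HM.SpecX
import Pool.Agent.Lib.MP_5bcdfb_an.HM.PWR

/-!
# Module XPW of `HM/SpecX.lean` (MP_5bcdfb_an): reduction to the degree one, values in a normed space
(copy of `HM/PWR.lean`)
-/

set_option autoImplicit false

namespace Pool.Agent.Lib.MP5bcdfb.HM

open Set TopologicalSpace Filter Topology
open Pool.Agent.Lib.MP5bcdfb.TS (IsVal ContAt UCB)
open Pool.Agent.Lib.MP5bcdfb.VV (ValX UCX)

namespace XPWM

open PWRM

theorem cont_aux {K : Type} [TopologicalSpace K] [CompactSpace K] {X : Type} [NormedAddCommGroup X]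
    {p : ℝ} (hp : 0 < p) (V : C(K, ℝ) → X) (a : C(K, ℝ)) (ha : ∀ t, 0 < a t)
    (f₀ : C(K, ℝ)) (c : ℝ) (hf : ∀ t, f₀ t = c) (hV : ContAtX V (rt hp a f₀)) :
    ContAtX (fun f => V (rt hp a f)) f₀ := by
  intro ε hε
  obtain ⟨r₀, hr₀, h0⟩ := hV ε hε
  have hA : 0 < ‖a‖ + 1 := by positivity
  have hc : ContinuousAt (hh p) c := (hh_cont hp).continuousAt
  rw [Metric.continuousAt_iff] at hc
  obtain ⟨r, hr, h1⟩ := hc (r₀ / (2 * (‖a‖ + 1))) (by positivity)
  refine ⟨r, hr, fun g _ hg => h0 (rt hp a g) (rt_nonneg hp a g ha) ?_⟩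
  have h2 : ‖rt hp a g - rt hp a f₀‖ ≤ r₀ / 2 := by
    rw [ContinuousMap.norm_le _ (by positivity)]
    intro t
    rw [ContinuousMap.sub_apply, rt_apply, rt_apply, hf t, ← mul_sub, norm_mul]
    have h3 : ‖a t‖ ≤ ‖a‖ := ContinuousMap.norm_coe_le_norm a t
    have h4 : dist (g t) c < r := by
      have h5 : ‖(g - f₀) t‖ ≤ ‖g - f₀‖ := ContinuousMap.norm_coe_le_norm (g - f₀) t
      rw [ContinuousMap.sub_apply, hf t] at h5
      rw [dist_eq_norm]
      linarith
    have h6 := h1 h4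
    rw [dist_eq_norm] at h6
    calc ‖a t‖ * ‖hh p (g t) - hh p c‖ ≤ (‖a‖ + 1) * (r₀ / (2 * (‖a‖ + 1))) := by
          apply mul_le_mul (by linarith) h6.le (norm_nonneg _) hA.le
      _ = r₀ / 2 := by
          field_simp
  linarith

end XPWM

open PWRM in
theorem specXPW : SpecXPW := by
  intro K _ _ X _ _ V p hp hV hH hV0 a ha hVa
  have hz : V 0 = 0 := by
    have h1 := hH 2 0 (by norm_num) le_rfl
    rw [smul_zero] at h1
    have h2 : (1 : ℝ) < 2 ^ p := Real.one_lt_rpow (by norm_num) hp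
    have h3 : ((2 : ℝ) ^ p - 1) • V 0 = 0 := by
      rw [sub_smul, one_smul, ← h1, sub_self]
    rcases smul_eq_zero.1 h3 with h4 | h4
    · linarith
    · exact h4
  have hr0 : rt hp a 0 = 0 := by
    ext t
    rw [rt_apply, ContinuousMap.zero_apply, hh_zero hp, mul_zero]
  have hr1 : rt hp a 1 = a := by
    ext t
    rw [rt_apply, ContinuousMap.one_apply, hh_one, mul_one]
  refine ⟨fun f => V (rt hp a f), ?_, ?_, ?_, ?_, ?_⟩
  · intro f g _ _
    change V (rt hp a f) + V (rt hp a g) = V (rt hp a (f ⊔ g)) + V (rt hp a (f ⊓ g))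
    rw [rt_sup hp a f g ha, rt_inf hp a f g ha]
    exact hV _ _ (rt_nonneg hp a f ha) (rt_nonneg hp a g ha)
  · intro r f hr _
    change V (rt hp a (r • f)) = r • V (rt hp a f)
    rcases hr.eq_or_lt with h0 | h0
    · rw [← h0, zero_smul, hr0, hz, zero_smul]
    · have h1 : rt hp a (r • f) = (r ^ (1 / p)) • rt hp a f := by
        ext t
        rw [rt_apply, ContinuousMap.smul_apply, ContinuousMap.smul_apply, rt_apply, smul_eq_mul,
          smul_eq_mul, hh_mul hr]
        ring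
      rw [h1, hH _ _ (Real.rpow_pos_of_pos h0 _) (rt_nonneg hp a f ha), ← Real.rpow_mul hr,
        one_div_mul_cancel hp.ne', Real.rpow_one]
  · exact XPWM.cont_aux hp V a ha 0 0 (fun t => rfl) (by rw [hr0]; exact hV0)
  · exact XPWM.cont_aux hp V a ha 1 1 (fun t => rfl) (by rw [hr1]; exact hVa)
  · intro f g hf hg
    change V f = V (rt hp a g)
    have h1 : rt hp a g = f := by
      ext t
      have h2 : 0 ≤ f t / a t := div_nonneg (hf t) (ha t).le
      have h3 : hh p (g t) = f t / a t := by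
        rw [hg t]
        unfold hh
        rw [max_eq_left (Real.rpow_nonneg h2 p), ← Real.rpow_mul h2, mul_one_div_cancel hp.ne',
          Real.rpow_one]
      rw [rt_apply, h3]
      have h4 := (ha t).ne'
      field_simp
    rw [h1]

end Pool.Agent.Lib.MP5bcdfb.HM
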