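import Pool.Agent.Lib.MP_5bcdfb_an.HM.SpecX

/-!
# MP_5bcdfb, hive HM, part 2: module XSL

The main estimate for valuations with values in a normed space, from the scalar one.
-/

set_option autoImplicit false

namespace Pool.Agent.Lib.MP5bcdfb.HM

open Pool.Agent.Lib.MP5bcdfb.TS (IsVal ContAt UCB)
open Pool.Agent.Lib.MP5bcdfb.VV (ValX UCX)

theorem specXSL (hSLI : SpecSLI) : SpecXSL := by
  intro K _ X _ _ V hV hH s κ η R hs hκ hR hη a g hag
  obtain ⟨φ, hφ, hφx⟩ := exists_dual_vector'' ℝ (V g - V a)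
  have hle : ∀ x : X, |φ x| ≤ ‖x‖ := by
    intro x
    have h1 := φ.le_opNorm x
    rw [Real.norm_eq_abs] at h1
    exact h1.trans (mul_le_of_le_one_left (norm_nonneg _) hφ)
  have h := hSLI K (fun f => φ (V f))
    (by
      intro f g hf hg
      have h1 := hV f g hf hg
      show φ (V f) + φ (V g) = φ (V (f ⊔ g)) + φ (V (f ⊓ g))
      rw [← map_add, ← map_add, h1])
    (by
      intro r f hr hf
      show φ (V (r • f)) = r * φ (V f)
      rw [hH r f hr hf, map_smul, smul_eq_mul])
    s κ η R hs hκ hR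
    (by
      intro x hx
      show |φ (V x) - φ (V 1)| ≤ η
      rw [← map_sub]
      exact (hle _).trans (hη x hx))
    a g hag
  have h2 : φ (V g) - φ (V a) = ‖V g - V a‖ := by
    rw [← map_sub, hφx]
    rfl
  calc ‖V g - V a‖ = φ (V g) - φ (V a) := h2.symm
    _ ≤ |φ (V g) - φ (V a)| := le_abs_self _
    _ ≤ 8 * η * R := h

end Pool.Agent.Lib.MP5bcdfb.HM
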