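import Pool.Agent.Lib.MP_5bcdfb_an.HM.Main
import Pool.Agent.Lib.MP_5bcdfb_an.HM.FinX
import Pool.Agent.Lib.MP_5bcdfb_an.HM.XBD
import Pool.Agent.Lib.MP_5bcdfb_an.HM.XSL
import Pool.Agent.Lib.MP_5bcdfb_an.HM.XUC
import Pool.Agent.Lib.MP_5bcdfb_an.HM.XAD
import Pool.Agent.Lib.MP_5bcdfb_an.HM.XEX
import Pool.Agent.Lib.MP_5bcdfb_an.HM.XPW
import Pool.Agent.Lib.MP_5bcdfb_an.HM.XCN

/-!
# MP_5bcdfb, HM: assembly of the modules, vector valued
-/

set_option autoImplicit false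

namespace Pool.Agent.Lib.MP5bcdfb.HM

theorem allXUC : SpecXUC := specXUC specXBD (specXSL (specSLI specTEL allPAR))

theorem allXAD : SpecXAD := specXAD allADC

end Pool.Agent.Lib.MP5bcdfb.HM
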