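import Pool.Agent.Lib.MP_5bcdfb_an.HM.FinR

/-!
# MP_5bcdfb, HM: the surface measure of the sphere is invariant; homogeneous invariant valuations
-/

set_option autoImplicit false

namespace Pool.Agent.Lib.MP5bcdfb.HM

open Set TopologicalSpace Filter Topology MeasureTheory
open scoped Pointwise
open Pool.Agent.Lib.MP5bcdfb.TS (Sph)
open Pool.Agent.Lib.MP5bcdfb.VV (ValX UCX)

/-- the integral over `S^(n-1)` with respect to the surface measure -/
noncomputable def mean {n : ℕ} (f : C(Sph n, ℝ)) : ℝ :=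
  ∫ x : Metric.sphere (0 : EuclideanSpace ℝ (Fin n)) 1, f x ∂((volume : Measure (EuclideanSpace ℝ (Fin n))).toSphere)

theorem rot_measurePreserving {n : ℕ} (R : Orth n) :
    MeasurePreserving (show Metric.sphere (0 : EuclideanSpace ℝ (Fin n)) 1 → Metric.sphere (0 : EuclideanSpace ℝ (Fin n)) 1
      from rot R) (volume : Measure (EuclideanSpace ℝ (Fin n))).toSphere
      (volume : Measure (EuclideanSpace ℝ (Fin n))).toSphere := by
  have hc : Continuous (show Metric.sphere (0 : EuclideanSpace ℝ (Fin n)) 1 → Metric.sphere (0 : EuclideanSpace ℝ (Fin n)) 1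
      from rot R) := (rot R).continuous
  refine ⟨hc.measurable, ?_⟩
  ext s hs
  rw [Measure.map_apply hc.measurable hs, Measure.toSphere_apply' _ (hc.measurable hs), Measure.toSphere_apply' _ hs]
  congr 1
  have e : (Ioo (0 : ℝ) 1 • ((fun x : Metric.sphere (0 : EuclideanSpace ℝ (Fin n)) 1 => (x : EuclideanSpace ℝ (Fin n))) ''
      ((show Metric.sphere (0 : EuclideanSpace ℝ (Fin n)) 1 → Metric.sphere (0 : EuclideanSpace ℝ (Fin n)) 1 from rot R) ⁻¹' s))) =
      R ⁻¹' (Ioo (0 : ℝ) 1 • ((fun x : Metric.sphere (0 : EuclideanSpace ℝ (Fin n)) 1 => (x : EuclideanSpace ℝ (Fin n))) '' s)) := by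
    ext v
    constructor
    · rintro ⟨c, hc, w, ⟨x, hx, rfl⟩, rfl⟩
      refine ⟨c, hc, R x.1, ⟨rot R x, hx, rfl⟩, ?_⟩
      exact (R.map_smul c x.1).symm
    · rintro ⟨c, hc, w, ⟨x, hx, rfl⟩, hv⟩
      have hv' : c • x.1 = R v := hv
      refine ⟨c, hc, R.symm x.1, ⟨rot R.symm x, ?_, rfl⟩, ?_⟩
      · have : rot R (rot R.symm x) = x := by
          apply Subtype.ext
          exact R.apply_symm_apply x.1
        change rot R (rot R.symm x) ∈ s
        rw [this]
        exact hx
      · change c • R.symm x.1 = v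
        rw [← R.symm.map_smul, hv', R.symm_apply_apply]
  have h3 : MeasurePreserving (R.toHomeomorph.toMeasurableEquiv) (volume : Measure (EuclideanSpace ℝ (Fin n))) volume :=
    LinearIsometryEquiv.measurePreserving R
  exact (congrArg (volume : Measure (EuclideanSpace ℝ (Fin n))) e).trans (h3.measure_preimage_equiv _)

theorem mean_rot {n : ℕ} (R : Orth n) (f : C(Sph n, ℝ)) : mean (f.comp (rot R)) = mean f := by
  have hmp := rot_measurePreserving R
  have hf : Continuous (show Metric.sphere (0 : EuclideanSpace ℝ (Fin n)) 1 → ℝ from f) := f.continuous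
  have h := integral_map (μ := (volume : Measure (EuclideanSpace ℝ (Fin n))).toSphere) (f := (show Metric.sphere (0 : EuclideanSpace ℝ (Fin n)) 1 → ℝ from f)) hmp.measurable.aemeasurable
    (hf.aestronglyMeasurable)
  rw [hmp.map_eq] at h
  exact h.symm

theorem integrable_of_cont {n : ℕ} (f : C(Sph n, ℝ)) :
    Integrable (show Metric.sphere (0 : EuclideanSpace ℝ (Fin n)) 1 → ℝ from f)
      ((volume : Measure (EuclideanSpace ℝ (Fin n))).toSphere) := by
  have hf : Continuous (show Metric.sphere (0 : EuclideanSpace ℝ (Fin n)) 1 → ℝ from f) := f.continuous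
  refine Integrable.of_bound (hf.aestronglyMeasurable) ‖f‖ (Eventually.of_forall fun x => ?_)
  exact ContinuousMap.norm_coe_le_norm f x

/-- the mean as a bounded linear functional -/
theorem exists_mean (n : ℕ) : ∃ M : C(Sph n, ℝ) →L[ℝ] ℝ, ∀ f, M f = mean f := by
  let l : C(Sph n, ℝ) →ₗ[ℝ] ℝ :=
    { toFun := mean
      map_add' := fun f g => integral_add (integrable_of_cont f) (integrable_of_cont g)
      map_smul' := fun c f => integral_const_mul c _ }
  refine ⟨l.mkContinuous (((volume : Measure (EuclideanSpace ℝ (Fin n))).toSphere).real univ) fun f => ?_, fun f => rfl⟩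
  change ‖mean f‖ ≤ _
  rw [mul_comm]
  exact norm_integral_le_of_norm_le_const (Eventually.of_forall fun x => ContinuousMap.norm_coe_le_norm f x)

theorem mean_one_pos {n : ℕ} (hn : 1 ≤ n) : 0 < mean (1 : C(Sph n, ℝ)) := by
  have e : mean (1 : C(Sph n, ℝ)) = ((volume : Measure (EuclideanSpace ℝ (Fin n))).toSphere).real univ := by
    change ∫ x : Metric.sphere (0 : EuclideanSpace ℝ (Fin n)) 1, (1 : ℝ) ∂_ = _
    rw [integral_const, smul_eq_mul, mul_one]
  rw [e, Measure.toSphere_real_apply_univ]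
  refine mul_pos ?_ ?_
  · rw [finrank_euclideanSpace, Fintype.card_fin]
    exact_mod_cast hn
  · exact ENNReal.toReal_pos (Metric.measure_ball_pos _ _ one_pos).ne' (measure_ball_lt_top).ne

theorem main_mean (hXBD : SpecXBD) (hXUC : SpecXUC) (hXAD : SpecXAD) (hXEX : SpecXEX) (hXPW : SpecXPW)
    (n : ℕ) (hn : 1 ≤ n) (p : ℝ) (hp : 0 < p) (X : Type) [NormedAddCommGroup X] [NormedSpace ℝ X]
    (V : C(Sph n, ℝ) → X) (hV : ValX V) (hV1 : HomX p V) (hV2 : ContAtX V 0)
    (hV3 : ∃ a : C(Sph n, ℝ), (∀ t, 0 < a t) ∧ ContAtX V a) (hV4 : RotInv V) :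
    ∃ c : X, ∀ f g : C(Sph n, ℝ), 0 ≤ f → (∀ t, g t = f t ^ p) → V f = mean g • c := by
  obtain ⟨a, ha, hca⟩ := hV3
  obtain ⟨L, hL⟩ := reprX hXBD hXUC hXAD hXEX hXPW (Sph n) X p V hp hV hV1 hV2 a ha hca
  obtain ⟨M, hM⟩ := exists_mean n
  have hpos := mean_one_pos hn
  refine ⟨(mean (1 : C(Sph n, ℝ)))⁻¹ • L 1, fun f g hf hg => ?_⟩
  rw [hL f g hf hg]
  have key : ∀ g : C(Sph n, ℝ), ((M 1) • L - M.smulRight (L 1)) g = 0 := by
    intro g
    refine inv_zero _ (fun R g => ?_) ?_ g
    · change M 1 • L (g.comp (rot R)) - M (g.comp (rot R)) • L 1 = M 1 • L g - M g • L 1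
      rw [inv_of_repr p hp V hV4 L hL, hM, hM, hM, mean_rot]
    · change M 1 • L 1 - M 1 • L 1 = 0
      rw [sub_self]
  have h1 := key g
  change M 1 • L g - M g • L 1 = 0 at h1
  have h2 := sub_eq_zero.1 h1
  rw [hM, hM] at h2
  rw [smul_comm, ← h2, smul_smul, inv_mul_cancel₀ hpos.ne', one_smul]

end Pool.Agent.Lib.MP5bcdfb.HM
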