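import Pool.Agent.Lib.MP_5bcdfb_an.HM.Defs
import Pool.Agent.Lib.MP_5bcdfb_an.HM.MainX
import Pool.Agent.Lib.MP_5bcdfb_an.HM.Mean

/-!
# MP_5bcdfb, HM: the theorem in terms of the definitions of `HM/Defs.lean`
-/

set_option autoImplicit false

namespace Pool.Agent.Lib.MP5bcdfb.HV

theorem last1 (K : Type) [TopologicalSpace K] [CompactSpace K] (X : Type) [NormedAddCommGroup X] [NormedSpace ℝ X]
    (p : ℝ) (V : C(K, ℝ) → X) (hp : 0 < p) (hV : Val V) (hom : Hom p V) :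
    (TwoPoint V ↔ PowLin p V) ∧ (TwoPoint V → UCB V) :=
  HM.mainX HM.specXBD HM.allXUC HM.allXAD HM.specXEX HM.specXPW HM.specXCN K X p V hp hV hom

theorem last2 (n : ℕ) (hn : 1 ≤ n) (p : ℝ) (hp : 0 < p) (X : Type) [NormedAddCommGroup X] [NormedSpace ℝ X]
    (V : C(Sph n, ℝ) → X) (hV : Val V) (hom : Hom p V) (h : TwoPoint V) (hr : RotInv V) : PowMean p V := by
  refine HM.main_mean HM.specXBD HM.allXUC HM.allXAD HM.specXEX HM.specXPW n hn p hp X V hV hom h.1 h.2 ?_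
  intro R f hf
  refine hr R f _ hf fun x y hy => ?_
  have e : y = HM.rot R x := Subtype.ext hy
  rw [e]
  rfl

theorem last3 (n : ℕ) (hn : 2 ≤ n) (p : ℝ) (hp : 0 < p) :
    (∃ V : C(Sph n, ℝ) → ℝ, Val V ∧ Hom p V ∧ OnlyZero V) ∧ ∃ V : C(Sph n, ℝ) → ℝ, Val V ∧ Hom p V ∧ NotZero V :=
  ⟨HM.sph_ex1X HM.specXBD HM.allXUC HM.allXAD HM.specXEX HM.specXPW HM.specXCN HM.specEX1 n hn p hp,
    HM.sph_ex2X HM.specEX2 n hn p hp⟩

end Pool.Agent.Lib.MP5bcdfb.HV
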