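import Pool.Agent.Lib.MP_5bcdfb_an.HM.Spec

/-!
# PAR: all slices of the same parity in one function
-/

set_option autoImplicit false

namespace Pool.Agent.Lib.MP5bcdfb.HM

open Set TopologicalSpace Filter Topology
open Pool.Agent.Lib.MP5bcdfb.TS (IsVal ContAt UCB)

noncomputable section

namespace PARM

variable {K : Type} [TopologicalSpace K]

lemma cl_apply (m M : ℝ) (f : C(K, ℝ)) (t : K) : cl m M f t = max (min (f t) M) m := rfl

lemma lev_apply (s κ : ℝ) (i : ℕ) (f : C(K, ℝ)) (t : K) :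
    lev s κ i f t = max (min ((s * (κ ^ 2) ^ i)⁻¹ * f t) (κ ^ 2)) 1 := rfl

/-- the function `d` -/
def dd (s κ : ℝ) (a : C(K, ℝ)) (ha : ∀ t, a t ≠ 0) (i : ℕ) : C(K, ℝ) :=
  ⟨fun t => κ ^ 2 * (s * (κ ^ 2) ^ (i + 1) / a t) ^ 2,
    continuous_const.mul ((continuous_const.div a.continuous ha).pow 2)⟩

lemma dd_apply (s κ : ℝ) (a : C(K, ℝ)) (ha : ∀ t, a t ≠ 0) (i : ℕ) (t : K) :
    cl 1 (κ ^ 2) (dd s κ a ha i) t =
      max (min (κ ^ 2 * (s * (κ ^ 2) ^ (i + 1) / a t) ^ 2) (κ ^ 2)) 1 := rfl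

/-- a slice above the values is `1` -/
lemma le_one {s κ x : ℝ} {j : ℕ} (hs : 0 < s) (hκ : 1 < κ) (h : x ≤ s * (κ ^ 2) ^ j) :
    max (min ((s * (κ ^ 2) ^ j)⁻¹ * x) (κ ^ 2)) 1 ≤ 1 := by
  have hr : 0 < s * (κ ^ 2) ^ j := by positivity
  refine max_le ((min_le_left _ _).trans ?_) le_rfl
  rw [inv_mul_le_iff₀ hr, mul_one]
  exact h

/-- disjointness -/
lemma disj {s κ a g : ℝ} {i j : ℕ} (hs : 0 < s) (hκ : 1 < κ) (ha : s ≤ a) (hag : a ≤ g)
    (hg : g ≤ κ * a) (hij : i + 2 ≤ j) :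
    max (min (κ ^ 2 * (s * (κ ^ 2) ^ (i + 1) / a) ^ 2) (κ ^ 2)) 1 ≤ 1 ∨
    (max (min ((s * (κ ^ 2) ^ j)⁻¹ * g) (κ ^ 2)) 1 ≤ 1 ∧
      max (min ((s * (κ ^ 2) ^ j)⁻¹ * a) (κ ^ 2)) 1 ≤ 1) := by
  have ha0 : 0 < a := lt_of_lt_of_le hs ha
  have hκ0 : 0 < κ := by linarith
  have hr1 : 0 < s * (κ ^ 2) ^ (i + 1) := by positivity
  by_cases h : κ * (s * (κ ^ 2) ^ (i + 1)) ≤ a
  · left
    refine max_le ((min_le_left _ _).trans ?_) le_rfl
    have h1 : κ * (s * (κ ^ 2) ^ (i + 1) / a) ≤ 1 := by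
      rw [← mul_div_assoc, div_le_one ha0]
      exact h
    have h2 : 0 ≤ κ * (s * (κ ^ 2) ^ (i + 1) / a) := by positivity
    calc κ ^ 2 * (s * (κ ^ 2) ^ (i + 1) / a) ^ 2 = (κ * (s * (κ ^ 2) ^ (i + 1) / a)) ^ 2 := by ring
      _ ≤ 1 := pow_le_one₀ h2 h1
  · right
    push Not at h
    have h1 : g ≤ s * (κ ^ 2) ^ j := by
      have h2 : κ * a ≤ κ * (κ * (s * (κ ^ 2) ^ (i + 1))) :=
        mul_le_mul_of_nonneg_left h.le hκ0.le
      have h3 : κ * (κ * (s * (κ ^ 2) ^ (i + 1))) = s * (κ ^ 2) ^ (i + 2) := by ring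
      have h4 : (κ ^ 2) ^ (i + 2) ≤ (κ ^ 2) ^ j :=
        pow_le_pow_right₀ (one_le_pow₀ hκ.le) hij
      have h5 : s * (κ ^ 2) ^ (i + 2) ≤ s * (κ ^ 2) ^ j := mul_le_mul_of_nonneg_left h4 hs.le
      linarith
    exact ⟨le_one hs hκ h1, le_one hs hκ (hag.trans h1)⟩

/-- equal slices or largest `D` -/
lemma loc {s κ a g : ℝ} {i : ℕ} (hs : 0 < s) (hκ : 1 < κ) (ha : s ≤ a) (hag : a ≤ g) :
    max (min ((s * (κ ^ 2) ^ i)⁻¹ * g) (κ ^ 2)) 1 = max (min ((s * (κ ^ 2) ^ i)⁻¹ * a) (κ ^ 2)) 1 ∨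
    κ ^ 2 ≤ max (min (κ ^ 2 * (s * (κ ^ 2) ^ (i + 1) / a) ^ 2) (κ ^ 2)) 1 := by
  have ha0 : 0 < a := lt_of_lt_of_le hs ha
  have hκ0 : 0 < κ := by linarith
  have hr : 0 < s * (κ ^ 2) ^ i := by positivity
  have hr1 : s * (κ ^ 2) ^ (i + 1) = (s * (κ ^ 2) ^ i) * κ ^ 2 := by ring
  by_cases h : a ≤ s * (κ ^ 2) ^ (i + 1)
  · right
    refine le_trans ?_ (le_max_left _ _)
    refine le_min ?_ le_rfl
    have h1 : 1 ≤ s * (κ ^ 2) ^ (i + 1) / a := by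
      rw [one_le_div ha0]
      exact h
    have h2 : 1 ≤ (s * (κ ^ 2) ^ (i + 1) / a) ^ 2 := one_le_pow₀ h1
    nlinarith [sq_nonneg κ]
  · left
    push Not at h
    have key : ∀ x, a ≤ x → min ((s * (κ ^ 2) ^ i)⁻¹ * x) (κ ^ 2) = κ ^ 2 := by
      intro x hx
      refine min_eq_right ?_
      rw [← div_eq_inv_mul, le_div_iff₀ hr, mul_comm, ← hr1]
      exact h.le.trans hx
    rw [key g hag, key a le_rfl]

end PARM

open PARM in
theorem specPAR (hDIS : SpecDIS) : SpecPAR := by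
  intro K _ V hV s κ η hs hκ hη a g hag N c
  have ha0 : ∀ t, a t ≠ 0 := fun t => (lt_of_lt_of_le hs (hag t).1).ne'
  have hκ2 : 1 ≤ κ ^ 2 := one_le_pow₀ hκ.le
  have hfin := hDIS K V hV 1 (κ ^ 2) η ((Finset.range N).filter (fun i => i % 2 = c))
    (fun i => lev s κ i g) (fun i => lev s κ i a) (fun i => cl 1 (κ ^ 2) (dd s κ a ha0 i))
    (fun t => zero_le_one) (fun t => hκ2) ?_ ?_ ?_ ?_ ?_
  · exact hfin
  · intro i _
    exact ⟨fun t => le_max_right _ _, fun t => le_max_right _ _, fun t => le_max_right _ _⟩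
  · intro i _ t
    exact ⟨max_le (min_le_right _ _) hκ2, max_le (min_le_right _ _) hκ2⟩
  · intro i _ t
    rcases loc (i := i) hs hκ (hag t).1 (hag t).2.1 with h | h
    · left
      exact h
    · right
      exact ⟨(max_le (min_le_right _ _) hκ2).trans h, (max_le (min_le_right _ _) hκ2).trans h⟩
  · intro i hi j hj hne t
    have hi2 := (Finset.mem_filter.1 hi).2
    have hj2 := (Finset.mem_filter.1 hj).2
    rcases lt_or_gt_of_ne hne with h | h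
    · rcases disj (i := i) (j := j) hs hκ (hag t).1 (hag t).2.1 (hag t).2.2 (by omega) with h1 | h1
      · left
        exact ⟨(min_le_right _ _).trans h1, (min_le_right _ _).trans h1⟩
      · right
        exact ⟨(min_le_left _ _).trans h1.1, (min_le_left _ _).trans h1.2⟩
    · rcases disj (i := j) (j := i) hs hκ (hag t).1 (hag t).2.1 (hag t).2.2 (by omega) with h1 | h1
      · right
        exact ⟨(min_le_right _ _).trans h1, (min_le_right _ _).trans h1⟩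
      · left
        exact ⟨(min_le_left _ _).trans h1.1, (min_le_left _ _).trans h1.2⟩
  · intro x hx hx2
    exact hη x fun t => ⟨hx t, hx2 t⟩

end

end Pool.Agent.Lib.MP5bcdfb.HM
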