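import Pool.Agent.Lib.MP_5bcdfb_an.HM.Spec

set_option autoImplicit false

namespace Pool.Agent.Lib.MP5bcdfb.HM

open Pool.Agent.Lib.MP5bcdfb.TS (IsVal ContAt UCB)

namespace SLIM

theorem cl_apply {K : Type} [TopologicalSpace K] (m M : ℝ) (f : C(K, ℝ)) (t : K) :
    cl m M f t = max (min (f t) M) m := rfl

theorem lev_apply {K : Type} [TopologicalSpace K] (s κ : ℝ) (i : ℕ) (f : C(K, ℝ)) (t : K) :
    lev s κ i f t = max (min ((s * (κ ^ 2) ^ i)⁻¹ * f t) (κ ^ 2)) 1 := rfl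

theorem cl_eq {K : Type} [TopologicalSpace K] {s κ : ℝ} (hs : 0 < s) (hκ : 1 < κ) (i : ℕ)
    (f : C(K, ℝ)) : cl (s * (κ ^ 2) ^ i) (s * (κ ^ 2) ^ (i + 1)) f =
      (s * (κ ^ 2) ^ i) • lev s κ i f := by
  have hr : 0 < s * (κ ^ 2) ^ i := by positivity
  ext t
  rw [cl_apply, ContinuousMap.smul_apply, lev_apply, smul_eq_mul, mul_max_of_nonneg _ _ hr.le,
    mul_min_of_nonneg _ _ hr.le, mul_one, ← mul_assoc, mul_inv_cancel₀ hr.ne', one_mul]
  congr 2
  ring

theorem lev_one {K : Type} [TopologicalSpace K] {s κ : ℝ} (hs : 0 < s) (hκ : 1 < κ) (i : ℕ)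
    (f : C(K, ℝ)) (h : ∀ t, f t ≤ s * (κ ^ 2) ^ i) : lev s κ i f = 1 := by
  have hr : 0 < s * (κ ^ 2) ^ i := by positivity
  ext t
  rw [lev_apply]
  show _ = (1 : ℝ)
  apply max_eq_right
  refine (min_le_left _ _).trans ?_
  rw [inv_mul_le_iff₀ hr, mul_one]
  exact h t

theorem lev_nonneg {K : Type} [TopologicalSpace K] (s κ : ℝ) (i : ℕ) (f : C(K, ℝ)) :
    0 ≤ lev s κ i f := by
  intro t
  show (0 : ℝ) ≤ lev s κ i f t
  rw [lev_apply]
  exact zero_le_one.trans (le_max_right _ _)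

end SLIM

open SLIM

theorem specSLI (hTEL : SpecTEL) (hPAR : SpecPAR) : SpecSLI := by
  intro K _ V hV hH s κ η R hs hκ hR hη a g hag
  have hκ2 : 1 < κ ^ 2 := by nlinarith
  have hη0 : 0 ≤ η := by
    have := hη 1 (fun t => ⟨le_refl _, hκ2.le⟩)
    rw [sub_self, abs_zero] at this
    exact this
  obtain ⟨N, hN⟩ := pow_unbounded_of_one_lt (R / s) hκ2
  have hRN : R ≤ s * (κ ^ 2) ^ N := by
    rw [div_lt_iff₀ hs] at hN
    linarith
  let r : ℕ → ℝ := fun i => s * (κ ^ 2) ^ i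
  have hr0 : ∀ i, 0 < r i := fun i => by
    show 0 < s * (κ ^ 2) ^ i
    positivity
  have hrs : ∀ i, 0 ≤ r i ∧ r i ≤ r (i + 1) := by
    intro i
    refine ⟨(hr0 i).le, ?_⟩
    have h1 : r (i + 1) = r i * κ ^ 2 := by
      show s * (κ ^ 2) ^ (i + 1) = s * (κ ^ 2) ^ i * κ ^ 2
      ring
    rw [h1]
    exact le_mul_of_one_le_right (hr0 i).le hκ2.le
  have hr00 : r 0 = s := by
    show s * (κ ^ 2) ^ 0 = s
    rw [pow_zero, mul_one]
  have tg := hTEL K V hV r N g hrs (fun t => ⟨by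
    rw [hr00]; exact (hag t).1.trans (hag t).2.1, (hag t).2.2.2.trans hRN⟩)
  have ta := hTEL K V hV r N a hrs (fun t => ⟨by
    rw [hr00]; exact (hag t).1, ((hag t).2.1.trans (hag t).2.2.2).trans hRN⟩)
  have hdiff : V g - V a = ∑ i ∈ Finset.range N,
      r i * (V (lev s κ i g) - V (lev s κ i a)) := by
    have h1 : V g - V a = (V g - V (ContinuousMap.const K (r 0))) -
        (V a - V (ContinuousMap.const K (r 0))) := by ring
    rw [h1, tg, ta, ← Finset.sum_sub_distrib]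
    refine Finset.sum_congr rfl fun i _ => ?_
    have e1 : cl (r i) (r (i + 1)) g = r i • lev s κ i g := cl_eq hs hκ i g
    have e2 : cl (r i) (r (i + 1)) a = r i • lev s κ i a := cl_eq hs hκ i a
    rw [e1, e2, hH (r i) _ (hr0 i).le (lev_nonneg s κ i g),
      hH (r i) _ (hr0 i).le (lev_nonneg s κ i a)]
    ring
  have hterm : ∀ i, |r i * (V (lev s κ i g) - V (lev s κ i a))| ≤
      R * |V (lev s κ i g) - V (lev s κ i a)| := by
    intro i
    rw [abs_mul, abs_of_pos (hr0 i)]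
    by_cases hri : r i ≤ R
    · exact mul_le_mul_of_nonneg_right hri (abs_nonneg _)
    · have hri' : R ≤ s * (κ ^ 2) ^ i := (not_le.mp hri).le
      rw [lev_one hs hκ i g (fun t => (hag t).2.2.2.trans hri'),
        lev_one hs hκ i a (fun t => ((hag t).2.1.trans (hag t).2.2.2).trans hri'), sub_self,
        abs_zero, mul_zero, mul_zero]
  have p0 := hPAR K V hV s κ η hs hκ hη a g (fun t => ⟨(hag t).1, (hag t).2.1, (hag t).2.2.1⟩) N 0
  have p1 := hPAR K V hV s κ η hs hκ hη a g (fun t => ⟨(hag t).1, (hag t).2.1, (hag t).2.2.1⟩) N 1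
  have hsplit : ∑ i ∈ Finset.range N, |V (lev s κ i g) - V (lev s κ i a)| ≤ 8 * η := by
    rw [← Finset.sum_filter_add_sum_filter_not (Finset.range N) (fun i => i % 2 = 0)]
    have h1 : (Finset.range N).filter (fun i => ¬ i % 2 = 0) =
        (Finset.range N).filter (fun i => i % 2 = 1) := by
      apply Finset.filter_congr
      intro i _
      omega
    rw [h1]
    linarith
  rw [hdiff]
  calc |∑ i ∈ Finset.range N, r i * (V (lev s κ i g) - V (lev s κ i a))|
      ≤ ∑ i ∈ Finset.range N, |r i * (V (lev s κ i g) - V (lev s κ i a))| :=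
        Finset.abs_sum_le_sum_abs _ _
    _ ≤ ∑ i ∈ Finset.range N, R * |V (lev s κ i g) - V (lev s κ i a)| :=
        Finset.sum_le_sum fun i _ => hterm i
    _ = R * ∑ i ∈ Finset.range N, |V (lev s κ i g) - V (lev s κ i a)| := by
        rw [Finset.mul_sum]
    _ ≤ R * (8 * η) := mul_le_mul_of_nonneg_left hsplit hR
    _ = 8 * η * R := by ring

end Pool.Agent.Lib.MP5bcdfb.HM
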