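import Pool.Agent.Lib.MP_5bcdfb_an.HM.Spec

/-!
# MP_5bcdfb, part HM: module STP (helper40), step functions with the steps at good levels
-/

set_option autoImplicit false

namespace Pool.Agent.Lib.MP5bcdfb.HM

open Set TopologicalSpace Filter Topology
open Pool.Agent.Lib.MP5bcdfb.TS (IsVal ContAt UCB)

noncomputable section

namespace STPM

variable {K : Type} [TopologicalSpace K]

/-- the step function -/
def Fk (α β : ℝ) (N : ℕ) (x : ℕ → ℝ) (B : ℕ → C(K, ℝ)) : C(K, ℝ) :=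
  ∑ i ∈ Finset.range N, (α + β * x i) • B i

/-- the function between the step function and `α + β h` -/
def uk (α β e : ℝ) (h : C(K, ℝ)) (N : ℕ) (x : ℕ → ℝ) (B : ℕ → C(K, ℝ)) : C(K, ℝ) :=
  Fk α β N x B ⊔ (ContinuousMap.const K (α - e) + β • h)

lemma Fk_apply (α β : ℝ) (N : ℕ) (x : ℕ → ℝ) (B : ℕ → C(K, ℝ)) (t : K) :
    Fk α β N x B t = ∑ i ∈ Finset.range N, (α + β * x i) * B i t := by
  simp [Fk]

lemma uk_apply (α β e : ℝ) (h : C(K, ℝ)) (N : ℕ) (x : ℕ → ℝ) (B : ℕ → C(K, ℝ)) (t : K) :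
    uk α β e h N x B t = max (Fk α β N x B t) (α - e + β * h t) := by
  simp [uk]

lemma Fk_nonneg {α β : ℝ} {N : ℕ} {x : ℕ → ℝ} {B : ℕ → C(K, ℝ)} (hα : 0 ≤ α) (hβ : 0 ≤ β)
    (hx : ∀ i, 0 ≤ x i) (hB : ∀ i, 0 ≤ B i) (t : K) : 0 ≤ Fk α β N x B t := by
  rw [Fk_apply]
  exact Finset.sum_nonneg fun i _ => mul_nonneg (add_nonneg hα (mul_nonneg hβ (hx i))) (hB i t)

lemma Fk_le {α β e : ℝ} {h : C(K, ℝ)} {N : ℕ} {x : ℕ → ℝ} {B : ℕ → C(K, ℝ)} (hα : 0 ≤ α)
    (hβ : 0 ≤ β) (h0 : 0 ≤ h) (hx : ∀ i, 0 ≤ x i) (hB1 : ∀ i t, B i t ≤ 1)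
    (hdis : ∀ i j, i ≠ j → ∀ t, B i t = 0 ∨ B j t = 0)
    (hcell : ∀ i t, B i t ≠ 0 → x i ≤ h t ∧ h t ≤ x i + e) (t : K) :
    Fk α β N x B t ≤ α + β * h t := by
  rw [Fk_apply]
  by_cases hex : ∃ i ∈ Finset.range N, B i t ≠ 0
  · obtain ⟨i, hi, hne⟩ := hex
    rw [Finset.sum_eq_single_of_mem i hi]
    · have h1 : x i ≤ h t := (hcell i t hne).1
      have h2 : B i t ≤ 1 := hB1 i t
      have h3 : 0 ≤ α + β * x i := add_nonneg hα (mul_nonneg hβ (hx i))
      have h4 : β * x i ≤ β * h t := mul_le_mul_of_nonneg_left h1 hβ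
      have h5 : (α + β * x i) * B i t ≤ (α + β * x i) * 1 := mul_le_mul_of_nonneg_left h2 h3
      linarith
    · intro j _ hj
      rcases hdis i j (Ne.symm hj) t with h | h
      · exact absurd h hne
      · rw [h, mul_zero]
  · push Not at hex
    rw [Finset.sum_eq_zero fun i hi => by rw [hex i hi, mul_zero]]
    exact add_nonneg hα (mul_nonneg hβ (h0 t))

lemma Fk_eq {α β : ℝ} {N : ℕ} {x : ℕ → ℝ} {B : ℕ → C(K, ℝ)}
    (hdis : ∀ i j, i ≠ j → ∀ t, B i t = 0 ∨ B j t = 0) {t : K} {i : ℕ} (hi : i < N)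
    (h1 : B i t = 1) : Fk α β N x B t = α + β * x i := by
  rw [Fk_apply, Finset.sum_eq_single_of_mem i (Finset.mem_range.2 hi)]
  · rw [h1, mul_one]
  · intro j _ hj
    rcases hdis i j (Ne.symm hj) t with h | h
    · rw [h1] at h
      exact absurd h one_ne_zero
    · rw [h, mul_zero]

/-- The estimate of the module for one of the three functions `α + β h`. -/
lemma est (hDIS : SpecDIS) {V : C(K, ℝ) → ℝ} (hV : IsVal V) (hH : Hom1 V) {h : C(K, ℝ)}
    {R e C : ℝ} {M N : ℕ} (h0 : 0 ≤ h) (hR : 0 ≤ R) (hhR : ∀ t, h t ≤ R) (he : 0 < e)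
    (hC : ∀ x : C(K, ℝ), 0 ≤ x → (∀ t, x t ≤ R + 1) → |V x| ≤ C) {x : ℕ → ℕ → ℝ}
    {B : ℕ → ℕ → C(K, ℝ)} {D : ℕ → C(K, ℝ)} (hx : ∀ k i, 0 ≤ x k i) (hB : ∀ k i, 0 ≤ B k i)
    (hB1 : ∀ k i t, B k i t ≤ 1) (hD : ∀ k, 0 ≤ D k)
    (hdis : ∀ k < M, ∀ i j, i ≠ j → ∀ t, B k i t = 0 ∨ B k j t = 0)
    (hcell : ∀ k < M, ∀ i t, B k i t ≠ 0 → x k i ≤ h t ∧ h t ≤ x k i + e)
    (hcov : ∀ k < M, ∀ t, (∃ i < N, B k i t = 1) ∨ 1 ≤ D k t)
    (hDd : ∀ k < M, ∀ l < M, k ≠ l → ∀ t, D k t = 0 ∨ D l t = 0) {α β : ℝ} (hα0 : 0 ≤ α)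
    (hα1 : α ≤ 1) (hβ0 : 0 ≤ β) (hβ1 : β ≤ 1) :
    ∑ k ∈ Finset.range M, |V (uk α β e h N (x k) (B k)) - V (Fk α β N (x k) (B k))| ≤ 4 * C := by
  have hV0 : V 0 = 0 := by
    have := hH 0 0 le_rfl le_rfl
    rwa [zero_smul, zero_mul] at this
  have hF0 : ∀ k t, 0 ≤ Fk α β N (x k) (B k) t := fun k t => Fk_nonneg hα0 hβ0 (hx k) (hB k) t
  have hFle : ∀ k < M, ∀ t, Fk α β N (x k) (B k) t ≤ α + β * h t := fun k hk t =>
    Fk_le hα0 hβ0 h0 (hx k) (hB1 k) (hdis k hk) (hcell k hk) t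
  have hφ : ∀ t, α + β * h t ≤ R + 1 := by
    intro t
    have h1 : β * h t ≤ 1 * h t := mul_le_mul_of_nonneg_right hβ1 (h0 t)
    have h2 := hhR t
    linarith
  have hule : ∀ k < M, ∀ t, uk α β e h N (x k) (B k) t ≤ α + β * h t := by
    intro k hk t
    rw [uk_apply]
    exact max_le (hFle k hk t) (by linarith)
  have hFu : ∀ k t, Fk α β N (x k) (B k) t ≤ uk α β e h N (x k) (B k) t := by
    intro k t
    rw [uk_apply]
    exact le_max_left _ _
  refine hDIS K V hV 0 (R + 1) C (Finset.range M) (fun k => uk α β e h N (x k) (B k))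
    (fun k => Fk α β N (x k) (B k)) (fun k => (R + 1) • D k) le_rfl ?_ ?_ ?_ ?_ ?_ ?_
  · intro t
    change (0 : ℝ) ≤ R + 1
    linarith
  · intro k _
    refine ⟨fun t => (hF0 k t).trans (hFu k t), fun t => hF0 k t, fun t => ?_⟩
    exact mul_nonneg (by linarith) (hD k t)
  · intro k hk t
    rw [Finset.mem_range] at hk
    exact ⟨(hule k hk t).trans (hφ t), (hFle k hk t).trans (hφ t)⟩
  · intro k hk t
    rw [Finset.mem_range] at hk
    rcases hcov k hk t with ⟨i, hi, h1⟩ | h1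
    · left
      have h2 : Fk α β N (x k) (B k) t = α + β * x k i := Fk_eq (hdis k hk) hi h1
      have h3 : h t ≤ x k i + e := (hcell k hk i t (by rw [h1]; exact one_ne_zero)).2
      have h4 : β * h t ≤ β * (x k i + e) := mul_le_mul_of_nonneg_left h3 hβ0
      have h5 : β * e ≤ 1 * e := mul_le_mul_of_nonneg_right hβ1 he.le
      change uk α β e h N (x k) (B k) t = Fk α β N (x k) (B k) t
      rw [uk_apply, h2]
      apply max_eq_left
      linarith
    · right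
      have h2 : R + 1 ≤ (R + 1) * D k t := by
        have : (R + 1) * 1 ≤ (R + 1) * D k t := mul_le_mul_of_nonneg_left h1 (by linarith)
        linarith
      exact ⟨((hule k hk t).trans (hφ t)).trans h2, ((hFle k hk t).trans (hφ t)).trans h2⟩
  · intro k hk l hl hkl t
    rw [Finset.mem_range] at hk hl
    rcases hDd k hk l hl hkl t with h1 | h1
    · left
      have h2 : ((R + 1) • D k) t = 0 := by
        change (R + 1) * D k t = 0
        rw [h1, mul_zero]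
      refine ⟨?_, ?_⟩
      · change min _ (((R + 1) • D k) t) ≤ 0
        rw [h2]
        exact min_le_right _ _
      · change min _ (((R + 1) • D k) t) ≤ 0
        rw [h2]
        exact min_le_right _ _
    · right
      have h2 : ((R + 1) • D l) t = 0 := by
        change (R + 1) * D l t = 0
        rw [h1, mul_zero]
      refine ⟨?_, ?_⟩
      · change min _ (((R + 1) • D l) t) ≤ 0
        rw [h2]
        exact min_le_right _ _
      · change min _ (((R + 1) • D l) t) ≤ 0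
        rw [h2]
        exact min_le_right _ _
  · intro y hy hyR
    rw [hV0, sub_zero]
    exact hC y hy hyR

end STPM

open STPM

theorem specSTP (hDIS : SpecDIS) (hSUM : SpecSUM) (hGRD : SpecGRD) : SpecSTP := by
  intro K _ V hV hH h R e C M h0 hR hhR he he1 hM hC
  obtain ⟨N, x, B, D, hx, hB, hB1, hD, hdis, hcell, hcov, hDd⟩ := hGRD K h R e M h0 hhR he hM
  have hM' : (0 : ℝ) < M := by exact_mod_cast hM
  have hest : ∀ α β : ℝ, 0 ≤ α → α ≤ 1 → 0 ≤ β → β ≤ 1 →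
      ∑ k ∈ Finset.range M, |V (uk α β e h N (x k) (B k)) - V (Fk α β N (x k) (B k))| ≤ 4 * C :=
    fun α β h1 h2 h3 h4 =>
      est hDIS hV hH h0 hR hhR he hC hx hB hB1 hD hdis hcell hcov hDd h1 h2 h3 h4
  have hsum : ∀ k < M, ∀ α β : ℝ, 0 ≤ α → 0 ≤ β → V (Fk α β N (x k) (B k)) =
      ∑ i ∈ Finset.range N, (α + β * x k i) * V (B k i) := by
    intro k hk α β hα hβ
    exact hSUM K V hV hH (Finset.range N) (B k) (fun i => α + β * x k i) (fun i _ => hB k i)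
      (fun i _ => add_nonneg hα (mul_nonneg hβ (hx k i))) (fun i _ j _ hij t => hdis k hk i j hij t)
  have hprop : ∀ k < M, ∀ α β : ℝ, 0 ≤ α → 0 ≤ β → 0 ≤ uk α β e h N (x k) (B k) ∧
      ∀ t, uk α β e h N (x k) (B k) t ≤ α + β * h t ∧
        α + β * h t ≤ uk α β e h N (x k) (B k) t + e := by
    intro k hk α β hα hβ
    refine ⟨fun t => ?_, fun t => ?_⟩
    · change (0 : ℝ) ≤ uk α β e h N (x k) (B k) t
      rw [uk_apply]
      exact le_max_of_le_left (Fk_nonneg hα hβ (hx k) (hB k) t)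
    · rw [uk_apply]
      refine ⟨max_le (Fk_le hα hβ h0 (hx k) (hB1 k) (hdis k hk) (hcell k hk) t) (by linarith), ?_⟩
      have := le_max_right (Fk α β N (x k) (B k) t) (α - e + β * h t)
      linarith
  obtain ⟨k, hk, hle⟩ : ∃ k ∈ Finset.range M,
      (|V (uk 1 0 e h N (x k) (B k)) - V (Fk 1 0 N (x k) (B k))| +
        |V (uk 0 1 e h N (x k) (B k)) - V (Fk 0 1 N (x k) (B k))| +
        |V (uk 1 1 e h N (x k) (B k)) - V (Fk 1 1 N (x k) (B k))|) ≤ 12 * C / M := by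
    apply Finset.exists_le_of_sum_le ⟨0, Finset.mem_range.2 hM⟩
    rw [Finset.sum_add_distrib, Finset.sum_add_distrib, Finset.sum_const, Finset.card_range,
      nsmul_eq_mul, mul_div_cancel₀ _ hM'.ne']
    have h1 := hest 1 0 zero_le_one le_rfl le_rfl zero_le_one
    have h2 := hest 0 1 le_rfl zero_le_one zero_le_one le_rfl
    have h3 := hest 1 1 zero_le_one le_rfl zero_le_one le_rfl
    linarith
  rw [Finset.mem_range] at hk
  obtain ⟨p1, q1⟩ := hprop k hk 1 0 zero_le_one le_rfl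
  obtain ⟨p2, q2⟩ := hprop k hk 0 1 le_rfl zero_le_one
  obtain ⟨p3, q3⟩ := hprop k hk 1 1 zero_le_one zero_le_one
  refine ⟨uk 1 0 e h N (x k) (B k), uk 0 1 e h N (x k) (B k), uk 1 1 e h N (x k) (B k), p1, p2, p3,
    fun t => ?_, fun t => ?_, fun t => ?_, ?_⟩
  · have := q1 t
    rw [zero_mul, add_zero] at this
    exact this
  · have := q2 t
    rw [one_mul, zero_add] at this
    exact this
  · have := q3 t
    rw [one_mul] at this
    exact this
  · have hs : V (Fk 1 1 N (x k) (B k)) = V (Fk 1 0 N (x k) (B k)) + V (Fk 0 1 N (x k) (B k)) := by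
      rw [hsum k hk 1 1 zero_le_one zero_le_one, hsum k hk 1 0 zero_le_one le_rfl,
        hsum k hk 0 1 le_rfl zero_le_one, ← Finset.sum_add_distrib]
      refine Finset.sum_congr rfl fun i _ => ?_
      ring
    rw [abs_le]
    have a1 := abs_le.1 (le_refl |V (uk 1 0 e h N (x k) (B k)) - V (Fk 1 0 N (x k) (B k))|)
    have a2 := abs_le.1 (le_refl |V (uk 0 1 e h N (x k) (B k)) - V (Fk 0 1 N (x k) (B k))|)
    have a3 := abs_le.1 (le_refl |V (uk 1 1 e h N (x k) (B k)) - V (Fk 1 1 N (x k) (B k))|)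
    constructor
    · linarith [a1.1, a1.2, a2.1, a2.2, a3.1, a3.2]
    · linarith [a1.1, a1.2, a2.1, a2.2, a3.1, a3.2]

end

end Pool.Agent.Lib.MP5bcdfb.HM
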