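import Pool.Agent.Lib.MP_5bcdfb_an.HM.Spec

/-! Module SUM: disjoint sums. -/

set_option autoImplicit false

namespace Pool.Agent.Lib.MP5bcdfb.HM

open Set TopologicalSpace Filter Topology
open Pool.Agent.Lib.MP5bcdfb.TS (IsVal ContAt UCB)

namespace SUMM

theorem add_disj {K : Type} [TopologicalSpace K] (V : C(K, ℝ) → ℝ) (hV : IsVal V) (h0 : V 0 = 0) (x y : C(K, ℝ))
    (hx : 0 ≤ x) (hy : 0 ≤ y) (h : ∀ t, x t = 0 ∨ y t = 0) : V (x + y) = V x + V y := by
  have hx' : ∀ t, 0 ≤ x t := fun t => hx t
  have hy' : ∀ t, 0 ≤ y t := fun t => hy t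
  have e1 : x ⊔ y = x + y := by
    ext t
    simp only [ContinuousMap.sup_apply, ContinuousMap.add_apply]
    rcases h t with h | h
    · rw [h, zero_add]; exact max_eq_right (hy' t)
    · rw [h, add_zero]; exact max_eq_left (hx' t)
  have e2 : x ⊓ y = 0 := by
    ext t
    simp only [ContinuousMap.inf_apply, ContinuousMap.zero_apply]
    rcases h t with h | h
    · rw [h]; exact min_eq_left (hy' t)
    · rw [h]; exact min_eq_right (hx' t)
  have := hV x y hx hy
  rw [e1, e2, h0] at this
  linarith

end SUMM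

theorem specSUM : SpecSUM := by
  intro K _ V hV hH s B c hB hc hd
  have h0 : V 0 = 0 := by
    have := hH 0 0 le_rfl le_rfl
    simpa using this
  classical
  induction s using Finset.induction_on with
  | empty => simpa using h0
  | insert a s ha ih =>
    rw [Finset.sum_insert ha, Finset.sum_insert ha]
    have hBa : 0 ≤ B a := hB a (Finset.mem_insert_self _ _)
    have hca : 0 ≤ c a := hc a (Finset.mem_insert_self _ _)
    have hBs : ∀ i ∈ s, 0 ≤ B i := fun i hi => hB i (Finset.mem_insert_of_mem hi)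
    have hcs : ∀ i ∈ s, 0 ≤ c i := fun i hi => hc i (Finset.mem_insert_of_mem hi)
    have hx : 0 ≤ c a • B a := smul_nonneg hca hBa
    have hy : 0 ≤ ∑ i ∈ s, c i • B i := Finset.sum_nonneg (fun i hi => smul_nonneg (hcs i hi) (hBs i hi))
    rw [SUMM.add_disj V hV h0 _ _ hx hy ?_, hH _ _ hca hBa,
      ih hBs hcs (fun i hi j hj hij => hd i (Finset.mem_insert_of_mem hi) j (Finset.mem_insert_of_mem hj) hij)]
    intro t
    by_cases hat : B a t = 0
    · left; simp [hat]
    · right
      rw [ContinuousMap.sum_apply]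
      refine Finset.sum_eq_zero (fun i hi => ?_)
      have hne : a ≠ i := by rintro rfl; exact ha hi
      rcases hd a (Finset.mem_insert_self _ _) i (Finset.mem_insert_of_mem hi) hne t with h | h
      · exact absurd h hat
      · simp [h]

end Pool.Agent.Lib.MP5bcdfb.HM
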