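import Pool.Agent.Lib.MP_5bcdfb_an.HM.Spec

/-! # Module TEL: slices -/

set_option autoImplicit false

namespace Pool.Agent.Lib.MP5bcdfb.HM

open Set TopologicalSpace Filter Topology
open Pool.Agent.Lib.MP5bcdfb.TS (IsVal ContAt UCB)

theorem specTEL : SpecTEL := by
  intro K _ V hV r N f hr hf
  have hf0 : 0 ≤ f := by
    intro t
    exact (hr 0).1.trans (hf t).1
  have hc0 : ∀ n, (0 : C(K, ℝ)) ≤ ContinuousMap.const K (r n) := fun n t => (hr n).1
  have key : ∀ n : ℕ, V (f ⊓ ContinuousMap.const K (r n)) - V (ContinuousMap.const K (r 0)) =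
      ∑ i ∈ Finset.range n, (V (cl (r i) (r (i + 1)) f) - V (ContinuousMap.const K (r i))) := by
    intro n
    induction n with
    | zero =>
      have h1 : f ⊓ ContinuousMap.const K (r 0) = ContinuousMap.const K (r 0) := by
        apply inf_eq_right.2
        intro t
        exact (hf t).1
      rw [h1, Finset.sum_range_zero, sub_self]
    | succ n ih =>
      rw [Finset.sum_range_succ, ← ih]
      have h1 := hV (f ⊓ ContinuousMap.const K (r (n + 1))) (ContinuousMap.const K (r n))
        (le_inf hf0 (hc0 (n + 1))) (hc0 n)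
      have h2 : (f ⊓ ContinuousMap.const K (r (n + 1))) ⊓ ContinuousMap.const K (r n) =
          f ⊓ ContinuousMap.const K (r n) := by
        rw [inf_assoc]
        congr 1
        apply inf_eq_right.2
        intro t
        exact (hr n).2
      rw [h2] at h1
      unfold cl
      linarith
  have h3 : f ⊓ ContinuousMap.const K (r N) = f := by
    apply inf_eq_left.2
    intro t
    exact (hf t).2
  have h4 := key N
  rw [h3] at h4
  exact h4

end Pool.Agent.Lib.MP5bcdfb.HM
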