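import Pool.Agent.Lib.MP_5bcdfb_an.HM.Spec

/-!
# MP_5bcdfb: UC1, uniform continuity on bounded sets (helper23)
-/

set_option autoImplicit false

namespace Pool.Agent.Lib.MP5bcdfb.HM

open Set TopologicalSpace Filter Topology
open Pool.Agent.Lib.MP5bcdfb.TS (IsVal ContAt UCB)

theorem specUC1 (hBDO : SpecBDO) (hSLI : SpecSLI) : SpecUC1 := by
  intro K _ _ V hV hH h0 h1 m ε hm hε
  obtain ⟨C, hC0, -, hC⟩ := hBDO K V hV hH h0
  obtain ⟨s, hs⟩ : ∃ s : ℝ, s = ε / (8 * (C + 1)) := ⟨_, rfl⟩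
  have hs0 : 0 < s := by rw [hs]; positivity
  obtain ⟨R, hR⟩ : ∃ R : ℝ, R = m + s := ⟨_, rfl⟩
  have hR0 : 0 < R := by rw [hR]; positivity
  obtain ⟨η, hη⟩ : ∃ η : ℝ, η = ε / (32 * R) := ⟨_, rfl⟩
  have hη0 : 0 < η := by rw [hη]; positivity
  obtain ⟨ρ, hρ0, hρ⟩ := h1 η hη0
  obtain ⟨μ, hμ⟩ : ∃ μ : ℝ, μ = min 1 ρ / 4 := ⟨_, rfl⟩
  have hμ0 : 0 < μ := by
    rw [hμ]
    have : 0 < min 1 ρ := lt_min one_pos hρ0
    positivity
  have hμ1 : μ ≤ 1 / 4 := by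
    have := min_le_left 1 ρ
    rw [hμ]; linarith
  have hμ2 : μ ≤ ρ / 4 := by
    have := min_le_right 1 ρ
    rw [hμ]; linarith
  obtain ⟨κ, hκ⟩ : ∃ κ : ℝ, κ = 1 + μ := ⟨_, rfl⟩
  have hκ1 : 1 < κ := by rw [hκ]; linarith
  have hκ2 : κ ^ 2 - 1 < ρ := by
    rw [hκ]
    nlinarith
  have hx : ∀ x : C(K, ℝ), (∀ t, 1 ≤ x t ∧ x t ≤ κ ^ 2) → |V x - V 1| ≤ η := by
    intro x hx
    refine (hρ x (fun t => ?_) ?_).le
    · show (0 : ℝ) ≤ x t
      linarith [(hx t).1]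
    · rw [ContinuousMap.norm_lt_iff _ hρ0]
      intro t
      rw [Real.norm_eq_abs]
      show |x t - 1| < ρ
      rw [abs_of_nonneg (by linarith [(hx t).1])]
      linarith [(hx t).2]
  refine ⟨(κ - 1) * s, mul_pos (by linarith) hs0, ?_⟩
  intro f g hf hg hfm hgm hfg
  have hpt : ∀ t, |f t - g t| ≤ (κ - 1) * s := by
    intro t
    have h2 := (f - g).norm_coe_le_norm t
    rw [Real.norm_eq_abs] at h2
    exact (h2.trans hfg.le)
  have hfR : ∀ t, f t ≤ R := by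
    intro t
    have h2 := f.norm_coe_le_norm t
    rw [Real.norm_eq_abs] at h2
    have h3 := le_abs_self (f t)
    rw [hR]; linarith
  have hgR : ∀ t, g t ≤ R := by
    intro t
    have h2 := g.norm_coe_le_norm t
    rw [Real.norm_eq_abs] at h2
    have h3 := le_abs_self (g t)
    rw [hR]; linarith
  have hsR : s ≤ R := by rw [hR]; linarith
  obtain ⟨f', hf'⟩ : ∃ f' : C(K, ℝ), f' = f ⊔ ContinuousMap.const K s := ⟨_, rfl⟩
  obtain ⟨g', hg'⟩ : ∃ g' : C(K, ℝ), g' = g ⊔ ContinuousMap.const K s := ⟨_, rfl⟩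
  have ef : ∀ t, f' t = max (f t) s := fun t => by rw [hf']; rfl
  have eg : ∀ t, g' t = max (g t) s := fun t => by rw [hg']; rfl
  have ea : ∀ t, (f' ⊓ g') t = min (f' t) (g' t) := fun t => rfl
  have key : ∀ t, s ≤ (f' ⊓ g') t ∧ (f' ⊓ g') t ≤ f' t ∧ (f' ⊓ g') t ≤ g' t ∧
      f' t ≤ (f' ⊓ g') t + (κ - 1) * s ∧ g' t ≤ (f' ⊓ g') t + (κ - 1) * s ∧ f' t ≤ R ∧ g' t ≤ R := by
    intro t
    have h2 := abs_le.mp (hpt t)
    have h3 : 0 ≤ (κ - 1) * s := (mul_pos (by linarith) hs0).le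
    have h4 : f' t ≤ g' t + (κ - 1) * s := by
      rw [ef, eg]
      refine max_le ?_ ?_
      · have := le_max_left (g t) s
        linarith
      · have := le_max_right (g t) s
        linarith
    have h5 : g' t ≤ f' t + (κ - 1) * s := by
      rw [ef, eg]
      refine max_le ?_ ?_
      · have := le_max_left (f t) s
        linarith
      · have := le_max_right (f t) s
        linarith
    rw [ea]
    refine ⟨le_min ?_ ?_, min_le_left _ _, min_le_right _ _, ?_, ?_, ?_, ?_⟩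
    · rw [ef]; exact le_max_right _ _
    · rw [eg]; exact le_max_right _ _
    · rcases min_choice (f' t) (g' t) with h | h
      · rw [h]; linarith
      · rw [h]; exact h4
    · rcases min_choice (f' t) (g' t) with h | h
      · rw [h]; exact h5
      · rw [h]; linarith
    · rw [ef]; exact max_le (hfR t) hsR
    · rw [eg]; exact max_le (hgR t) hsR
  have hmul : ∀ t, (f' ⊓ g') t + (κ - 1) * s ≤ κ * (f' ⊓ g') t := by
    intro t
    have h2 := mul_le_mul_of_nonneg_left (key t).1 (show (0 : ℝ) ≤ κ - 1 by linarith)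
    nlinarith
  have h2 := hSLI K V hV hH s κ η R hs0 hκ1 hR0.le hx (f' ⊓ g') f' (fun t =>
    ⟨(key t).1, (key t).2.1, (key t).2.2.2.1.trans (hmul t), (key t).2.2.2.2.2.1⟩)
  have h3 := hSLI K V hV hH s κ η R hs0 hκ1 hR0.le hx (f' ⊓ g') g' (fun t =>
    ⟨(key t).1, (key t).2.2.1, (key t).2.2.2.2.1.trans (hmul t), (key t).2.2.2.2.2.2⟩)
  have h4 := hC f s hf hs0.le
  have h5 := hC g s hg hs0.le
  rw [← hf'] at h4
  rw [← hg'] at h5
  have h6 : 4 * C * s ≤ ε / 2 := by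
    have e1 : s * (8 * (C + 1)) = ε := by
      rw [hs]; field_simp
    nlinarith
  have h7 : 16 * η * R = ε / 2 := by
    rw [hη]; field_simp; norm_num
  rw [abs_le] at h2 h3 h4 h5 ⊢
  constructor <;> linarith [h2.1, h2.2, h3.1, h3.2, h4.1, h4.2, h5.1, h5.2]

end Pool.Agent.Lib.MP5bcdfb.HM
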