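import Pool.Agent.Lib.MP_5bcdfb_an.HM.Fin
import Pool.Agent.Lib.MP_5bcdfb_an.HM.DIS
import Pool.Agent.Lib.MP_5bcdfb_an.HM.BDO
import Pool.Agent.Lib.MP_5bcdfb_an.HM.TEL
import Pool.Agent.Lib.MP_5bcdfb_an.HM.PAR
import Pool.Agent.Lib.MP_5bcdfb_an.HM.SLI
import Pool.Agent.Lib.MP_5bcdfb_an.HM.UC1
import Pool.Agent.Lib.MP_5bcdfb_an.HM.SUM
import Pool.Agent.Lib.MP_5bcdfb_an.HM.GRD
import Pool.Agent.Lib.MP_5bcdfb_an.HM.STP
import Pool.Agent.Lib.MP_5bcdfb_an.HM.ONE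
import Pool.Agent.Lib.MP_5bcdfb_an.HM.ADC
import Pool.Agent.Lib.MP_5bcdfb_an.HM.EXL
import Pool.Agent.Lib.MP_5bcdfb_an.HM.PWR
import Pool.Agent.Lib.MP_5bcdfb_an.HM.CNV
import Pool.Agent.Lib.MP_5bcdfb_an.HM.EX1
import Pool.Agent.Lib.MP_5bcdfb_an.HM.EX2

/-!
# MP_5bcdfb, HM: assembly of the modules
-/

set_option autoImplicit false

namespace Pool.Agent.Lib.MP5bcdfb.HM

theorem allPAR : SpecPAR := specPAR specDIS

theorem allUC1 : SpecUC1 := specUC1 specBDO (specSLI specTEL allPAR)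

theorem allADC : SpecADC := specADC (specONE specBDO (specSTP specDIS specSUM specGRD))

end Pool.Agent.Lib.MP5bcdfb.HM
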