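import Pool.Agent.Lib.MP_5bcdfb_an.HM.Spec

/-! Module ONE (helper99): `V (1 + h) = V 1 + V h`. -/

set_option autoImplicit false

namespace Pool.Agent.Lib.MP5bcdfb.HM

open Set TopologicalSpace Filter Topology
open Pool.Agent.Lib.MP5bcdfb.TS (IsVal ContAt UCB)

namespace ONEM

variable {K : Type} [TopologicalSpace K] [CompactSpace K]

theorem norm_le_of (f : C(K, ℝ)) (hf : 0 ≤ f) (m : ℝ) (hm : 0 ≤ m) (h : ∀ t, f t ≤ m) :
    ‖f‖ ≤ m := by
  rw [ContinuousMap.norm_le _ hm]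
  intro t
  have h0 : 0 ≤ f t := hf t
  rw [Real.norm_eq_abs, abs_of_nonneg h0]
  exact h t

theorem norm_sub_lt (f u : C(K, ℝ)) (e δ : ℝ) (he : 0 ≤ e) (hδ : e < δ)
    (h : ∀ t, u t ≤ f t ∧ f t ≤ u t + e) : ‖u - f‖ < δ := by
  refine lt_of_le_of_lt ((ContinuousMap.norm_le _ he).2 fun t => ?_) hδ
  rw [ContinuousMap.sub_apply, Real.norm_eq_abs, abs_le]
  constructor <;> linarith [(h t).1, (h t).2]

end ONEM

theorem specONE (hBDO : SpecBDO) (hSTP : SpecSTP) : SpecONE := by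
  intro K _ _ V hV hH h0 hU h hh
  obtain ⟨C', hC'0, hC', -⟩ := hBDO K V hV hH h0
  have hR : 0 ≤ ‖h‖ := norm_nonneg _
  have hhR : ∀ t, h t ≤ ‖h‖ := fun t => (le_abs_self _).trans (h.norm_coe_le_norm t)
  have key : ∀ ε : ℝ, 0 < ε → |V (1 + h) - V 1 - V h| ≤ 4 * ε := by
    intro ε hε
    obtain ⟨δ, hδ, hUδ⟩ := hU (‖h‖ + 1) ε (by positivity) hε
    obtain ⟨M, hM⟩ := exists_nat_ge (12 * (C' * (‖h‖ + 1)) / ε + 1)
    have hA : 0 ≤ 12 * (C' * (‖h‖ + 1)) / ε := by positivity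
    have hM1 : (0 : ℝ) < M := by linarith
    have hM0 : 0 < M := by exact_mod_cast hM1
    have he : 0 < min 1 (δ / 2) := lt_min one_pos (by linarith)
    have heδ : min 1 (δ / 2) < δ := (min_le_right _ _).trans_lt (by linarith)
    obtain ⟨u₁, u₂, u₃, p1, p2, p3, q1, q2, q3, hu⟩ := hSTP K V hV hH h ‖h‖ (min 1 (δ / 2))
      (C' * (‖h‖ + 1)) M hh hR hhR he (min_le_left _ _) hM0
      (fun x hx hxt => (hC' x hx).trans
        (mul_le_mul_of_nonneg_left (ONEM.norm_le_of x hx _ (by positivity) hxt) hC'0))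
    have hMε : 12 * (C' * (‖h‖ + 1)) / M ≤ ε := by
      rw [div_le_iff₀ hM1]
      have h1 : 12 * (C' * (‖h‖ + 1)) / ε ≤ M := by linarith
      rw [div_le_iff₀ hε] at h1
      linarith
    have h1h : (0 : C(K, ℝ)) ≤ 1 + h := add_nonneg zero_le_one hh
    have e1 : |V u₁ - V 1| ≤ ε := by
      refine hUδ u₁ 1 p1 zero_le_one ?_ ?_
        (ONEM.norm_sub_lt 1 u₁ _ δ he.le heδ fun t => ⟨(q1 t).1, (q1 t).2⟩)
      · exact ONEM.norm_le_of u₁ p1 _ (by positivity) fun t => by linarith [(q1 t).1]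
      · refine ONEM.norm_le_of 1 zero_le_one _ (by positivity) fun t => ?_
        rw [ContinuousMap.one_apply]
        linarith
    have e2 : |V u₂ - V h| ≤ ε := by
      refine hUδ u₂ h p2 hh ?_ ?_
        (ONEM.norm_sub_lt h u₂ _ δ he.le heδ fun t => ⟨(q2 t).1, (q2 t).2⟩)
      · exact ONEM.norm_le_of u₂ p2 _ (by positivity) fun t => by
          linarith [(q2 t).1, hhR t]
      · linarith
    have e3 : |V u₃ - V (1 + h)| ≤ ε := by
      refine hUδ u₃ (1 + h) p3 h1h ?_ ?_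
        (ONEM.norm_sub_lt (1 + h) u₃ _ δ he.le heδ fun t => ⟨(q3 t).1, (q3 t).2⟩)
      · exact ONEM.norm_le_of u₃ p3 _ (by positivity) fun t => by
          linarith [(q3 t).1, hhR t]
      · refine ONEM.norm_le_of (1 + h) h1h _ (by positivity) fun t => ?_
        rw [ContinuousMap.add_apply, ContinuousMap.one_apply]
        linarith [hhR t]
    have e4 : |V u₃ - V u₁ - V u₂| ≤ ε := hu.trans hMε
    rw [abs_le] at e1 e2 e3 e4 ⊢
    constructor <;> linarith [e1.1, e1.2, e2.1, e2.2, e3.1, e3.2, e4.1, e4.2]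
  by_contra hne
  have h1 : 0 < |V (1 + h) - V 1 - V h| := by
    rw [abs_pos]
    intro h2
    exact hne (by linarith)
  have h2 := key (|V (1 + h) - V 1 - V h| / 8) (by positivity)
  linarith

end Pool.Agent.Lib.MP5bcdfb.HM
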