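import Mathlib
import Pool.Agent.Lib.MP_5bcdfb_an.TS.Sph

/-!
# MP_5bcdfb, HM: linear maps on `C(S^(n-1))` which are invariant under the orthogonal group

If a bounded linear map on `C(S^(n-1))` is invariant under all linear isometries and vanishes at `1`, then it is `0`: averages of
finitely many functions `f ∘ R` are nearly constant.
-/

set_option autoImplicit false

namespace Pool.Agent.Lib.MP5bcdfb.HM

open Set Filter Topology
open Pool.Agent.Lib.MP5bcdfb.TS (Sph)

noncomputable section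

/-- the linear isometries of `ℝ^n` -/
abbrev Orth (n : ℕ) : Type := EuclideanSpace ℝ (Fin n) ≃ₗᵢ[ℝ] EuclideanSpace ℝ (Fin n)

/-- the map of the sphere `S^(n-1)` given by the linear isometry `R` -/
def rot {n : ℕ} (R : Orth n) : C(Sph n, Sph n) where
  toFun x := (⟨R x.1, by
    have hx : x.1 ∈ Metric.sphere (0 : EuclideanSpace ℝ (Fin n)) 1 := x.2
    rw [mem_sphere_zero_iff_norm] at hx ⊢
    rw [R.norm_map, hx]⟩ : Metric.sphere (0 : EuclideanSpace ℝ (Fin n)) 1)
  continuous_toFun := by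
    refine Continuous.subtype_mk ?_ _
    exact R.continuous.comp continuous_subtype_val

theorem rot_dist {n : ℕ} (R : Orth n) (x y : Sph n) : dist (rot R x) (rot R y) = dist x y := by
  change dist (R x.1) (R y.1) = dist x.1 y.1
  exact R.dist_map _ _

theorem rot_trans {n : ℕ} (x y : Sph n) : ∃ R : Orth n, rot R x = y := by
  have hx : ‖x.1‖ = 1 := mem_sphere_zero_iff_norm.1 x.2
  have hy : ‖y.1‖ = 1 := mem_sphere_zero_iff_norm.1 y.2
  refine ⟨Submodule.reflection (Submodule.span ℝ {x.1 - y.1})ᗮ, ?_⟩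
  apply Subtype.ext
  exact Submodule.reflection_sub (by rw [hx, hy])

theorem rot_comp {n : ℕ} (R S : Orth n) (f : C(Sph n, ℝ)) : (f.comp (rot R)).comp (rot S) = f.comp (rot (S.trans R)) := by
  ext x
  rfl

/-- finite averages of `f ∘ R` are nearly constant -/
theorem nearly_const {n : ℕ} (hne : Nonempty (Sph n)) (f : C(Sph n, ℝ)) (ε : ℝ) (hε : 0 < ε) :
    ∃ g ∈ convexHull ℝ (Set.range fun R : Orth n => f.comp (rot R)), ∃ c : ℝ, ∀ x, c ≤ g x ∧ g x ≤ c + ε := by
  set H := convexHull ℝ (Set.range fun R : Orth n => f.comp (rot R)) with hH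
  have hconv : Convex ℝ H := convex_convexHull ℝ _
  -- modulus of continuity
  have hu : UniformContinuous f := CompactSpace.uniformContinuous_of_continuous f.continuous
  obtain ⟨r, hr, hmod⟩ := Metric.uniformContinuous_iff.1 hu (ε / 2) (by positivity)
  have hmodH : ∀ g ∈ H, ∀ x y, dist x y < r → |g x - g y| ≤ ε / 2 := by
    intro g hg
    refine convexHull_min (t := {g : C(Sph n, ℝ) | ∀ x y, dist x y < r → |g x - g y| ≤ ε / 2}) ?_ ?_ hg
    · rintro _ ⟨R, rfl⟩ x y hxy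
      have h1 : dist (rot R x) (rot R y) < r := by rw [rot_dist]; exact hxy
      have h2 := hmod h1
      rw [Real.dist_eq] at h2
      exact h2.le
    · intro g₁ h₁ g₂ h₂ a b ha hb hab x y hxy
      have e : (a • g₁ + b • g₂) x - (a • g₁ + b • g₂) y = a * (g₁ x - g₁ y) + b * (g₂ x - g₂ y) := by
        simp only [ContinuousMap.add_apply, ContinuousMap.smul_apply, smul_eq_mul]
        ring
      rw [e]
      calc |a * (g₁ x - g₁ y) + b * (g₂ x - g₂ y)| ≤ |a * (g₁ x - g₁ y)| + |b * (g₂ x - g₂ y)| := abs_add_le _ _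
        _ = a * |g₁ x - g₁ y| + b * |g₂ x - g₂ y| := by rw [abs_mul, abs_mul, abs_of_nonneg ha, abs_of_nonneg hb]
        _ ≤ a * (ε / 2) + b * (ε / 2) :=
          add_le_add (mul_le_mul_of_nonneg_left (h₁ x y hxy) ha) (mul_le_mul_of_nonneg_left (h₂ x y hxy) hb)
        _ = ε / 2 := by rw [← add_mul, hab, one_mul]
  have hrotH : ∀ g ∈ H, ∀ S : Orth n, g.comp (rot S) ∈ H := by
    intro g hg
    refine convexHull_min (t := {g : C(Sph n, ℝ) | ∀ S : Orth n, g.comp (rot S) ∈ H}) ?_ ?_ hg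
    · rintro _ ⟨R, rfl⟩ S
      rw [rot_comp]
      exact subset_convexHull ℝ _ ⟨S.trans R, rfl⟩
    · intro g₁ h₁ g₂ h₂ a b ha hb hab S
      have e : (a • g₁ + b • g₂).comp (rot S) = a • g₁.comp (rot S) + b • g₂.comp (rot S) := by
        ext x; rfl
      rw [e]
      exact hconv (h₁ S) (h₂ S) ha hb hab
  have hbdd : ∀ g ∈ H, ∀ x, -‖f‖ ≤ g x := by
    intro g hg
    refine convexHull_min (t := {g : C(Sph n, ℝ) | ∀ x, -‖f‖ ≤ g x}) ?_ ?_ hg
    · rintro _ ⟨R, rfl⟩ x
      exact ContinuousMap.neg_norm_le_apply f _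
    · intro g₁ h₁ g₂ h₂ a b ha hb hab x
      have e1 := mul_le_mul_of_nonneg_left (h₁ x) ha
      have e2 := mul_le_mul_of_nonneg_left (h₂ x) hb
      change -‖f‖ ≤ a * g₁ x + b * g₂ x
      have : a * -‖f‖ + b * -‖f‖ = -‖f‖ := by rw [← add_mul, hab, one_mul]
      linarith
  -- a finite net
  obtain ⟨F, -, hFc⟩ := (isCompact_univ (X := Sph n)).elim_finite_subcover_image (b := univ)
    (c := fun x : Sph n => Metric.ball x r) (fun x _ => Metric.isOpen_ball)
    (by intro x _; simp only [mem_univ, iUnion_true, mem_iUnion]; exact ⟨x, Metric.mem_ball_self hr⟩)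
  obtain ⟨hFf, hFc⟩ := hFc
  obtain ⟨x₁⟩ := hne
  set T := hFf.toFinset with hT
  have hcov : ∀ x : Sph n, ∃ z ∈ T, dist x z < r := by
    intro x
    have h := hFc (mem_univ x)
    simp only [mem_iUnion, Metric.mem_ball, exists_prop] at h
    obtain ⟨z, hz, hxz⟩ := h
    exact ⟨z, by rw [hT, Set.Finite.mem_toFinset]; exact hz, hxz⟩
  have hTne : T.Nonempty := by
    obtain ⟨z, hz, -⟩ := hcov x₁
    exact ⟨z, hz⟩
  set N : ℝ := (T.card : ℝ) with hN
  have hNpos : 0 < N := by rw [hN]; exact_mod_cast Finset.card_pos.2 hTne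
  set A : Set ℝ := {M | ∃ g ∈ H, ∀ x, g x ≤ M} with hA
  have hAne : A.Nonempty := by
    refine ⟨‖f‖, f, subset_convexHull ℝ _ ⟨LinearIsometryEquiv.refl ℝ _, ?_⟩, fun x => ?_⟩
    · ext x; rfl
    · exact ContinuousMap.apply_le_norm f x
  have hAbd : BddBelow A := by
    refine ⟨-‖f‖, ?_⟩
    rintro M ⟨g, hg, hM⟩
    exact (hbdd g hg x₁).trans (hM x₁)
  obtain ⟨M, ⟨g, hg, hgM⟩, hMlt⟩ := exists_lt_of_csInf_lt hAne
    (show sInf A < sInf A + ε / (2 * N) by
      have : 0 < ε / (2 * N) := by positivity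
      linarith)
  refine ⟨g, hg, M - ε, fun x => ⟨?_, by linarith [hgM x]⟩⟩
  by_contra hcon
  rw [not_le] at hcon
  classical
  choose R hR using fun z : Sph n => rot_trans z x
  have hmem : ∑ z ∈ T, N⁻¹ • g.comp (rot (R z)) ∈ H := by
    refine hconv.sum_mem (fun z _ => by positivity) ?_ (fun z _ => hrotH g hg (R z))
    rw [Finset.sum_const, nsmul_eq_mul, ← hN, mul_inv_cancel₀ hNpos.ne']
  have hlow : M - ε / (2 * N) ∈ A := by
    refine ⟨_, hmem, fun y => ?_⟩
    obtain ⟨z₀, hz₀, hyz⟩ := hcov y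
    rw [ContinuousMap.sum_apply]
    have h1 : ∀ z ∈ T, (N⁻¹ • g.comp (rot (R z))) y ≤ N⁻¹ * (M - if z = z₀ then ε / 2 else 0) := by
      intro z hz
      change N⁻¹ * g (rot (R z) y) ≤ _
      refine mul_le_mul_of_nonneg_left ?_ (by positivity)
      split_ifs with h
      · subst h
        have h2 : dist (rot (R z) y) x < r := by
          rw [← hR z, rot_dist]
          exact hyz
        have h3 := abs_le.1 (hmodH g hg _ _ h2)
        linarith [h3.2]
      · linarith [hgM (rot (R z) y)]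
    refine (Finset.sum_le_sum h1).trans ?_
    rw [← Finset.mul_sum, Finset.sum_sub_distrib, Finset.sum_const, nsmul_eq_mul, ← hN, Finset.sum_ite_eq' T z₀, if_pos hz₀]
    have : N⁻¹ * (N * M - ε / 2) = M - ε / (2 * N) := by
      field_simp
    rw [this]
  have := csInf_le hAbd hlow
  linarith

/-- invariant linear maps which vanish at `1` are zero -/
theorem inv_zero {n : ℕ} {X : Type} [NormedAddCommGroup X] [NormedSpace ℝ X] (L : C(Sph n, ℝ) →L[ℝ] X)
    (hL : ∀ (R : Orth n) (f : C(Sph n, ℝ)), L (f.comp (rot R)) = L f) (h1 : L 1 = 0) (f : C(Sph n, ℝ)) : L f = 0 := by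
  rcases isEmpty_or_nonempty (Sph n) with he | hne
  · have : f = 0 := by ext x; exact (he.false x).elim
    rw [this, map_zero]
  by_contra hcon
  have hpos : 0 < ‖L f‖ := norm_pos_iff.2 hcon
  set ε := ‖L f‖ / (2 * (‖L‖ + 1)) with hε
  have hLn : 0 ≤ ‖L‖ := norm_nonneg L
  have hεpos : 0 < ε := by positivity
  obtain ⟨g, hg, c, hc⟩ := nearly_const hne f ε hεpos
  have hLg : L g = L f := by
    refine convexHull_min (t := {g : C(Sph n, ℝ) | L g = L f}) ?_ ?_ hg
    · rintro _ ⟨R, rfl⟩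
      exact hL R f
    · intro g₁ h₁ g₂ h₂ a b ha hb hab
      have h₁' : L g₁ = L f := h₁
      have h₂' : L g₂ = L f := h₂
      change L (a • g₁ + b • g₂) = L f
      rw [map_add, map_smul, map_smul, h₁', h₂', ← add_smul, hab, one_smul]
  have h2 : L (g - c • (1 : C(Sph n, ℝ))) = L f := by
    rw [map_sub, map_smul, h1, smul_zero, sub_zero, hLg]
  have h3 : ‖g - c • (1 : C(Sph n, ℝ))‖ ≤ ε := by
    rw [ContinuousMap.norm_le _ hεpos.le]
    intro x
    have hx := hc x
    change ‖g x - c * 1‖ ≤ ε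
    rw [mul_one, Real.norm_eq_abs, abs_le]
    constructor <;> linarith [hx.1, hx.2]
  have h4 : ‖L f‖ ≤ ‖L‖ * ε := by
    rw [← h2]
    exact (L.le_opNorm _).trans (mul_le_mul_of_nonneg_left h3 hLn)
  have h5 : ‖L‖ * ε < ‖L f‖ := by
    rw [hε]
    have : ‖L‖ * (‖L f‖ / (2 * (‖L‖ + 1))) = ‖L f‖ * (‖L‖ / (2 * (‖L‖ + 1))) := by ring
    rw [this]
    have h6 : ‖L‖ / (2 * (‖L‖ + 1)) < 1 := by
      rw [div_lt_one (by positivity)]
      linarith
    calc ‖L f‖ * (‖L‖ / (2 * (‖L‖ + 1))) < ‖L f‖ * 1 := mul_lt_mul_of_pos_left h6 hpos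
      _ = ‖L f‖ := mul_one _
  linarith

end

end Pool.Agent.Lib.MP5bcdfb.HM
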