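import Pool.Agent.Lib.MP_5bcdfb_an.TS.LOC

/-!
# MP_5bcdfb: homogeneous valuations which are continuous at two functions. Definitions and exact statements

THEOREM (`Results/MP_5bcdfb_an/HomogeneousValuations.lean`). Let `K` be compact, `p > 0`, `V` a valuation on `C(K)^+`, homogeneous of
degree `p`. Then `V` is continuous at the two functions `0` and `a`, where `a` is some strictly positive function, if and only if
`V f = L (f ^ p)` with a bounded linear functional `L` on `C(K)`; then `V` is uniformly continuous on bounded sets. Neither of the two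
continuity conditions can be dropped.

Module `XXX` is the file `HM/XXX.lean` with `theorem specXXX (hYYY : SpecYYY) .. : SpecXXX` (the modules named after USES, in this
order) in the namespace `Pool.Agent.Lib.MP5bcdfb.HM`, own lemmas in the namespace `XXXM`. Every module imports only
`Pool.Agent.Lib.MP_5bcdfb_an.HM.Spec`. All proofs below are complete. `TS.specLOC` (increments are local, in `TS/LOC.lean`) is available.

IDEA. Replace `V f` by `V (a f ^ (1/p))` (PWR): let `p = 1`, `a = 1`. Let `a ≤ g ≤ κ a`. Cut the values into slices of ratio `κ²` (TEL), and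
scale each slice to `[1, κ²]`. The perturbations in the slices of even index have disjoint supports; so they can be put into ONE function
with values in `[1, κ²]` (DIS, PAR), where `V` varies little. This gives `|V g - V a| ≤ 8 η R`, and uniform continuity (SLI, UC1).
Then `V` is additive by approximation with step functions, where the steps are placed at good levels (GRD, ONE).
-/

set_option autoImplicit false

namespace Pool.Agent.Lib.MP5bcdfb.HM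

open Set TopologicalSpace Filter Topology
open Pool.Agent.Lib.MP5bcdfb.TS (IsVal ContAt UCB)

noncomputable section

/-! ## Definitions -/

/-- homogeneous of degree `p` on `C(K)^+` -/
def Hom {K : Type} [TopologicalSpace K] (p : ℝ) (V : C(K, ℝ) → ℝ) : Prop :=
  ∀ (r : ℝ) (f : C(K, ℝ)), 0 < r → 0 ≤ f → V (r • f) = r ^ p * V f

/-- homogeneous of degree `1` on `C(K)^+`, with the factor `0` -/
def Hom1 {K : Type} [TopologicalSpace K] (V : C(K, ℝ) → ℝ) : Prop :=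
  ∀ (r : ℝ) (f : C(K, ℝ)), 0 ≤ r → 0 ≤ f → V (r • f) = r * V f

/-- `f` cut off below at `m` and above at `M` -/
def cl {K : Type} [TopologicalSpace K] (m M : ℝ) (f : C(K, ℝ)) : C(K, ℝ) :=
  (f ⊓ ContinuousMap.const K M) ⊔ ContinuousMap.const K m

/-- the slice of `f` between the levels `s κ^(2i)` and `s κ^(2i+2)`, scaled to `[1, κ²]` -/
def lev {K : Type} [TopologicalSpace K] (s κ : ℝ) (i : ℕ) (f : C(K, ℝ)) : C(K, ℝ) :=
  cl 1 (κ ^ 2) ((s * (κ ^ 2) ^ i)⁻¹ • f)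

/-! ## Statements -/

/-- **DIS** (110 lines). Sums of local increments.
PROOF. Let `u' i = u i ⊓ D i`, `v' i = v i ⊓ D i`, `m = u i ⊓ v i`. By `TS.specLOC` (with `f = m`, `g = u i`, `f' = m ⊓ D i`,
`g' = u i ⊓ D i`: at a point where `u i = v i` we have `m = u i` and `f' = g'`; otherwise `u i, v i ≤ D i` and `f = f'`, `g = g'`)
`V (u i) - V m = V (u' i) - V (m ⊓ D i)`, and in the same way for `v i`; so `V (u i) - V (v i) = V (u' i) - V (v' i)`.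
For `E ⊆ s` let `uE` be the supremum of `b` and the `u' i`, `i ∈ E` (by recursion over the finset). By induction on `E`,
`V uE - V b = ∑ i ∈ E, (V (u' i) - V b)`: for `i ∉ E` we have `u' i ⊓ uE = b` by the disjointness (at a point either `u' i ≤ b`, or
`u' j ≤ b` for all `j ∈ E`, so `uE = b`), and `V (uE ⊔ u' i) + V b = V uE + V (u' i)`. The same for `v'`. So
`|∑ i ∈ E, (V (u i) - V (v i))| = |V uE - V vE| ≤ 2 η`, as `b ≤ uE, vE ≤ T`. Take for `E` the set of the `i` with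
`V (u i) - V (v i) ≥ 0` and its complement in `s`. -/
def SpecDIS : Prop := ∀ (K : Type) [TopologicalSpace K] (V : C(K, ℝ) → ℝ), IsVal V →
  ∀ (b : C(K, ℝ)) (T η : ℝ) (s : Finset ℕ) (u v D : ℕ → C(K, ℝ)), 0 ≤ b → (∀ t, b t ≤ T) →
  (∀ i ∈ s, b ≤ u i ∧ b ≤ v i ∧ b ≤ D i) → (∀ i ∈ s, ∀ t, u i t ≤ T ∧ v i t ≤ T) →
  (∀ i ∈ s, ∀ t, u i t = v i t ∨ (u i t ≤ D i t ∧ v i t ≤ D i t)) →
  (∀ i ∈ s, ∀ j ∈ s, i ≠ j → ∀ t, (min (u i t) (D i t) ≤ b t ∧ min (v i t) (D i t) ≤ b t) ∨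
    (min (u j t) (D j t) ≤ b t ∧ min (v j t) (D j t) ≤ b t)) →
  (∀ x : C(K, ℝ), b ≤ x → (∀ t, x t ≤ T) → |V x - V b| ≤ η) →
  ∑ i ∈ s, |V (u i) - V (v i)| ≤ 4 * η

/-- **BDO** (60 lines). Bounds from the continuity at `0`.
PROOF. `V 0 = 0` (`r = 0`). Let `r > 0` be such that `|V g| < 1` for `g ≥ 0`, `‖g‖ < r`, and `C = 2 / r`. If `f ≠ 0`, apply this to
`g = (r / (2 ‖f‖)) • f` and use `V f = (2 ‖f‖ / r) * V g`. For the second part `V f + V s = V (f ⊔ s) + V (f ⊓ s)`, where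
`‖s‖, ‖f ⊓ s‖ ≤ s`. -/
def SpecBDO : Prop := ∀ (K : Type) [TopologicalSpace K] [CompactSpace K] (V : C(K, ℝ) → ℝ), IsVal V → Hom1 V → ContAt V 0 →
  ∃ C : ℝ, 0 ≤ C ∧ (∀ f : C(K, ℝ), 0 ≤ f → |V f| ≤ C * ‖f‖) ∧
    ∀ (f : C(K, ℝ)) (s : ℝ), 0 ≤ f → 0 ≤ s → |V f - V (f ⊔ ContinuousMap.const K s)| ≤ 2 * C * s

/-- **TEL** (70 lines). Slices.
PROOF. Show `V (f ⊓ r n) - V (r 0) = ∑ i ∈ range n, (..)` by induction on `n`: `f ⊓ r 0 = r 0`, and `IsVal` for `f ⊓ r (n+1)` and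
`r n`: their infimum is `f ⊓ r n`, their supremum `cl (r n) (r (n+1)) f`. Finally `f ⊓ r N = f`. -/
def SpecTEL : Prop := ∀ (K : Type) [TopologicalSpace K] (V : C(K, ℝ) → ℝ), IsVal V →
  ∀ (r : ℕ → ℝ) (N : ℕ) (f : C(K, ℝ)), (∀ i, 0 ≤ r i ∧ r i ≤ r (i + 1)) → (∀ t, r 0 ≤ f t ∧ f t ≤ r N) →
  V f - V (ContinuousMap.const K (r 0)) =
    ∑ i ∈ Finset.range N, (V (cl (r i) (r (i + 1)) f) - V (ContinuousMap.const K (r i)))

/-- **PAR** (130 lines), USES DIS. All slices of the same parity in one function.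
PROOF. Let `r i = s * (κ ^ 2) ^ i`. DIS with `b = 1`, `T = κ ^ 2`, `u i = lev s κ i g`, `v i = lev s κ i a`, and `D i = cl 1 (κ ^ 2) d`, where
`d t = κ ^ 2 * (r (i+1) / a t) ^ 2`. If `a t ≤ r (i+1)`, then `D i t = κ ^ 2`, the largest possible value; if `a t > r (i+1)`, then
`g t > r (i+1)`, so `u i t = κ ^ 2 = v i t`. Disjointness: if `u i t > 1` or `v i t > 1`, then `g t > r i`, so `a t > r i / κ`; if
`D i t > 1`, then `a t < κ r (i+1)`. For `j ≥ i + 2` (the same parity, `i < j`) we have `r j / κ ≥ κ r (i+1)`. -/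
def SpecPAR : Prop := ∀ (K : Type) [TopologicalSpace K] (V : C(K, ℝ) → ℝ), IsVal V → ∀ (s κ η : ℝ), 0 < s → 1 < κ →
  (∀ x : C(K, ℝ), (∀ t, 1 ≤ x t ∧ x t ≤ κ ^ 2) → |V x - V 1| ≤ η) →
  ∀ a g : C(K, ℝ), (∀ t, s ≤ a t ∧ a t ≤ g t ∧ g t ≤ κ * a t) → ∀ N c : ℕ,
  ∑ i ∈ (Finset.range N).filter (fun i => i % 2 = c), |V (lev s κ i g) - V (lev s κ i a)| ≤ 4 * η

/-- **SLI** (90 lines), USES TEL PAR. The main estimate.
PROOF. `η ≥ 0` (`x = 1`). Let `r i = s * (κ ^ 2) ^ i` and `r N ≥ R`. By TEL for `g` and for `a`, `V g - V a` is the sum over `i < N` of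
`V (cl (r i) (r (i+1)) g) - V (cl (r i) (r (i+1)) a)`, and `cl (r i) (r (i+1)) f = r i • lev s κ i f`, so the term is
`r i * (V (lev s κ i g) - V (lev s κ i a))`. If `r i > R`, then both slices are `1` and the term is `0`. So the absolute values of the terms are at most
`R * |V (lev s κ i g) - V (lev s κ i a)|`; sum over the even and over the odd `i` with PAR. -/
def SpecSLI : Prop := ∀ (K : Type) [TopologicalSpace K] (V : C(K, ℝ) → ℝ), IsVal V → Hom1 V →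
  ∀ (s κ η R : ℝ), 0 < s → 1 < κ → 0 ≤ R → (∀ x : C(K, ℝ), (∀ t, 1 ≤ x t ∧ x t ≤ κ ^ 2) → |V x - V 1| ≤ η) →
  ∀ a g : C(K, ℝ), (∀ t, s ≤ a t ∧ a t ≤ g t ∧ g t ≤ κ * a t ∧ g t ≤ R) → |V g - V a| ≤ 8 * η * R

/-- **UC1** (110 lines), USES BDO SLI. Uniform continuity.
PROOF. Let `m, ε > 0`, `C` from BDO, `s = ε / (8 (C + 1))`, `R = m + s`, `η = ε / (32 R)`. By the continuity at `1` there is `ρ > 0` with
`|V x - V 1| < η` for `x ≥ 0`, `‖x - 1‖ < ρ`; let `κ = 1 + min 1 ρ / 4`, then `κ ^ 2 - 1 < ρ`, and the hypothesis of SLI holds. Let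
`δ = (κ - 1) s`. Let `f, g ≥ 0` be of norm `≤ m`, `‖f - g‖ < δ`, `f' = f ⊔ s`, `g' = g ⊔ s`, `a = f' ⊓ g'`. Then `s ≤ a ≤ f' ≤ a + δ ≤ κ a`,
`f' ≤ R`, so `|V f' - V a| ≤ 8 η R`, and the same for `g'`; by BDO `|V f - V f'|, |V g - V g'| ≤ 2 C s`. The sum is at most
`4 C s + 16 η R ≤ ε`. -/
def SpecUC1 : Prop := ∀ (K : Type) [TopologicalSpace K] [CompactSpace K] (V : C(K, ℝ) → ℝ), IsVal V → Hom1 V →
  ContAt V 0 → ContAt V 1 → UCB V

/-- **SUM** (60 lines). Disjoint sums.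
PROOF. Induction on `s`. `V 0 = 0` (`r = 0`). For `x, y ≥ 0` with `x t = 0 ∨ y t = 0` for all `t`, `x ⊔ y = x + y` and `x ⊓ y = 0`, so
`V (x + y) = V x + V y`. -/
def SpecSUM : Prop := ∀ (K : Type) [TopologicalSpace K] (V : C(K, ℝ) → ℝ), IsVal V → Hom1 V →
  ∀ (s : Finset ℕ) (B : ℕ → C(K, ℝ)) (c : ℕ → ℝ), (∀ i ∈ s, 0 ≤ B i) → (∀ i ∈ s, 0 ≤ c i) →
  (∀ i ∈ s, ∀ j ∈ s, i ≠ j → ∀ t, B i t = 0 ∨ B j t = 0) →
  V (∑ i ∈ s, c i • B i) = ∑ i ∈ s, c i * V (B i)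

/-- **GRD** (150 lines). `M` shifted grids of step `e`, with trapezoids `B k i` over the cells and small tents around the grid points.
PROOF. Let `w = e / (4 M)`, `y k i = e * (k / M) + e * i - e`, `x k i = max (y k i) 0`, `N` with `(N - 1) e > R + e`,
`B k i t = max 0 (min 1 (min ((h t - y k i) / w) ((y k (i+1) - h t) / w)))`, and `D k t = ∑ i ≤ N, max 0 (min 1 (2 - |h t - y k i| / w))`.
`B k i t ≠ 0` iff `h t` is in the open cell `(y k i, y k (i+1))`, of length `e`; these are disjoint for different `i`; and `h t ≥ 0`.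
If `h t` (which is in `[0, R]`, and so between `y k 0 < 0` and `y k N > R`) is in the closed cell `i < N`, then it is at distance
`≥ w` from both end points, and `B k i t = 1`, or at distance `≤ w` from one of them, and `D k t ≥ 1`.
If `D k t ≠ 0` and `D l t ≠ 0`, then `|h t - y k i| < 2 w`, `|h t - y l j| < 2 w`, so `|y k i - y l j| < 4 w = e / M`, i.e.
`|(k - l) + M (i - j)| < 1` (integers), so `M` divides `k - l`, and `k = l`, as `k, l < M`. -/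
def SpecGRD : Prop := ∀ (K : Type) [TopologicalSpace K] (h : C(K, ℝ)) (R e : ℝ) (M : ℕ), 0 ≤ h → (∀ t, h t ≤ R) → 0 < e → 0 < M →
  ∃ (N : ℕ) (x : ℕ → ℕ → ℝ) (B : ℕ → ℕ → C(K, ℝ)) (D : ℕ → C(K, ℝ)),
    (∀ k i, 0 ≤ x k i) ∧ (∀ k i, 0 ≤ B k i) ∧ (∀ k i t, B k i t ≤ 1) ∧ (∀ k, 0 ≤ D k) ∧
    (∀ k < M, ∀ i j, i ≠ j → ∀ t, B k i t = 0 ∨ B k j t = 0) ∧
    (∀ k < M, ∀ i t, B k i t ≠ 0 → x k i ≤ h t ∧ h t ≤ x k i + e) ∧
    (∀ k < M, ∀ t, (∃ i < N, B k i t = 1) ∨ 1 ≤ D k t) ∧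
    ∀ k < M, ∀ l < M, k ≠ l → ∀ t, D k t = 0 ∨ D l t = 0

/-- **STP** (120 lines), USES DIS SUM GRD. Step functions.
PROOF. GRD for `h`, `R`, `e`, `M`. Let `(α, β)` be one of `(1, 0)`, `(0, 1)`, `(1, 1)`, and `φ = α + β h ≤ R + 1`, `0 ≤ φ`. For `k < M` let
`F k = ∑ i ∈ range N, (α + β x k i) • B k i`. At each point at most one `B k i` is not `0`; so `0 ≤ F k ≤ φ` (as `x k i ≤ h t` there).
Let `u k = F k ⊔ (φ - e)`, so `0 ≤ F k ≤ u k ≤ φ ≤ u k + e`. If `B k i t = 1`, then `F k t = α + β x k i ≥ φ t - e`, so `u k t = F k t`.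
So DIS with `b = 0`, `T = R + 1`, `D' k = (R + 1) • D k`, `v = F`, `s = range M`, `η = C` gives `∑ k < M, |V (u k) - V (F k)| ≤ 4 C`.
Add the three inequalities: for some `k < M` the sum of the three terms is at most `12 C / M`. By SUM
`V (F k) = ∑ i < N, (α + β x k i) V (B k i)`, so for this `k` the value for `(1, 1)` is the sum of the values for `(1, 0)` and `(0, 1)`.
The functions `u₁, u₂, u₃` of the conclusion are the `u k` for `(1, 0)`, `(0, 1)`, `(1, 1)`. -/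
def SpecSTP : Prop := ∀ (K : Type) [TopologicalSpace K] (V : C(K, ℝ) → ℝ), IsVal V → Hom1 V →
  ∀ (h : C(K, ℝ)) (R e C : ℝ) (M : ℕ), 0 ≤ h → 0 ≤ R → (∀ t, h t ≤ R) → 0 < e → e ≤ 1 → 0 < M →
  (∀ x : C(K, ℝ), 0 ≤ x → (∀ t, x t ≤ R + 1) → |V x| ≤ C) →
  ∃ u₁ u₂ u₃ : C(K, ℝ), 0 ≤ u₁ ∧ 0 ≤ u₂ ∧ 0 ≤ u₃ ∧ (∀ t, u₁ t ≤ 1 ∧ 1 ≤ u₁ t + e) ∧ (∀ t, u₂ t ≤ h t ∧ h t ≤ u₂ t + e) ∧
    (∀ t, u₃ t ≤ 1 + h t ∧ 1 + h t ≤ u₃ t + e) ∧ |V u₃ - V u₁ - V u₂| ≤ 12 * C / M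

/-- **ONE** (70 lines), USES BDO STP.
PROOF. Let `R = ‖h‖`, `C'` from BDO, `C = C' (R + 1)`. Let `ε > 0`, `δ` from `UCB` for `m = R + 1` and `ε`, `e = min 1 (δ / 2)`, and `M` with
`12 C / M ≤ ε`. By STP and `UCB` `|V (1 + h) - V 1 - V h| ≤ 4 ε`. -/
def SpecONE : Prop := ∀ (K : Type) [TopologicalSpace K] [CompactSpace K] (V : C(K, ℝ) → ℝ), IsVal V → Hom1 V →
  ContAt V 0 → UCB V → ∀ h : C(K, ℝ), 0 ≤ h → V (1 + h) = V 1 + V h

/-- **ADC** (110 lines), USES ONE. Additivity.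
PROOF. Let `f > 0` everywhere, and `W u = V (f * u)`. `W` has all hypotheses of ONE (`f * (u ⊔ v) = f * u ⊔ f * v`,
`‖f * u‖ ≤ ‖f‖ ‖u‖`), so `V (f + g) = W (1 + g / f) = W 1 + W (g / f) = V f + V g`. For `f ≥ 0` apply this to `f + s`, `s > 0`, and let
`s → 0` with `UCB`. -/
def SpecADC : Prop := ∀ (K : Type) [TopologicalSpace K] [CompactSpace K] (V : C(K, ℝ) → ℝ), IsVal V → Hom1 V →
  ContAt V 0 → UCB V → ∀ f g : C(K, ℝ), 0 ≤ f → 0 ≤ g → V (f + g) = V f + V g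

/-- **EXL** (100 lines). Extension to a linear functional.
PROOF. `L f = V (f ⊔ 0) - V (-f ⊔ 0)`. If `f = a - b` with `a, b ≥ 0`, then `a + (-f ⊔ 0) = b + (f ⊔ 0)`, so `L f = V a - V b`. Hence `L` is
additive and homogeneous (for `r < 0` exchange the two parts); `|L f| ≤ 2 C ‖f‖`. `LinearMap.mkContinuous`. -/
def SpecEXL : Prop := ∀ (K : Type) [TopologicalSpace K] [CompactSpace K] (V : C(K, ℝ) → ℝ) (C : ℝ), Hom1 V →
  (∀ f g : C(K, ℝ), 0 ≤ f → 0 ≤ g → V (f + g) = V f + V g) → (∀ f : C(K, ℝ), 0 ≤ f → |V f| ≤ C * ‖f‖) →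
  ∃ L : C(K, ℝ) →L[ℝ] ℝ, ∀ f : C(K, ℝ), 0 ≤ f → V f = L f

/-- **PWR** (150 lines). Reduction to the degree `1`.
PROOF. For `f ∈ C(K)` let `rt f t = (max (f t) 0) ^ (1 / p)` (continuous, as `1 / p > 0`), and `W f = V (a * rt f)`. For `f, g ≥ 0`
`rt (f ⊔ g) = rt f ⊔ rt g`, `rt (f ⊓ g) = rt f ⊓ rt g`, so `W` is a valuation; `rt (r • f) = r ^ (1/p) • rt f`; `V 0 = 0` from
`V 0 = 2 ^ p * V 0`. Continuity at `0`: `‖a * rt f‖ ≤ ‖a‖ ‖f‖ ^ (1/p)`; at `1`: `x ^ (1/p)` is continuous at `1`, so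
`‖a * rt f - a‖` is small if `‖f - 1‖` is small. If `g = (f / a) ^ p`, then `rt g = f / a`, `a * rt g = f`. -/
def SpecPWR : Prop := ∀ (K : Type) [TopologicalSpace K] [CompactSpace K] (V : C(K, ℝ) → ℝ) (p : ℝ), 0 < p → IsVal V → Hom p V →
  ContAt V 0 → ∀ a : C(K, ℝ), (∀ t, 0 < a t) → ContAt V a →
  ∃ W : C(K, ℝ) → ℝ, IsVal W ∧ Hom1 W ∧ ContAt W 0 ∧ ContAt W 1 ∧
    ∀ f g : C(K, ℝ), 0 ≤ f → (∀ t, g t = (f t / a t) ^ p) → V f = W g

/-- **CNV** (90 lines). The converse.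
PROOF. `x ^ p` is uniformly continuous on `[0, m]`: for `ε' > 0` there is `δ` with `|x ^ p - y ^ p| ≤ ε'` for `x, y ∈ [0, m]`,
`|x - y| < δ`; take `ε' = ε / (‖L‖ + 1)`. -/
def SpecCNV : Prop := ∀ (K : Type) [TopologicalSpace K] [CompactSpace K] (V : C(K, ℝ) → ℝ) (p : ℝ), 0 < p →
  ∀ L : C(K, ℝ) →L[ℝ] ℝ, (∀ f g : C(K, ℝ), 0 ≤ f → (∀ t, g t = f t ^ p) → V f = L g) → UCB V

/-- **EX1** (110 lines). Homogeneous and bounded, but not continuous at `1`.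
PROOF. Let `U = Ultrafilter.of (𝓝[≠] t₀)` and `V f = (f t₀) ^ p` if `∀ᶠ x in U, (1 + dist x t₀) * f t₀ ≤ f x`, and `V f = 0` otherwise.
Valuation: if `f t₀ = g t₀`, then the condition holds for `f ⊔ g` iff for `f` or `g` (`Ultrafilter.eventually_or`), for `f ⊓ g` iff for `f` and
`g`; if `f t₀ < g t₀`, then `f x < g x` for `x` near `t₀`, so `f ⊔ g` has the same value as `g`, `f ⊓ g` the same as `f`.
`V f ≤ ‖f‖ ^ p`. `V 1 = 0`, since `dist x t₀ > 0` for `x ≠ t₀`; for `s > 0` and `f x = 1 + min s (dist x t₀)` we have `V f = 1` and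
`‖f - 1‖ ≤ s`. -/
def SpecEX1 : Prop := ∀ (K : Type) [MetricSpace K] [CompactSpace K] (t₀ : K), (𝓝[≠] t₀).NeBot → ∀ p : ℝ, 0 < p →
  ∃ V : C(K, ℝ) → ℝ, IsVal V ∧ Hom p V ∧ ContAt V 0 ∧ ¬ ContAt V 1

/-- **EX2** (110 lines). Homogeneous and continuous at all positive functions, but not at `0`.
PROOF. Let `U = Ultrafilter.of (𝓝[≠] t₀)`, `S f = {c : ℝ | 0 ≤ c ∧ ∀ᶠ x in U, c * dist x t₀ ≤ f x}` and `V f = (sSup (S f)) ^ p` (where
the supremum of an unbounded set is `0`). For `f, g ≥ 0` the sets `S f`, `S g` are initial segments of `[0, ∞)`, so one of them contains the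
other; `S (f ⊔ g) = S f ∪ S g`, `S (f ⊓ g) = S f ∩ S g`: so `V` is a valuation. `S (r • f) = r • S f` (`Real.sSup_smul_of_nonneg`). If
`f t₀ > 0`, then `S f = [0, ∞)`, `V f = 0`; so `V` is locally constant at positive functions. `S 0 = {0}`, `V 0 = 0`; for `s > 0` and
`f x = min s (dist x t₀)` we have `S f = [0, 1]`, `V f = 1`, `‖f‖ ≤ s`. -/
def SpecEX2 : Prop := ∀ (K : Type) [MetricSpace K] [CompactSpace K] (t₀ : K), (𝓝[≠] t₀).NeBot → ∀ p : ℝ, 0 < p →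
  ∃ V : C(K, ℝ) → ℝ, IsVal V ∧ Hom p V ∧ (∀ f : C(K, ℝ), (∀ t, 0 < f t) → ContAt V f) ∧ ¬ ContAt V 0

end

end Pool.Agent.Lib.MP5bcdfb.HM
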