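import Pool.Agent.Lib.MP_5bcdfb_an.HM.Spec
import Pool.Agent.Lib.MP_5bcdfb_an.VV.Spec

/-!
# MP_5bcdfb: homogeneous valuations with values in a normed space. Definitions and exact statements

The scalar theorem (`HM/Spec.lean`, all modules proved) with values in an arbitrary normed space `X`. All modules are copies of the
scalar ones (`BDO`, `UC1`, `EXL`, `PWR`, `CNV`: replace `|.|` by the norm, `*` by `•`), or follow from the scalar ones with
functionals `φ : X →L[ℝ] ℝ` (`exists_dual_vector''`: for `x : X` there is `φ` with `‖φ‖ ≤ 1` and `φ x = ‖x‖`).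

Module `XXX` is the file `HM/XXX.lean` with `theorem specXXX (hYYY : SpecYYY) .. : SpecXXX` (the modules named after USES, in this
order) in the namespace `Pool.Agent.Lib.MP5bcdfb.HM`, own lemmas in the namespace `XXXM`. Every module imports only
`Pool.Agent.Lib.MP_5bcdfb_an.HM.SpecX`.
-/

set_option autoImplicit false

namespace Pool.Agent.Lib.MP5bcdfb.HM

open Set TopologicalSpace Filter Topology
open Pool.Agent.Lib.MP5bcdfb.TS (IsVal ContAt UCB)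
open Pool.Agent.Lib.MP5bcdfb.VV (ValX UCX)

noncomputable section

/-! ## Definitions -/

/-- homogeneous of degree `p` on `C(K)^+` -/
def HomX {K : Type} [TopologicalSpace K] {X : Type} [NormedAddCommGroup X] [NormedSpace ℝ X] (p : ℝ) (V : C(K, ℝ) → X) : Prop :=
  ∀ (r : ℝ) (f : C(K, ℝ)), 0 < r → 0 ≤ f → V (r • f) = (r ^ p : ℝ) • V f

/-- homogeneous of degree `1` on `C(K)^+`, with the factor `0` -/
def Hom1X {K : Type} [TopologicalSpace K] {X : Type} [NormedAddCommGroup X] [NormedSpace ℝ X] (V : C(K, ℝ) → X) : Prop :=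
  ∀ (r : ℝ) (f : C(K, ℝ)), 0 ≤ r → 0 ≤ f → V (r • f) = r • V f

/-- continuity at `f`, as a function on `C(K)^+` with the sup norm -/
def ContAtX {K : Type} [TopologicalSpace K] [CompactSpace K] {X : Type} [NormedAddCommGroup X] (V : C(K, ℝ) → X)
    (f : C(K, ℝ)) : Prop :=
  ∀ ε : ℝ, 0 < ε → ∃ r : ℝ, 0 < r ∧ ∀ g : C(K, ℝ), 0 ≤ g → ‖g - f‖ < r → ‖V g - V f‖ < ε

/-! ## Statements -/

/-- **XBD** (60 lines). Copy of `HM/BDO.lean`. -/
def SpecXBD : Prop := ∀ (K : Type) [TopologicalSpace K] [CompactSpace K] (X : Type) [NormedAddCommGroup X] [NormedSpace ℝ X]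
  (V : C(K, ℝ) → X), ValX V → Hom1X V → ContAtX V 0 →
  ∃ C : ℝ, 0 ≤ C ∧ (∀ f : C(K, ℝ), 0 ≤ f → ‖V f‖ ≤ C * ‖f‖) ∧
    ∀ (f : C(K, ℝ)) (s : ℝ), 0 ≤ f → 0 ≤ s → ‖V f - V (f ⊔ ContinuousMap.const K s)‖ ≤ 2 * C * s

/-- **XSL** (50 lines), USES SLI. The main estimate.
PROOF. Let `φ : X →L[ℝ] ℝ`, `‖φ‖ ≤ 1`, `φ (V g - V a) = ‖V g - V a‖` (`exists_dual_vector''`). Apply SLI to `fun f => φ (V f)`. -/
def SpecXSL : Prop := ∀ (K : Type) [TopologicalSpace K] (X : Type) [NormedAddCommGroup X] [NormedSpace ℝ X]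
  (V : C(K, ℝ) → X), ValX V → Hom1X V →
  ∀ (s κ η R : ℝ), 0 < s → 1 < κ → 0 ≤ R → (∀ x : C(K, ℝ), (∀ t, 1 ≤ x t ∧ x t ≤ κ ^ 2) → ‖V x - V 1‖ ≤ η) →
  ∀ a g : C(K, ℝ), (∀ t, s ≤ a t ∧ a t ≤ g t ∧ g t ≤ κ * a t ∧ g t ≤ R) → ‖V g - V a‖ ≤ 8 * η * R

/-- **XUC** (110 lines), USES XBD XSL. Copy of `HM/UC1.lean`. -/
def SpecXUC : Prop := ∀ (K : Type) [TopologicalSpace K] [CompactSpace K] (X : Type) [NormedAddCommGroup X] [NormedSpace ℝ X]
  (V : C(K, ℝ) → X), ValX V → Hom1X V → ContAtX V 0 → ContAtX V 1 → UCX V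

/-- **XAD** (60 lines), USES ADC. Additivity.
PROOF. For every `φ : X →L[ℝ] ℝ` the functional `fun f => φ (V f)` satisfies the hypotheses of ADC (for the continuity conditions use
`|φ x| ≤ ‖φ‖ ‖x‖`), so `φ (V (f + g) - V f - V g) = 0`; with `exists_dual_vector''` the vector is `0`. -/
def SpecXAD : Prop := ∀ (K : Type) [TopologicalSpace K] [CompactSpace K] (X : Type) [NormedAddCommGroup X] [NormedSpace ℝ X]
  (V : C(K, ℝ) → X), ValX V → Hom1X V → ContAtX V 0 → UCX V → ∀ f g : C(K, ℝ), 0 ≤ f → 0 ≤ g → V (f + g) = V f + V g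

/-- **XEX** (100 lines). Extension to a linear operator; copy of `HM/EXL.lean`. -/
def SpecXEX : Prop := ∀ (K : Type) [TopologicalSpace K] [CompactSpace K] (X : Type) [NormedAddCommGroup X] [NormedSpace ℝ X]
  (V : C(K, ℝ) → X) (C : ℝ), Hom1X V →
  (∀ f g : C(K, ℝ), 0 ≤ f → 0 ≤ g → V (f + g) = V f + V g) → (∀ f : C(K, ℝ), 0 ≤ f → ‖V f‖ ≤ C * ‖f‖) →
  ∃ L : C(K, ℝ) →L[ℝ] X, ∀ f : C(K, ℝ), 0 ≤ f → V f = L f

/-- **XPW** (150 lines). Reduction to the degree `1`; copy of `HM/PWR.lean`. -/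
def SpecXPW : Prop := ∀ (K : Type) [TopologicalSpace K] [CompactSpace K] (X : Type) [NormedAddCommGroup X] [NormedSpace ℝ X]
  (V : C(K, ℝ) → X) (p : ℝ), 0 < p → ValX V → HomX p V →
  ContAtX V 0 → ∀ a : C(K, ℝ), (∀ t, 0 < a t) → ContAtX V a →
  ∃ W : C(K, ℝ) → X, ValX W ∧ Hom1X W ∧ ContAtX W 0 ∧ ContAtX W 1 ∧
    ∀ f g : C(K, ℝ), 0 ≤ f → (∀ t, g t = (f t / a t) ^ p) → V f = W g

/-- **XCN** (90 lines). The converse; copy of `HM/CNV.lean`. -/
def SpecXCN : Prop := ∀ (K : Type) [TopologicalSpace K] [CompactSpace K] (X : Type) [NormedAddCommGroup X] [NormedSpace ℝ X]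
  (V : C(K, ℝ) → X) (p : ℝ), 0 < p →
  ∀ L : C(K, ℝ) →L[ℝ] X, (∀ f g : C(K, ℝ), 0 ≤ f → (∀ t, g t = f t ^ p) → V f = L g) → UCX V

end

end Pool.Agent.Lib.MP5bcdfb.HM
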